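import Pool.Agent.Work.MP_5db8eb_co.SP.EvB

set_option autoImplicit false

/-!
# SP/AntE (size M)

Two incomparable elements below all the others.
`A` has two elements, not comparable; all other letters (`∉ A`) are bigger than both.
PROOFS. `ev_anti`: contents `c ++ m`, `c` without letters of `A`, `m` a list of letters of `A`. A letter `a ∈ A` passes everything (`pass_id`). Another letter or a top: if `m = a :: m'`, then what comes out of `c` (if `c = []` and `e = none` nothing)
takes the cell of `a`, and `a` passes `m'`; so the new contents are `app c e ++ m'` and `a` comes out (for `e = none`, `c = []`: `ev (a :: m') none = (m', some a)` and `app [] none = []`).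
`emk_anti`: by `ev_anti` (induction) the contents before the last three events are `c ++ m` with `m.length` = number of letters of `A` among the events before (a letter of `A` is appended at the end; other events: if `m = a :: m'` then `a` is appended again at the end; if `m = []` they give contents without letters of `A`).
The last event is not in `A`, so `m.length` + (number of letters of `A` among the first two of the last three events `e1`, `e2`) `= 2`. If `e1 ∉ A` then `m ≠ []` (otherwise at most one letter of `A`), so an element of `A` comes out at `e1`, in both cases;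
if `e2 ∉ A`: if `e1 ∈ A` then `m.length = 1` and `m` is unchanged after `e1`; if `e1 ∉ A` then `m.length = 2` and after `e1` it has length 1: an element of `A` comes out at `e2`. So the first two letters which come out are in `A`: they are not
comparable (or equal) and nothing is smaller than them: not bad.
-/

namespace Pool.Agent.Work.MP_5db8eb_co.SP

open Classical

variable {α : Type*} [PartialOrder α]

private theorem pass_anti (A : Finset α) (hA : ∀ a ∈ A, ∀ b ∈ A, ¬ a < b) (x a : α) (c m : List α)
    (ha : a ∈ A) (hx : a < x) (hc : ∀ y ∈ c, a < y) (hm : ∀ y ∈ m, y ∈ A) :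
    pass x (c ++ a :: m) = ((pass x c).1 ++ ([(pass x c).2] ++ m), a) := by
  have hz : a < (pass x c).2 := by
    have hmem : (pass x c).2 ∈ x :: c := (pass_perm x c).mem_iff.mp List.mem_cons_self
    rw [List.mem_cons] at hmem
    rcases hmem with h | h
    · rw [h]
      exact hx
    · exact hc _ h
  rw [pass_append, pass_pos hz, pass_id (fun y hy => hA y (hm y hy) a ha)]
  rfl

theorem ev_anti (A : Finset α) (hA : ∀ a ∈ A, ∀ b ∈ A, ¬ a < b) (c m : List α) (e : Option α)
    (hc : ∀ x ∈ c, x ∉ A ∧ ∀ a ∈ A, a < x) (hm : ∀ x ∈ m, x ∈ A) (he : ∀ x, e = some x → x ∉ A → ∀ a ∈ A, a < x) :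
    (∀ a ∈ A, e = some a → ev (c ++ m) e = (c ++ m, some a)) ∧
      ((∀ a ∈ A, e ≠ some a) → ∀ a m', m = a :: m' → ev (c ++ m) e = (app c e ++ m', some a)) := by
  constructor
  · intro a ha hea
    subst hea
    have hid : pass a (c ++ m) = (c ++ m, a) := by
      apply pass_id
      intro y hy
      rw [List.mem_append] at hy
      rcases hy with hy | hy
      · exact fun h => lt_asymm h ((hc y hy).2 a ha)
      · exact hA y (hm y hy) a ha
    show ((pass a (c ++ m)).1, some (pass a (c ++ m)).2) = _
    rw [hid]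
  · intro hne a m' hmm
    subst hmm
    have ha : a ∈ A := hm a List.mem_cons_self
    have hm' : ∀ y ∈ m', y ∈ A := fun y hy => hm y (List.mem_cons_of_mem _ hy)
    cases e with
    | none =>
      cases c with
      | nil =>
        show ((pass a m').1, some (pass a m').2) = _
        rw [pass_id (fun y hy => hA y (hm' y hy) a ha)]
        rfl
      | cons h c =>
        show ((pass h (c ++ a :: m')).1, some (pass h (c ++ a :: m')).2) = _
        rw [pass_anti A hA h a c m' ha ((hc h List.mem_cons_self).2 a ha)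
          (fun y hy => (hc y (List.mem_cons_of_mem _ hy)).2 a ha) hm']
        show _ = (((pass h c).1 ++ [(pass h c).2]) ++ m', some a)
        rw [List.append_assoc]
    | some x =>
      have hxA : x ∉ A := fun h => hne x h rfl
      show ((pass x (c ++ a :: m')).1, some (pass x (c ++ a :: m')).2) = _
      rw [pass_anti A hA x a c m' ha (he x rfl hxA a ha) (fun y hy => (hc y hy).2 a ha) hm']
      show _ = (((pass x c).1 ++ [(pass x c).2]) ++ m', some a)
      rw [List.append_assoc]

private def Inv (A : Finset α) (c m : List α) : Prop :=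
  (∀ x ∈ c, x ∉ A ∧ ∀ a ∈ A, a < x) ∧ ∀ x ∈ m, x ∈ A

private theorem inv_app (A : Finset α) (c m : List α) (e : Option α) (hI : Inv A c m)
    (he : ∀ x, e = some x → x ∉ A → ∀ a ∈ A, a < x) (hne : ¬ ∃ a ∈ A, e = some a) :
    ∀ x ∈ app c e, x ∉ A ∧ ∀ a ∈ A, a < x := by
  intro x hx
  rcases app_mem hx with hx | hx
  · exact hI.1 x hx
  · have hxA : x ∉ A := fun h => hne ⟨x, h, hx⟩
    exact ⟨hxA, he x hx hxA⟩

private theorem ev_step (A : Finset α) (hA : ∀ a ∈ A, ∀ b ∈ A, ¬ a < b) (c m : List α) (e : Option α)
    (hI : Inv A c m) (he : ∀ x, e = some x → x ∉ A → ∀ a ∈ A, a < x) (h : (∃ a ∈ A, e = some a) ∨ m ≠ []) :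
    ∃ a ∈ A, ∃ c1 m1, ev (c ++ m) e = (c1 ++ m1, some a) ∧ Inv A c1 m1 ∧
      m1.length + 1 = m.length + (if ∃ a ∈ A, e = some a then 1 else 0) := by
  by_cases hAe : ∃ a ∈ A, e = some a
  · obtain ⟨a, ha, hea⟩ := hAe
    refine ⟨a, ha, c, m, (ev_anti A hA c m e hI.1 hI.2 he).1 a ha hea, hI, ?_⟩
    rw [if_pos ⟨a, ha, hea⟩]
  · have hmne := h.resolve_left hAe
    obtain ⟨a, m', rfl⟩ := List.exists_cons_of_ne_nil hmne
    refine ⟨a, hI.2 a List.mem_cons_self, app c e, m', ?_, ?_, ?_⟩
    · exact (ev_anti A hA c (a :: m') e hI.1 hI.2 he).2 (fun b hb hbe => hAe ⟨b, hb, hbe⟩) a m' rfl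
    · exact ⟨inv_app A c _ e hI he hAe, fun y hy => hI.2 y (List.mem_cons_of_mem _ hy)⟩
    · rw [if_neg hAe]
      simp

private theorem app_step (A : Finset α) (hA : ∀ a ∈ A, ∀ b ∈ A, ¬ a < b) (c m : List α) (e : Option α)
    (hI : Inv A c m) (he : ∀ x, e = some x → x ∉ A → ∀ a ∈ A, a < x) :
    ∃ c1 m1, app (c ++ m) e = c1 ++ m1 ∧ Inv A c1 m1 ∧
      m1.length = m.length + (if ∃ a ∈ A, e = some a then 1 else 0) := by
  by_cases h : (∃ a ∈ A, e = some a) ∨ m ≠ []
  · obtain ⟨a, ha, c1, m1, h1, h2, h3⟩ := ev_step A hA c m e hI he h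
    refine ⟨c1, m1 ++ [a], ?_, ⟨h2.1, ?_⟩, ?_⟩
    · unfold app
      rw [h1]
      simp
    · intro y hy
      rw [List.mem_append, List.mem_singleton] at hy
      rcases hy with hy | hy
      · exact h2.2 y hy
      · rw [hy]
        exact ha
    · rw [List.length_append, List.length_singleton, h3]
  · rw [not_or, not_not] at h
    obtain ⟨h1, h2⟩ := h
    subst h2
    refine ⟨app c e, [], ?_, ⟨inv_app A c _ e hI he h1, ?_⟩, ?_⟩
    · simp
    · simp
    · rw [if_neg h1]
      simp

private theorem st_step (A : Finset α) (hA : ∀ a ∈ A, ∀ b ∈ A, ¬ a < b) (F : List (Option α)) (c m : List α)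
    (hI : Inv A c m) (hF : ∀ x, some x ∈ F → x ∉ A → ∀ a ∈ A, a < x) :
    ∃ c1 m1, st (c ++ m) F = c1 ++ m1 ∧ Inv A c1 m1 ∧
      m1.length = m.length + F.countP (fun o => decide (∃ a ∈ A, o = some a)) := by
  induction F generalizing c m with
  | nil => exact ⟨c, m, rfl, hI, by simp⟩
  | cons e F ih =>
    obtain ⟨c1, m1, h1, h2, h3⟩ := app_step A hA c m e hI
      (fun x hx => hF x (by rw [hx]; exact List.mem_cons_self))
    obtain ⟨c2, m2, h4, h5, h6⟩ := ih c1 m1 h2 (fun x hx => hF x (List.mem_cons_of_mem _ hx))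
    refine ⟨c2, m2, ?_, h5, ?_⟩
    · show st (app (c ++ m) e) F = _
      rw [h1, h4]
    · rw [h6, h3, List.countP_cons]
      simp only [decide_eq_true_eq]
      omega

omit [PartialOrder α] in
private theorem countP_two (a b : α) (hab : a ≠ b) (L : List (Option α)) :
    L.countP (fun o => decide (∃ x ∈ ({a, b} : Finset α), o = some x)) = L.count (some a) + L.count (some b) := by
  induction L with
  | nil => simp
  | cons o L ih =>
    rw [List.countP_cons, List.count_cons, List.count_cons, ih]
    have h1 : (decide (∃ x ∈ ({a, b} : Finset α), o = some x) = true) ↔ (o = some a ∨ o = some b) := by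
      rw [decide_eq_true_eq]
      simp
    simp only [h1]
    by_cases ha : o = some a
    · have hb : ¬ o = some b := by
        rw [ha]
        simpa using hab
      simp [ha, hab]
      omega
    · by_cases hb : o = some b
      · simp [hb, hab.symm]
        omega
      · simp [ha, hb]

theorem emk_anti (A : Finset α) (hA : ∀ a ∈ A, ∀ b ∈ A, ¬ a < b) (hA2 : A.card = 2) (E : List (Option α))
    (e : Option α) (hlen : 2 ≤ E.length) (hE : ∀ x, some x ∈ E ++ [e] → x ∉ A → ∀ a ∈ A, a < x)
    (hall : ∀ a ∈ A, (E ++ [e]).count (some a) = 1) (he : ∀ a ∈ A, e ≠ some a) : ¬ Bad (emk 3 (E ++ [e])) := by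
  -- the last three events
  obtain ⟨F, e1, e2, rfl⟩ : ∃ F e1 e2, E = F ++ [e1, e2] := by
    refine ⟨E.take (E.length - 2), E[E.length - 2], E[E.length - 1], ?_⟩
    have h2 : E.drop (E.length - 2) = [E[E.length - 2], E[E.length - 1]] := by
      apply List.ext_getElem
      · rw [List.length_drop]
        simp
        omega
      · intro i hi1 hi2
        rw [List.getElem_drop]
        have hi : i < 2 := by simpa using hi2
        interval_cases i
        · simp
        · simp only [List.getElem_cons_succ, List.getElem_cons_zero]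
          congr 1
          omega
    rw [← h2, List.take_append_drop]
  have hsplit : F ++ [e1, e2] ++ [e] = F ++ [e1, e2, e] := by simp
  rw [hsplit] at hE hall ⊢
  obtain ⟨c, m, h1, h2, h3⟩ := st_step A hA F [] [] ⟨by simp, by simp⟩
    (fun x hx => hE x (List.mem_append_left _ hx))
  rw [List.append_nil] at h1
  -- the number of letters of A
  have hcount : (F ++ [e1, e2, e]).countP (fun o => decide (∃ a ∈ A, o = some a)) = 2 := by
    obtain ⟨a, b, hab, rfl⟩ := Finset.card_eq_two.mp hA2
    rw [countP_two a b hab, hall a (by simp), hall b (by simp)]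
  have hnot : ¬ ∃ a ∈ A, e = some a := fun ⟨a, ha, hea⟩ => he a ha hea
  have hsum : m.length + (if ∃ a ∈ A, e1 = some a then 1 else 0) + (if ∃ a ∈ A, e2 = some a then 1 else 0) = 2 := by
    rw [List.countP_append, List.countP_cons, List.countP_cons, List.countP_cons, List.countP_nil] at hcount
    simp only [decide_eq_true_eq] at hcount
    rw [if_neg hnot] at hcount
    rw [h3, List.length_nil]
    omega
  have hmem1 : ∀ x, e1 = some x → x ∉ A → ∀ a ∈ A, a < x := fun x hx => hE x (by simp [hx])
  have hmem2 : ∀ x, e2 = some x → x ∉ A → ∀ a ∈ A, a < x := fun x hx => hE x (by simp [hx])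
  have hcase1 : (∃ a ∈ A, e1 = some a) ∨ m ≠ [] := by
    by_cases hh : ∃ a ∈ A, e1 = some a
    · exact Or.inl hh
    · right
      rintro rfl
      rw [if_neg hh] at hsum
      split_ifs at hsum <;> simp at hsum
  obtain ⟨a1, ha1, c1, m1, g1, g2, g3⟩ := ev_step A hA c m e1 h2 hmem1 hcase1
  have hcase2 : (∃ a ∈ A, e2 = some a) ∨ m1 ≠ [] := by
    by_cases hh : ∃ a ∈ A, e2 = some a
    · exact Or.inl hh
    · right
      rintro rfl
      rw [if_neg hh] at hsum
      rw [List.length_nil] at g3
      omega
  obtain ⟨a2, ha2, c2, m2, k1, k2, k3⟩ := ev_step A hA c1 m1 e2 g2 hmem2 hcase2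
  have hemk : emk 3 (F ++ [e1, e2, e]) = [some a1, some a2, (ev (c2 ++ m2) e).2] := by
    rw [emk_eq 3 F [e1, e2, e] rfl, h1, em, g1, em, k1, em, em]
  have hlow : ∀ x, some x ∈ emk 3 (F ++ [e1, e2, e]) → ∀ a ∈ A, ¬ x < a := by
    intro x hx a ha hlt
    by_cases hxA : x ∈ A
    · exact hA x hxA a ha hlt
    · exact lt_asymm hlt (hE x (emk_mem hx) hxA a ha)
  unfold Bad
  rw [not_not, hemk]
  rw [hemk] at hlow
  rw [List.pairwise_cons, List.pairwise_cons]
  refine ⟨?_, ?_, List.pairwise_singleton _ _⟩
  · intro o ho x hx y hy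
    have hx' : x = a1 := by simpa using hx.symm
    have hy' : o = some y := hy
    rw [hx']
    refine hlow y ?_ a1 ha1
    rw [← hy']
    exact List.mem_cons_of_mem _ ho
  · intro o ho x hx y hy
    have hx' : x = a2 := by simpa using hx.symm
    have hy' : o = some y := hy
    rw [hx']
    refine hlow y ?_ a2 ha2
    rw [← hy']
    exact List.mem_cons_of_mem _ (List.mem_cons_of_mem _ ho)

end Pool.Agent.Work.MP_5db8eb_co.SP
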