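import Pool.Agent.Work.MP_5db8eb_co.SP.Defs

set_option autoImplicit false

/-!
# SP/FillB (size S-M)

Facts on `fill`.
PROOFS. All by induction on `τ` (cases on the first entry and on the word); `count true (true :: τ) = count true τ + 1`.
`fill_ins`: `τ1` is the part of `τ` before the place number `j` (counted from 0) with value `true`: induction on `τ` (for `τ = true :: τ'`: `j = 0`: `τ1 = []`; otherwise induction with `j - 1`;
for `τ = false :: τ'` induction with `j`).
-/

namespace Pool.Agent.Work.MP_5db8eb_co.SP

open Classical


theorem length_fill {β : Type*} (τ : List Bool) (s : List β) : (fill τ s).length = τ.length := by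
  induction τ generalizing s with
  | nil => simp [fill]
  | cons b τ ih =>
    cases b
    · simp [fill, ih]
    · cases s <;> simp [fill, ih]

private theorem fill_nil_w {β : Type*} (τ σ : List Bool) :
    fill (τ ++ σ) ([] : List β) = fill τ [] ++ fill σ [] := by
  induction τ with
  | nil => simp [fill]
  | cons b τ ih =>
    cases b <;> simp [fill, ih]

theorem fill_append {β : Type*} (τ σ : List Bool) (s : List β) :
    fill (τ ++ σ) s = fill τ s ++ fill σ (s.drop (τ.count true)) := by
  induction τ generalizing s with
  | nil => simp [fill]
  | cons b τ ih =>
    cases b
    · simp [fill, ih]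
    · cases s with
      | nil => simp [fill, fill_nil_w]
      | cons x s => simp [fill, ih]

/-- only the first letters are used -/
theorem fill_take {β : Type*} (τ : List Bool) (s : List β) : fill τ (s.take (τ.count true)) = fill τ s := by
  induction τ generalizing s with
  | nil => simp [fill]
  | cons b τ ih =>
    cases b
    · simp [fill, ih]
    · cases s with
      | nil => simp
      | cons x s => simp [fill, ih]

theorem fill_map {β γ : Type*} (f : β → γ) (τ : List Bool) (s : List β) :
    (fill τ s).map (Option.map f) = fill τ (s.map f) := by
  induction τ generalizing s with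
  | nil => simp [fill]
  | cons b τ ih =>
    cases b
    · simp [fill, ih]
    · cases s with
      | nil => simpa [fill] using ih []
      | cons x s => simp [fill, ih]

theorem fill_isSome {β : Type*} (τ : List Bool) (s : List β) (h : τ.count true ≤ s.length) :
    (fill τ s).map Option.isSome = τ := by
  induction τ generalizing s with
  | nil => simp [fill]
  | cons b τ ih =>
    cases b
    · simp only [fill, List.map_cons, Option.isSome_none]
      rw [ih s (by simpa using h)]
    · cases s with
      | nil => simp at h
      | cons x s =>
        simp only [fill, List.map_cons, Option.isSome_some]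
        rw [ih s (by simpa using h)]

theorem fill_reduce {β : Type*} (τ : List Bool) (s : List β) (h : τ.count true ≤ s.length) :
    (fill τ s).reduceOption = s.take (τ.count true) := by
  induction τ generalizing s with
  | nil => simp [fill, List.reduceOption]
  | cons b τ ih =>
    cases b
    · simp only [fill]
      rw [List.reduceOption_cons_of_none, ih s (by simpa using h)]
      simp
    · cases s with
      | nil => simp at h
      | cons x s =>
        simp only [fill]
        rw [List.reduceOption_cons_of_some, ih s (by simpa using h)]
        simp

theorem mem_fill {β : Type*} {τ : List Bool} {s : List β} {x : β} (h : some x ∈ fill τ s) : x ∈ s := by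
  induction τ generalizing s with
  | nil => simp [fill] at h
  | cons b τ ih =>
    cases b
    · simp only [fill, List.mem_cons, reduceCtorEq, false_or] at h
      exact ih h
    · cases s with
      | nil =>
        simp only [fill, List.mem_cons, reduceCtorEq, false_or] at h
        exact ih h
      | cons y s =>
        simp only [fill, List.mem_cons, Option.some.injEq] at h
        rcases h with h | h
        · simp [h]
        · exact List.mem_cons_of_mem _ (ih h)

theorem fill_replicate {β : Type*} (s : List β) : fill (List.replicate s.length true) s = s.map some := by
  induction s with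
  | nil => simp [fill]
  | cons x s ih => simp [fill, List.replicate_succ, ih]

/-- the place of one letter -/
theorem fill_ins {β : Type*} (τ : List Bool) (j : ℕ) (hj : j < τ.count true) :
    ∃ τ1 τ2, τ = τ1 ++ true :: τ2 ∧ τ1.count true = j ∧
      ∀ (s : List β) (z : β), s.length + 1 = τ.count true →
        fill τ (s.take j ++ z :: s.drop j) = fill τ1 (s.take j) ++ some z :: fill τ2 (s.drop j) ∧
          fill (τ1 ++ τ2) s = fill τ1 (s.take j) ++ fill τ2 (s.drop j) := by
  have key : ∃ τ1 τ2 : List Bool, τ = τ1 ++ true :: τ2 ∧ τ1.count true = j := by
    induction τ generalizing j with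
    | nil => simp at hj
    | cons b τ ih =>
      cases b
      · obtain ⟨τ1, τ2, h1, h2⟩ := ih j (by simpa using hj)
        exact ⟨false :: τ1, τ2, by simp [h1], by simp [h2]⟩
      · cases j with
        | zero => exact ⟨[], τ, by simp, by simp⟩
        | succ j =>
          obtain ⟨τ1, τ2, h1, h2⟩ := ih j (by simpa using hj)
          exact ⟨true :: τ1, τ2, by simp [h1], by simp [h2]⟩
  obtain ⟨τ1, τ2, h1, h2⟩ := key
  refine ⟨τ1, τ2, h1, h2, ?_⟩
  intro s z hs
  have hjs : j ≤ s.length := by omega
  have hlen : (s.take j).length = j := by simp [hjs]
  constructor
  · rw [h1, fill_append, h2]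
    congr 1
    · rw [← fill_take, h2, ← fill_take (s := s.take j), h2]
      congr 1
      rw [List.take_append_of_le_length (by omega)]
    · rw [List.drop_append_of_le_length (by omega)]
      rw [List.drop_eq_nil_of_le (by omega)]
      simp [fill]
  · rw [fill_append, h2]
    congr 1
    rw [← fill_take, h2]

end Pool.Agent.Work.MP_5db8eb_co.SP
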