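import Pool.Agent.Work.MP_5db8eb_co.SP.Defs

set_option autoImplicit false

/-!
# SP/Words (size S)

Lists with the letters of a finite set, each used once.
PROOF. `List.mem_toFinset`, `List.mem_permutations`, `List.perm_ext_iff_of_nodup`, `Finset.nodup_toList`; the number: `List.toFinset_card_of_nodup`,
`List.nodup_permutations`, `List.length_permutations`, `Finset.length_toList`.
`words_last`: the map `w ↦ w.dropLast` is injective on the words with last letter `a` and goes into `words (S.erase a)`.
-/

namespace Pool.Agent.Work.MP_5db8eb_co.SP

open Classical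


theorem mem_words {α : Type*} {S : Finset α} {w : List α} : w ∈ words S ↔ w.Nodup ∧ ∀ x, x ∈ w ↔ x ∈ S := by
  unfold words
  rw [List.mem_toFinset, List.mem_permutations]
  constructor
  · intro h
    exact ⟨h.nodup_iff.2 S.nodup_toList, fun x => h.mem_iff.trans Finset.mem_toList⟩
  · rintro ⟨h1, h2⟩
    exact (List.perm_ext_iff_of_nodup h1 S.nodup_toList).2
      fun x => (h2 x).trans Finset.mem_toList.symm

theorem card_words {α : Type*} (S : Finset α) : (words S).card = S.card.factorial := by
  unfold words
  rw [List.toFinset_card_of_nodup (List.nodup_permutations _ S.nodup_toList),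
    List.length_permutations, Finset.length_toList]

theorem length_words {α : Type*} {S : Finset α} {w : List α} (h : w ∈ words S) : w.length = S.card := by
  unfold words at h
  rw [List.mem_toFinset, List.mem_permutations] at h
  rw [h.length_eq, Finset.length_toList]

theorem words_singleton {α : Type*} (z : α) : words ({z} : Finset α) = {[z]} := by
  ext w
  unfold words
  rw [List.mem_toFinset, List.mem_permutations, Finset.toList_singleton, List.perm_singleton,
    Finset.mem_singleton]

/-- at most `(|S| - 1)!` words end with a given letter -/
theorem words_last {α : Type*} (S : Finset α) (a : α) :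
    ((words S).filter fun w => ∃ u, w = u ++ [a]).card ≤ (S.card - 1).factorial := by
  by_cases ha : a ∈ S
  · rw [← Finset.card_erase_of_mem ha, ← card_words]
    refine Finset.card_le_card_of_injOn (fun w => w.dropLast) ?_ ?_
    · intro w hw
      rw [Finset.mem_coe, Finset.mem_filter] at hw
      obtain ⟨hw, u, rfl⟩ := hw
      rw [mem_words] at hw
      rw [Finset.mem_coe, mem_words]
      have h1 : (u ++ [a]).dropLast = u := List.dropLast_concat
      change (u ++ [a]).dropLast.Nodup ∧ ∀ x, x ∈ (u ++ [a]).dropLast ↔ x ∈ S.erase a
      rw [h1]
      have h2 := List.nodup_append.1 hw.1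
      refine ⟨h2.1, fun x => ?_⟩
      rw [Finset.mem_erase, ← hw.2 x, List.mem_append, List.mem_singleton]
      constructor
      · intro hx
        exact ⟨h2.2.2 x hx a (List.mem_singleton.2 rfl), Or.inl hx⟩
      · rintro ⟨h3, h4⟩
        exact h4.resolve_right h3
    · intro w hw w' hw' h
      rw [Finset.mem_coe, Finset.mem_filter] at hw hw'
      obtain ⟨_, u, rfl⟩ := hw
      obtain ⟨_, u', rfl⟩ := hw'
      change (u ++ [a]).dropLast = (u' ++ [a]).dropLast at h
      rw [List.dropLast_concat, List.dropLast_concat] at h
      rw [h]
  · have h0 : (words S).filter (fun w => ∃ u, w = u ++ [a]) = ∅ := by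
      rw [Finset.filter_eq_empty_iff]
      rintro w hw ⟨u, rfl⟩
      rw [mem_words] at hw
      exact ha ((hw.2 a).1 (by simp))
    rw [h0, Finset.card_empty]
    exact Nat.zero_le _

end Pool.Agent.Work.MP_5db8eb_co.SP
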