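import Pool.Agent.Work.MP_5db8eb_co.SP.AntE
import Pool.Agent.Work.MP_5db8eb_co.SP.Words
import Pool.Agent.Work.MP_5db8eb_co.SP.FillB

set_option autoImplicit false

/-!
# SP/Anti (size S-M)

`H3` for two incomparable elements below all the others.
PROOF. `N = |R| + 2`, pattern `τ ++ [x, y]`, for `w ∈ words (A ∪ R)` the events are `fill (τ ++ [x, y]) w = E ++ [e]` (every letter occurs once: `fill_reduce`). If `y = false` the last event is a top: `cnt = 0` by `emk_anti`. If `y = true` a bad word ends with a letter of `A` (`emk_anti`): at most
`2 (N-1)!` words (`words_last`, two letters); `2 (N-1)! ≤ (3N-4)(N-2)!`.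
-/

namespace Pool.Agent.Work.MP_5db8eb_co.SP

open Classical

variable {α : Type*} [PartialOrder α]

omit [PartialOrder α] in
private theorem count_some (L : List (Option α)) (a : α) : L.count (some a) = L.reduceOption.count a := by
  induction L with
  | nil => simp [List.reduceOption]
  | cons o L ih =>
    cases o with
    | none => rw [List.reduceOption_cons_of_none, List.count_cons_of_ne (by simp), ih]
    | some x =>
      rw [List.reduceOption_cons_of_some, List.count_cons, List.count_cons, ih]
      simp

theorem anti3 (A R : Finset α) (hA : ∀ a ∈ A, ∀ b ∈ A, ¬ a < b) (hA2 : A.card = 2) (hd : Disjoint A R)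
    (hlt : ∀ x ∈ A, ∀ y ∈ R, x < y) (hne : R.Nonempty) : H3 (A ∪ R) := by
  intro hN τ x y hτ
  set S := A ∪ R with hS
  set N := S.card with hNdef
  have hsplit : τ ++ [x, y] = (τ ++ [x]) ++ [y] := by simp
  -- a bad word: the last event is in `A`
  have key : ∀ w ∈ words S, Bad (emk 3 (fill (τ ++ [x, y]) w)) →
      ∃ a ∈ A, fill [y] (w.drop ((τ ++ [x]).count true)) = [some a] := by
    intro w hw hbad
    by_contra hcon
    obtain ⟨hnd, hmem⟩ := mem_words.mp hw
    have hwl := length_words hw
    obtain ⟨e, he⟩ : ∃ e, fill [y] (w.drop ((τ ++ [x]).count true)) = [e] := by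
      have hl := length_fill [y] (w.drop ((τ ++ [x]).count true))
      exact List.length_eq_one_iff.mp hl
    have hE : fill (τ ++ [x, y]) w = fill (τ ++ [x]) w ++ [e] := by
      rw [hsplit, fill_append, he]
    rw [hE] at hbad
    refine emk_anti A hA hA2 (fill (τ ++ [x]) w) e ?_ ?_ ?_ ?_ hbad
    · rw [length_fill]
      have h1 := List.count_le_length (a := true) (l := τ ++ [x, y])
      simp only [List.length_append, List.length_cons, List.length_nil] at h1 ⊢
      omega
    · intro z hz hzA a ha
      rw [← hE] at hz
      have hzS := (hmem z).mp (mem_fill hz)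
      rw [hS, Finset.mem_union] at hzS
      exact hlt a ha z (hzS.resolve_left hzA)
    · intro a ha
      rw [← hE, count_some, fill_reduce _ _ (by omega), List.take_of_length_le (by omega)]
      apply List.count_eq_one_of_mem hnd
      rw [hmem, hS]
      exact Finset.mem_union_left _ ha
    · intro a ha hea
      apply hcon
      refine ⟨a, ha, ?_⟩
      rw [he, hea]
  cases y with
  | false =>
    have h0 : cnt 3 S (τ ++ [x, false]) = 0 := by
      unfold cnt
      rw [Finset.card_eq_zero, Finset.filter_eq_empty_iff]
      intro w hw hbad
      obtain ⟨a, _, h⟩ := key w hw hbad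
      rw [fill, fill] at h
      simp at h
    rw [h0]
    exact Nat.zero_le _
  | true =>
    have hcount : (τ ++ [x]).count true + 1 = N := by
      rw [← hτ, hsplit, List.count_append (l₂ := [true])]
      simp
    have hle : cnt 3 S (τ ++ [x, true]) ≤ 2 * (N - 1).factorial := by
      unfold cnt
      have hsub : ((words S).filter fun s => Bad (emk 3 (fill (τ ++ [x, true]) s))) ⊆
          A.biUnion fun a => (words S).filter fun w => ∃ u, w = u ++ [a] := by
        intro w hw
        rw [Finset.mem_filter] at hw
        obtain ⟨a, ha, h⟩ := key w hw.1 hw.2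
        have hwl := length_words hw.1
        rw [Finset.mem_biUnion]
        refine ⟨a, ha, ?_⟩
        rw [Finset.mem_filter]
        refine ⟨hw.1, w.take ((τ ++ [x]).count true), ?_⟩
        have hl1 : (w.drop ((τ ++ [x]).count true)).length = 1 := by
          rw [List.length_drop]
          omega
        obtain ⟨b, hb⟩ := List.length_eq_one_iff.mp hl1
        rw [hb, fill, fill] at h
        have hab : b = a := by simpa using h
        rw [← hab, ← hb, List.take_append_drop]
      refine (Finset.card_le_card hsub).trans (Finset.card_biUnion_le.trans ?_)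
      refine (Finset.sum_le_sum fun a _ => words_last S a).trans ?_
      rw [Finset.sum_const, hA2, smul_eq_mul]
    refine hle.trans ?_
    cases x with
    | false => simp [bd3]
    | true =>
      simp only [bd3, if_true]
      obtain ⟨M, hM⟩ : ∃ M, N = M + 2 := ⟨N - 2, by omega⟩
      rw [hM]
      have e1 : M + 2 - 1 = M + 1 := by omega
      have e2 : M + 2 - 2 = M := by omega
      rw [e1, e2, Nat.factorial_succ, ← mul_assoc]
      exact Nat.mul_le_mul_right _ (by omega)

end Pool.Agent.Work.MP_5db8eb_co.SP
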