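import Pool.Agent.Work.MP_5db8eb_co.SP.Defs

set_option autoImplicit false

/-!
# SP/Cols (size M)

Lists of `a` times `true` and `b` times `false`.
PROOF. `mem_cols`: `List.perm_iff_count` (two values), `List.mem_permutations`. `card_cols`: induction on `a + b` with Pascal: for `a, b ≥ 1` the set is the disjoint union of the images of
`cols (a-1) b` and `cols a (b-1)` under `(true :: ·)`, `(false :: ·)` (use `mem_cols` and `Finset.ext`); for `a = 0` or `b = 0` there is one list (`List.replicate`).
`card_cols_suffix`: `χ = χ' ++ l` iff `l <:+ χ`; the map `χ' ↦ χ' ++ l` is a bijection of `cols (a - l.count true) (b - l.count false)` onto the set if the counts of `l` are small enough,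
otherwise the set is empty (`List.count_append`). Note `l.count true + l.count false = l.length`.
-/

namespace Pool.Agent.Work.MP_5db8eb_co.SP

open Classical


theorem mem_cols {a b : ℕ} {χ : List Bool} : χ ∈ cols a b ↔ χ.count true = a ∧ χ.count false = b := by
  unfold cols
  rw [List.mem_toFinset, List.mem_permutations, List.perm_iff_count]
  constructor
  · intro h
    refine ⟨?_, ?_⟩
    · rw [h true]
      simp [List.count_append, List.count_replicate]
    · rw [h false]
      simp [List.count_append, List.count_replicate]
  · rintro ⟨h1, h2⟩ c
    cases c
    · rw [h2]
      simp [List.count_append, List.count_replicate]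
    · rw [h1]
      simp [List.count_append, List.count_replicate]

private theorem cols_zero_left (b : ℕ) : cols 0 b = {List.replicate b false} := by
  ext χ
  rw [mem_cols, Finset.mem_singleton, List.eq_replicate_iff]
  constructor
  · rintro ⟨h1, h2⟩
    have hall : ∀ c ∈ χ, c = false := by
      intro c hc
      cases c
      · rfl
      · exact absurd hc (List.count_eq_zero.mp h1)
    refine ⟨?_, hall⟩
    rw [← h2]
    exact (List.count_eq_length.mpr (fun c hc => (hall c hc).symm)).symm
  · rintro ⟨h1, h2⟩
    refine ⟨?_, ?_⟩
    · rw [List.count_eq_zero]
      intro h
      exact absurd (h2 true h) (by simp)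
    · rw [← h1]
      exact List.count_eq_length.mpr (fun c hc => (h2 c hc).symm)

private theorem cols_zero_right (a : ℕ) : cols a 0 = {List.replicate a true} := by
  ext χ
  rw [mem_cols, Finset.mem_singleton, List.eq_replicate_iff]
  constructor
  · rintro ⟨h1, h2⟩
    have hall : ∀ c ∈ χ, c = true := by
      intro c hc
      cases c
      · exact absurd hc (List.count_eq_zero.mp h2)
      · rfl
    refine ⟨?_, hall⟩
    rw [← h1]
    exact (List.count_eq_length.mpr (fun c hc => (hall c hc).symm)).symm
  · rintro ⟨h1, h2⟩
    refine ⟨?_, ?_⟩
    · rw [← h1]
      exact List.count_eq_length.mpr (fun c hc => (h2 c hc).symm)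
    · rw [List.count_eq_zero]
      intro h
      exact absurd (h2 false h) (by simp)

theorem card_cols (a b : ℕ) : (cols a b).card = (a + b).choose a := by
  induction b generalizing a with
  | zero => simp [cols_zero_right]
  | succ b ihb =>
    induction a with
    | zero => simp [cols_zero_left]
    | succ a iha =>
      have hset : cols (a + 1) (b + 1) =
          (cols a (b + 1)).image (fun l => true :: l) ∪ (cols (a + 1) b).image (fun l => false :: l) := by
        ext χ
        rw [mem_cols, Finset.mem_union, Finset.mem_image, Finset.mem_image]
        constructor
        · rintro ⟨h1, h2⟩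
          cases χ with
          | nil => simp at h1
          | cons c χ =>
            cases c
            · right
              refine ⟨χ, ?_, rfl⟩
              rw [mem_cols]
              simp at h1 h2
              exact ⟨h1, h2⟩
            · left
              refine ⟨χ, ?_, rfl⟩
              rw [mem_cols]
              simp at h1 h2
              exact ⟨h1, h2⟩
        · rintro (⟨l, hl, rfl⟩ | ⟨l, hl, rfl⟩)
          · rw [mem_cols] at hl
            simp [hl.1, hl.2]
          · rw [mem_cols] at hl
            simp [hl.1, hl.2]
      rw [hset, Finset.card_union_of_disjoint, Finset.card_image_of_injective, Finset.card_image_of_injective,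
        iha, ihb (a + 1)]
      · have h1 : a + 1 + (b + 1) = (a + (b + 1)) + 1 := by ring
        have h2 : a + 1 + b = a + (b + 1) := by ring
        rw [h1, Nat.choose_succ_succ, h2]
      · intro l l' h
        simpa using h
      · intro l l' h
        simpa using h
      · rw [Finset.disjoint_left]
        intro χ h1 h2
        rw [Finset.mem_image] at h1 h2
        obtain ⟨l, _, rfl⟩ := h1
        obtain ⟨l', _, h⟩ := h2
        simp at h

theorem card_cols_suffix (a b : ℕ) (l : List Bool) :
    ((cols a b).filter fun χ => l <:+ χ).card =
      if l.count true ≤ a ∧ l.count false ≤ b then (a + b - l.length).choose (a - l.count true) else 0 := by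
  have hlen : l.count true + l.count false = l.length := by
    clear a b
    induction l with
    | nil => simp
    | cons c l ih =>
      cases c
      · simp
        omega
      · simp
        omega
  split_ifs with h
  · have hset : ((cols a b).filter fun χ => l <:+ χ) =
        (cols (a - l.count true) (b - l.count false)).image (fun m => m ++ l) := by
      ext χ
      rw [Finset.mem_filter, mem_cols, Finset.mem_image]
      constructor
      · rintro ⟨⟨h1, h2⟩, m, rfl⟩
        refine ⟨m, ?_, rfl⟩
        rw [mem_cols]
        rw [List.count_append] at h1 h2
        omega
      · rintro ⟨m, hm, rfl⟩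
        rw [mem_cols] at hm
        rw [List.count_append, List.count_append]
        refine ⟨⟨by omega, by omega⟩, m, rfl⟩
    rw [hset, Finset.card_image_of_injective, card_cols]
    · have h3 : a - l.count true + (b - l.count false) = a + b - l.length := by omega
      rw [h3]
    · intro m m' hmm
      simpa using hmm
  · rw [Finset.card_eq_zero, Finset.filter_eq_empty_iff]
    rintro χ hχ ⟨m, rfl⟩
    rw [mem_cols, List.count_append, List.count_append] at hχ
    apply h
    omega

end Pool.Agent.Work.MP_5db8eb_co.SP
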