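import Pool.Agent.Work.MP_5db8eb_co.SP.Defs

set_option autoImplicit false

/-!
# SP/Dec (size M-L)

Decomposition of a set in which every `N` has a common lower bound.
PROOF. `M` = the minimal elements of `S`; for `x ∈ S` let `D x = {z ∈ M | z ≤ x}`, nonempty (`Finset.exists_minimal`-type). (0) If `D x`, `D y` have a common element `b`, then one contains the other: otherwise `a ∈ D x \ D y`,
`a' ∈ D y \ D x`. `x`, `y` are not comparable (if `x ≤ y` then `D x ⊆ D y`), `a ≠ x` (`a = x` would give `D x = {a}`, `b = a ∈ D y`), so `a < x`; in the same way `b < x`, `b < y` (if `b = x` then `D x = {b} ⊆ D y`). `a`, `b` are different minimal elements,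
`¬ a < y` since `a ∉ D y`. So `a, b, x, y` (`a < x`, `b < x`, `b < y`) is an `N`; a common lower bound of `a`, `b` would be smaller than a minimal element: contradiction.
If `|M| = 1`: second alternative (`z` the minimal element, below all others). Let `|M| ≥ 2`, `R = {x ∈ S | D x = M}`, `L = S \ R` (`M ⊆ L` as `D z = {z}` for `z ∈ M`, so `|L| ≥ 2`).
(1) `R ≠ ∅`: third alternative. Let `x ∈ L`, `y ∈ R`, suppose `¬ x < y`. `D x ≠ M`, so `x ≠ y` and not `y < x`. Choose `a ∈ M \ D x`, `b ∈ D x`. `a < y`, `b < y` (elements of `D y = M`, not equal to `y` because `y ∈ M` would give `D y = {y} = M`).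
`b ≤ x`, `b ≠ x` (otherwise `x = b < y`). So `a, b, y, x` is an `N` (`a < y`, `b < y`, `b < x`, `¬ a < x` because `a ∉ D x`), contradiction as before. If `|L| = 2` then `L = M`, not comparable.
(2) `R = ∅`: first alternative. Choose `x0` with `|D x0|` maximal, `S1 = {x ∈ S | D x ∩ D x0 ≠ ∅}`, `S2` = the rest. By (0) and maximality `D x ⊆ D x0` for `x ∈ S1`. `S2 ≠ ∅`: `D x0 ≠ M`, a `z ∈ M \ D x0` has `D z = {z}`. No relations: `x ∈ S1`, `y ∈ S2`: if `x < y` then
`D x ⊆ D y`, so `D y` meets `D x0`; if `y < x` then `D y ⊆ D x ⊆ D x0`, `D y ≠ ∅`: contradictions.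
-/

namespace Pool.Agent.Work.MP_5db8eb_co.SP

open Classical

variable {α : Type*} [PartialOrder α]

private noncomputable def mins (S : Finset α) : Finset α := S.filter fun z => ∀ x ∈ S, ¬ x < z

private noncomputable def dn (S : Finset α) (x : α) : Finset α := (mins S).filter fun z => z ≤ x

private theorem mem_mins {S : Finset α} {z : α} : z ∈ mins S ↔ z ∈ S ∧ ∀ x ∈ S, ¬ x < z := by
  unfold mins
  rw [Finset.mem_filter]

private theorem mem_dn {S : Finset α} {x z : α} : z ∈ dn S x ↔ z ∈ mins S ∧ z ≤ x := by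
  unfold dn
  rw [Finset.mem_filter]

private theorem dn_sub (S : Finset α) (x : α) : dn S x ⊆ mins S := fun _ hz => (mem_dn.1 hz).1

private theorem dn_ne {S : Finset α} {x : α} (hx : x ∈ S) : (dn S x).Nonempty := by
  obtain ⟨b, hb, hm⟩ := Finset.exists_le_minimal S hx
  refine ⟨b, mem_dn.2 ⟨mem_mins.2 ⟨hm.1, fun y hy hyb => ?_⟩, hb⟩⟩
  exact absurd (hm.2 hy hyb.le) (not_le_of_gt hyb)

private theorem dn_mono {S : Finset α} {x y : α} (h : x ≤ y) : dn S x ⊆ dn S y := fun _ hz =>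
  mem_dn.2 ⟨(mem_dn.1 hz).1, (mem_dn.1 hz).2.trans h⟩

private theorem dn_self {S : Finset α} {z : α} (hz : z ∈ mins S) : dn S z = {z} := by
  ext w
  rw [Finset.mem_singleton, mem_dn]
  constructor
  · rintro ⟨h1, h2⟩
    rcases h2.eq_or_lt with h3 | h3
    · exact h3
    · exact absurd h3 ((mem_mins.1 hz).2 w (mem_mins.1 h1).1)
  · intro h1
    rw [h1]
    exact ⟨hz, le_rfl⟩

private theorem no_n {S : Finset α} (h : NB 1 S) {a b c d : α} (ha : a ∈ mins S) (hb : b ∈ mins S) (hc : c ∈ S)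
    (hd : d ∈ S) (hab : a ≠ b) (h1 : a < c) (h2 : b < c) (h3 : b < d) (h4 : ¬ a < d) (h5 : c ≠ d) (h6 : ¬ c < d)
    (h7 : ¬ d < c) : False := by
  have ha' := mem_mins.1 ha
  have hb' := mem_mins.1 hb
  have h8 := h a ha'.1 b hb'.1 c hc d hd h1 h2 h3 (hb'.2 a ha'.1) (ha'.2 b hb'.1) hab h6 h7 h5 h4
  obtain ⟨z, hz⟩ := Finset.card_pos.1 (lt_of_lt_of_le Nat.zero_lt_one h8)
  rw [Finset.mem_filter] at hz
  exact ha'.2 z hz.1 hz.2.1

private theorem dn_tot {S : Finset α} (h : NB 1 S) {x y b : α} (hx : x ∈ S) (hy : y ∈ S) (h1 : b ∈ dn S x)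
    (h2 : b ∈ dn S y) : dn S x ⊆ dn S y ∨ dn S y ⊆ dn S x := by
  by_contra hcon
  push Not at hcon
  obtain ⟨a, ha, ha'⟩ := Finset.not_subset.1 hcon.1
  obtain ⟨a₁, ha₁, ha₁'⟩ := Finset.not_subset.1 hcon.2
  have hb := (mem_dn.1 h1).1
  have hab : a ≠ b := fun h3 => ha' (by rw [h3]; exact h2)
  have e1 : a < x := by
    refine lt_of_le_of_ne (mem_dn.1 ha).2 fun h3 => ?_
    rw [h3] at ha
    have h4 := dn_self (mem_dn.1 ha).1
    rw [h4, Finset.mem_singleton] at h1
    exact hab (by rw [h3, h1])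
  have e2 : b < x := by
    refine lt_of_le_of_ne (mem_dn.1 h1).2 fun h3 => ?_
    have h4 := dn_self hb
    rw [← h3, h4, Finset.mem_singleton] at ha
    exact hab ha
  have e3 : b < y := by
    refine lt_of_le_of_ne (mem_dn.1 h2).2 fun h3 => ?_
    have h4 := dn_self hb
    rw [← h3, h4, Finset.mem_singleton] at ha₁
    exact ha₁' (by rw [ha₁]; exact h1)
  refine no_n h (mem_dn.1 ha).1 hb hx hy hab e1 e2 e3 ?_ ?_ ?_ ?_
  · intro h3
    exact ha' (mem_dn.2 ⟨(mem_dn.1 ha).1, h3.le⟩)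
  · intro h3
    exact hcon.1 (by rw [h3])
  · intro h3
    exact hcon.1 (dn_mono h3.le)
  · intro h3
    exact hcon.2 (dn_mono h3.le)

theorem dec (S : Finset α) (hS : S.Nonempty) (h : NB 1 S) :
    (∃ S1 S2 : Finset α, S1.Nonempty ∧ S2.Nonempty ∧ Disjoint S1 S2 ∧ S1 ∪ S2 = S ∧
      ∀ x ∈ S1, ∀ y ∈ S2, ¬ x < y ∧ ¬ y < x) ∨
    (∃ z ∈ S, ∀ x ∈ S, x ≠ z → z < x) ∨
    (∃ L R : Finset α, 2 ≤ L.card ∧ R.Nonempty ∧ Disjoint L R ∧ L ∪ R = S ∧ (∀ x ∈ L, ∀ y ∈ R, x < y) ∧
      (L.card = 2 → ∀ x ∈ L, ∀ y ∈ L, ¬ x < y)) := by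
  by_cases hM1 : (mins S).card ≤ 1
  · right
    left
    obtain ⟨x, hx⟩ := hS
    obtain ⟨z, hz⟩ := dn_ne hx
    have hzM := (mem_dn.1 hz).1
    refine ⟨z, (mem_mins.1 hzM).1, fun y hy hyz => ?_⟩
    obtain ⟨w, hw⟩ := dn_ne hy
    have hwz : w = z := Finset.card_le_one.1 hM1 w (mem_dn.1 hw).1 z hzM
    rw [hwz] at hw
    exact lt_of_le_of_ne (mem_dn.1 hw).2 hyz.symm
  · push Not at hM1
    have hne1 : ∀ z ∈ mins S, dn S z ≠ mins S := by
      intro z hz h1
      rw [← h1, dn_self hz, Finset.card_singleton] at hM1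
      exact lt_irrefl _ hM1
    have hML : mins S ⊆ S.filter fun x => dn S x ≠ mins S := fun z hz =>
      Finset.mem_filter.2 ⟨(mem_mins.1 hz).1, hne1 z hz⟩
    by_cases hR : (S.filter fun x => dn S x = mins S).Nonempty
    · right
      right
      refine ⟨S.filter fun x => dn S x ≠ mins S, S.filter fun x => dn S x = mins S, ?_, hR, ?_, ?_, ?_, ?_⟩
      · exact hM1.trans_le (Finset.card_le_card hML)
      · rw [Finset.disjoint_left]
        intro x h1 h2
        exact (Finset.mem_filter.1 h1).2 (Finset.mem_filter.1 h2).2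
      · ext x
        rw [Finset.mem_union, Finset.mem_filter, Finset.mem_filter]
        tauto
      · intro x hx y hy
        rw [Finset.mem_filter] at hx hy
        by_contra hxy
        obtain ⟨b, hb⟩ := dn_ne hx.1
        obtain ⟨a, ha, ha'⟩ : ∃ a ∈ mins S, a ∉ dn S x := by
          by_contra hcon
          push Not at hcon
          exact hx.2 (Finset.Subset.antisymm (dn_sub S x) hcon)
        have hlt : ∀ c ∈ mins S, c < y := by
          intro c hc
          have h1 : c ∈ dn S y := by rw [hy.2]; exact hc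
          refine lt_of_le_of_ne (mem_dn.1 h1).2 fun h2 => ?_
          rw [h2] at hc
          exact hne1 y hc hy.2
        have hbM := (mem_dn.1 hb).1
        refine no_n h ha hbM hy.1 hx.1 (fun h1 => ha' (by rw [h1]; exact hb)) (hlt a ha) (hlt b hbM) ?_ ?_ ?_ ?_ ?_
        · refine lt_of_le_of_ne (mem_dn.1 hb).2 fun h1 => ?_
          exact hxy (by rw [← h1]; exact hlt b hbM)
        · intro h1
          exact ha' (mem_dn.2 ⟨ha, h1.le⟩)
        · intro h1
          exact hx.2 (by rw [← h1]; exact hy.2)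
        · intro h1
          apply hx.2
          refine Finset.Subset.antisymm (dn_sub S x) ?_
          rw [← hy.2]
          exact dn_mono h1.le
        · exact hxy
      · intro h2 x hx y hy
        have h3 : mins S = S.filter fun x => dn S x ≠ mins S :=
          Finset.eq_of_subset_of_card_le hML (by rw [h2]; exact hM1)
        rw [← h3] at hx hy
        exact (mem_mins.1 hy).2 x (mem_mins.1 hx).1
    · left
      have hR' : ∀ x ∈ S, dn S x ≠ mins S := by
        intro x hx h1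
        exact hR ⟨x, Finset.mem_filter.2 ⟨hx, h1⟩⟩
      obtain ⟨x₀, hx₀, hmax⟩ := Finset.exists_max_image S (fun x => (dn S x).card) hS
      have hsub : ∀ x ∈ S, ∀ b, b ∈ dn S x → b ∈ dn S x₀ → dn S x ⊆ dn S x₀ := by
        intro x hx b h1 h2
        rcases dn_tot h hx hx₀ h1 h2 with h3 | h3
        · exact h3
        · rw [Finset.eq_of_subset_of_card_le h3 (hmax x hx)]
      refine ⟨S.filter fun x => ∃ b, b ∈ dn S x ∧ b ∈ dn S x₀, S.filter fun x => ¬ ∃ b, b ∈ dn S x ∧ b ∈ dn S x₀,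
        ?_, ?_, ?_, ?_, ?_⟩
      · obtain ⟨b, hb⟩ := dn_ne hx₀
        exact ⟨x₀, Finset.mem_filter.2 ⟨hx₀, b, hb, hb⟩⟩
      · obtain ⟨z, hz, hz'⟩ : ∃ a ∈ mins S, a ∉ dn S x₀ := by
          by_contra hcon
          push Not at hcon
          exact hR' x₀ hx₀ (Finset.Subset.antisymm (dn_sub S x₀) hcon)
        refine ⟨z, Finset.mem_filter.2 ⟨(mem_mins.1 hz).1, ?_⟩⟩
        rintro ⟨b, hb, hb'⟩
        rw [dn_self hz, Finset.mem_singleton] at hb
        rw [hb] at hb'
        exact hz' hb'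
      · rw [Finset.disjoint_left]
        intro x h1 h2
        exact (Finset.mem_filter.1 h2).2 (Finset.mem_filter.1 h1).2
      · ext x
        rw [Finset.mem_union, Finset.mem_filter, Finset.mem_filter]
        constructor
        · rintro (h1 | h1)
          · exact h1.1
          · exact h1.1
        · intro h1
          by_cases h2 : ∃ b, b ∈ dn S x ∧ b ∈ dn S x₀
          · exact Or.inl ⟨h1, h2⟩
          · exact Or.inr ⟨h1, h2⟩
      · intro x hx y hy
        rw [Finset.mem_filter] at hx hy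
        obtain ⟨hxS, b, hb, hb'⟩ := hx
        constructor
        · intro hxy
          exact hy.2 ⟨b, dn_mono hxy.le hb, hb'⟩
        · intro hyx
          obtain ⟨w, hw⟩ := dn_ne hy.1
          exact hy.2 ⟨w, hw, hsub x hxS b hb hb' (dn_mono hyx.le hw)⟩

end Pool.Agent.Work.MP_5db8eb_co.SP
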