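import Mathlib

set_option autoImplicit false

/-!
# SP/Defs (fixed file): promotion, and the column form of iterated promotion

A word is a list of letters (elements of a poset). A letter `x` passes a list of cells from left to right; whenever the content
`h` of a cell is smaller than the letter which passes, the letter is put into the cell and `h` passes on.
An event is a letter (`some x`) or a top (`none`: a letter which is above everything and is not recorded).
-/

namespace Pool.Agent.Work.MP_5db8eb_co.SP

open Classical

/-! ## labelings and extended promotion, as in the problem -/

section promotion

variable {P : Type*} [PartialOrder P] [Fintype P]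

/-- a labeling with the labels `1, …, n` -/
def IsLabeling (L : P → ℕ) : Prop := Set.BijOn L Set.univ (Set.Icc 1 (Fintype.card P))

/-- `y` is the `L`-successor of `x`: the element with the smallest label among the elements above `x` -/
def IsSucc (L : P → ℕ) (x y : P) : Prop := x < y ∧ ∀ z, x < z → L y ≤ L z

/-- the elements of the promotion chain -/
inductive OnChain (L : P → ℕ) : P → Prop
  | start (v : P) : L v = 1 → OnChain L v
  | next (v w : P) : OnChain L v → IsSucc L v w → OnChain L w

/-- extended promotion -/
noncomputable def promo (L : P → ℕ) : P → ℕ := fun x =>
  if OnChain L x then
    (if h : ∃ y, IsSucc L x y then L h.choose - 1 else Fintype.card P)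
  else L x - 1

/-- `L` is a linear extension (natural labeling) -/
def IsLinExt (L : P → ℕ) : Prop := ∀ x y : P, x < y → L x < L y

end promotion

/-! ## the column form -/

section column

variable {α : Type*} [PartialOrder α]

/-- the letter `x` passes the cells: new contents and the letter which comes out -/
noncomputable def pass : α → List α → List α × α
  | x, [] => ([], x)
  | x, h :: c => if h < x then (x :: (pass h c).1, (pass h c).2) else (h :: (pass x c).1, (pass x c).2)

/-- one event: new contents of the cells and the letter which comes out -/
noncomputable def ev (c : List α) : Option α → List α × Option α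
  | some x => ((pass x c).1, some (pass x c).2)
  | none => match c with
    | [] => ([], none)
    | h :: c' => ((pass h c').1, some (pass h c').2)

/-- the letter which comes out is put into a new cell at the end -/
noncomputable def app (c : List α) (e : Option α) : List α := (ev c e).1 ++ (ev c e).2.toList

/-- the contents of the cells after the events `E` (a new cell at each event) -/
noncomputable def st (c : List α) (E : List (Option α)) : List α := E.foldl app c

/-- the letters which come out when no new cells are used -/
noncomputable def em (c : List α) : List (Option α) → List (Option α)
  | [] => []
  | e :: E => (ev c e).2 :: em (ev c e).1 E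

/-- the last `k` events use no new cells: the letters which come out at these `k` events -/
noncomputable def emk (k : ℕ) (E : List (Option α)) : List (Option α) :=
  em (st [] (E.take (E.length - k))) (E.drop (E.length - k))

/-- the letters which came out are not in a natural order -/
def Bad (l : List (Option α)) : Prop := ¬ l.Pairwise (fun a b => ∀ x ∈ a, ∀ y ∈ b, ¬ y < x)

end column

/-- put the letters of a word into the places `true` of a pattern; the places `false` are tops -/
def fill {β : Type*} : List Bool → List β → List (Option β)
  | [], _ => []
  | true :: τ, x :: s => some x :: fill τ s
  | true :: τ, [] => none :: fill τ []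
  | false :: τ, s => none :: fill τ s

/-- mix two words according to a list of colours -/
def mix {β : Type*} : List Bool → List β → List β → List β
  | true :: χ, x :: s, t => x :: mix χ s t
  | false :: χ, s, y :: t => y :: mix χ s t
  | _, _, _ => []

/-- the words with the letters `S`, each used once -/
noncomputable def words {α : Type*} (S : Finset α) : Finset (List α) := S.toList.permutations.toFinset

/-- the lists of `a` times `true` and `b` times `false` -/
def cols (a b : ℕ) : Finset (List Bool) :=
  (List.replicate a true ++ List.replicate b false).permutations.toFinset

section counts

variable {α : Type*} [PartialOrder α]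

/-- number of words with the letters `S` for which the last `k` letters come out in a bad order, the tops
are at the places given by the pattern -/
noncomputable def cnt (k : ℕ) (S : Finset α) (τ : List Bool) : ℕ :=
  ((words S).filter fun s => Bad (emk k (fill τ s))).card

/-- the bounds; `x`, `y`: the last two places of the pattern -/
def bd2 (N : ℕ) (x : Bool) : ℕ := if x then (N - 1).factorial else 0

def bd3 (N : ℕ) (x y : Bool) : ℕ :=
  if y then (if x then (3 * N - 4) * (N - 2).factorial else 2 * (N - 1).factorial)
  else (if x then (N - 1).factorial else 0)

def H2 (S : Finset α) : Prop :=
  2 ≤ S.card → ∀ (τ : List Bool) (x : Bool), (τ ++ [x]).count true = S.card → cnt 2 S (τ ++ [x]) ≤ bd2 S.card x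

def H3 (S : Finset α) : Prop :=
  3 ≤ S.card → ∀ (τ : List Bool) (x y : Bool), (τ ++ [x, y]).count true = S.card →
    cnt 3 S (τ ++ [x, y]) ≤ bd3 S.card x y

/-- every `N` (`a < c`, `b < c`, `b < d`, no other relations) in `S` has at least `k` common lower bounds in `S` -/
def NB (k : ℕ) (S : Finset α) : Prop :=
  ∀ a ∈ S, ∀ b ∈ S, ∀ c ∈ S, ∀ d ∈ S, a < c → b < c → b < d → ¬ a < b → ¬ b < a → a ≠ b →
    ¬ c < d → ¬ d < c → c ≠ d → ¬ a < d → k ≤ (S.filter fun z => z < a ∧ z < b).card

end counts

/-! ## colours -/

/-- one event for the queue of colours -/
def cev (q : List Bool) : Option Bool → List Bool × Option Bool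
  | some b => (q, some b)
  | none => match q with
    | [] => ([], none)
    | b :: q' => (q', some b)

def capp (q : List Bool) (e : Option Bool) : List Bool := (cev q e).1 ++ (cev q e).2.toList

def cst (q : List Bool) (E : List (Option Bool)) : List Bool := E.foldl capp q

def cem (q : List Bool) : List (Option Bool) → List (Option Bool)
  | [] => []
  | e :: E => (cev q e).2 :: cem (cev q e).1 E

/-- the pattern seen by the letters of colour `i` (a new cell at each event) -/
def patA (i : Bool) (q : List Bool) : List (Option Bool) → List Bool
  | [] => []
  | e :: E => (if (cev q e).2 = some i then [e.isSome] else []) ++ patA i (capp q e) E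

/-- the same, no new cells -/
def patE (i : Bool) (q : List Bool) : List (Option Bool) → List Bool
  | [] => []
  | e :: E => (if (cev q e).2 = some i then [e.isSome] else []) ++ patE i (cev q e).1 E

/-- the pattern for the lower part of an ordinal sum: the letters of colour `false` become tops -/
def sel : List Bool → List Bool → List Bool
  | [], _ => []
  | true :: τ, b :: χ => b :: sel τ χ
  | true :: τ, [] => false :: sel τ []
  | false :: τ, χ => false :: sel τ χ

end Pool.Agent.Work.MP_5db8eb_co.SP
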