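import Pool.Agent.Work.MP_5db8eb_co.SP.PassB

set_option autoImplicit false

/-!
# SP/EvB (size M)

Basic facts on events.
PROOFS. `ev_length`, `app_length`: `pass_length` (for `none` and `c = []` both sides are 0). `ev_mem`: `pass_perm`. `st_append`: `List.foldl_append`.
`st_length`: induction on `E`. `st_mem`, `em_mem`: induction on `E` (generalising `c`) with `ev_mem`.
`em_some`: induction on `E`: for a letter the length of the contents does not change and the letter which comes out exists; for a top `c ≠ []` (there is a `none` in `E`), the length of the contents is smaller by 1.
`emk_some`: the number of tops among the last `k` events is `k` minus the number of letters among them, which is `≤ E.reduceOption.length - (number of the letters among them)` = length of `st [] (first events)`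
(`st_length`; if `E.length < k` there is a contradiction to `E.reduceOption.length ≤ E.length`).
-/

namespace Pool.Agent.Work.MP_5db8eb_co.SP

open Classical

variable {α : Type*} [PartialOrder α]

private theorem ev_none_nil : ev ([] : List α) none = ([], none) := rfl

private theorem ev_none_cons (h : α) (c : List α) : ev (h :: c) none = ((pass h c).1, some (pass h c).2) := rfl

private theorem ev_some (c : List α) (x : α) : ev c (some x) = ((pass x c).1, some (pass x c).2) := rfl

theorem ev_length (c : List α) (e : Option α) :
    (ev c e).1.length = if e.isSome then c.length else c.length - 1 := by
  cases e with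
  | none =>
    cases c with
    | nil => simp [ev_none_nil]
    | cons h c => simp [ev_none_cons, pass_length]
  | some x => simp [ev_some, pass_length]

theorem app_length (c : List α) (e : Option α) : (app c e).length = if e.isSome then c.length + 1 else c.length := by
  unfold app
  cases e with
  | none =>
    cases c with
    | nil => simp [ev_none_nil]
    | cons h c => simp [ev_none_cons, pass_length]
  | some x => simp [ev_some, pass_length]

private theorem pass_mem {x y : α} {c : List α} (h : x ∈ (pass y c).1 ∨ (pass y c).2 = x) : x = y ∨ x ∈ c := by
  have hp : x ∈ (pass y c).2 :: (pass y c).1 := by
    rcases h with h | h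
    · exact List.mem_cons_of_mem _ h
    · rw [h]
      exact List.mem_cons_self
  have := (pass_perm y c).mem_iff.mp hp
  simpa using this

theorem ev_mem {c : List α} {e : Option α} {x : α} (h : x ∈ (ev c e).1 ∨ (ev c e).2 = some x) :
    x ∈ c ∨ e = some x := by
  cases e with
  | none =>
    cases c with
    | nil => simp [ev_none_nil] at h
    | cons a c =>
      rw [ev_none_cons] at h
      left
      have h' : x ∈ (pass a c).1 ∨ (pass a c).2 = x := by
        rcases h with h | h
        · exact Or.inl h
        · exact Or.inr (Option.some.inj h)
      rcases pass_mem h' with h' | h'
      · simp [h']
      · simp [h']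
  | some y =>
    rw [ev_some] at h
    have h' : x ∈ (pass y c).1 ∨ (pass y c).2 = x := by
      rcases h with h | h
      · exact Or.inl h
      · exact Or.inr (Option.some.inj h)
    rcases pass_mem h' with h' | h'
    · exact Or.inr (by rw [h'])
    · exact Or.inl h'

theorem app_mem {c : List α} {e : Option α} {x : α} (h : x ∈ app c e) : x ∈ c ∨ e = some x := by
  unfold app at h
  rw [List.mem_append, Option.mem_toList] at h
  exact ev_mem h

theorem st_append (c : List α) (E F : List (Option α)) : st c (E ++ F) = st (st c E) F := by
  unfold st
  rw [List.foldl_append]

private theorem st_cons (c : List α) (e : Option α) (E : List (Option α)) : st c (e :: E) = st (app c e) E := rfl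

theorem st_length (c : List α) (E : List (Option α)) : (st c E).length = c.length + E.reduceOption.length := by
  induction E generalizing c with
  | nil => simp [st, List.reduceOption]
  | cons e E ih =>
    rw [st_cons, ih, app_length]
    cases e with
    | none => rw [List.reduceOption_cons_of_none]; simp
    | some x => rw [List.reduceOption_cons_of_some]; simp; omega

theorem st_mem {c : List α} {E : List (Option α)} {x : α} (h : x ∈ st c E) : x ∈ c ∨ some x ∈ E := by
  induction E generalizing c with
  | nil => exact Or.inl h
  | cons e E ih =>
    rw [st_cons] at h
    rcases ih h with h | h
    · rcases app_mem h with h | h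
      · exact Or.inl h
      · right
        rw [h]
        exact List.mem_cons_self
    · exact Or.inr (List.mem_cons_of_mem _ h)

theorem em_length (c : List α) (E : List (Option α)) : (em c E).length = E.length := by
  induction E generalizing c with
  | nil => simp [em]
  | cons e E ih => simp [em, ih]

theorem em_mem {c : List α} {E : List (Option α)} {x : α} (h : some x ∈ em c E) : x ∈ c ∨ some x ∈ E := by
  induction E generalizing c with
  | nil => simp [em] at h
  | cons e E ih =>
    rw [em, List.mem_cons] at h
    have key : x ∈ c ∨ e = some x → x ∈ c ∨ some x ∈ e :: E := by
      rintro (h | h)
      · exact Or.inl h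
      · right
        rw [h]
        exact List.mem_cons_self
    rcases h with h | h
    · exact key (ev_mem (Or.inr h.symm))
    · rcases ih h with h | h
      · exact key (ev_mem (Or.inl h))
      · exact Or.inr (List.mem_cons_of_mem _ h)

theorem em_some (c : List α) (E : List (Option α)) (h : E.count none ≤ c.length) :
    ∀ o ∈ em c E, o.isSome = true := by
  induction E generalizing c with
  | nil => simp [em]
  | cons e E ih =>
    intro o ho
    rw [em, List.mem_cons] at ho
    cases e with
    | none =>
      rw [List.count_cons_self] at h
      cases c with
      | nil => simp at h
      | cons a c =>
        rcases ho with ho | ho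
        · rw [ho, ev_none_cons]
          rfl
        · refine ih _ ?_ o ho
          rw [ev_length]
          simp at h ⊢
          exact h
    | some x =>
      rw [List.count_cons_of_ne (by simp)] at h
      rcases ho with ho | ho
      · rw [ho, ev_some]
        rfl
      · refine ih _ ?_ o ho
        rw [ev_length]
        simpa using h

theorem emk_length (k : ℕ) (E : List (Option α)) (h : k ≤ E.length) : (emk k E).length = k := by
  unfold emk
  rw [em_length, List.length_drop]
  omega

theorem emk_mem {k : ℕ} {E : List (Option α)} {x : α} (h : some x ∈ emk k E) : some x ∈ E := by
  unfold emk at h
  rcases em_mem h with h | h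
  · rcases st_mem h with h | h
    · simp at h
    · exact List.mem_of_mem_take h
  · exact List.mem_of_mem_drop h

omit [PartialOrder α] in
private theorem reduce_count (E : List (Option α)) : E.reduceOption.length + E.count none = E.length := by
  induction E with
  | nil => simp [List.reduceOption]
  | cons e E ih =>
    cases e with
    | none =>
      rw [List.reduceOption_cons_of_none, List.count_cons_self, List.length_cons]
      omega
    | some x =>
      rw [List.reduceOption_cons_of_some, List.count_cons_of_ne (by simp), List.length_cons, List.length_cons]
      omega

theorem emk_some (k : ℕ) (E : List (Option α)) (h : k ≤ E.reduceOption.length) :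
    ∀ o ∈ emk k E, o.isSome = true := by
  unfold emk
  apply em_some
  rw [st_length]
  have h1 := reduce_count (E.drop (E.length - k))
  have h2 := reduce_count E
  have h3 : E.reduceOption.length =
      (E.take (E.length - k)).reduceOption.length + (E.drop (E.length - k)).reduceOption.length := by
    rw [← List.length_append, ← List.reduceOption_append, List.take_append_drop]
  rw [List.length_drop] at h1
  simp only [List.length_nil]
  omega

/-- the form of `emk` for a given splitting of the events -/
theorem emk_eq (k : ℕ) (E F : List (Option α)) (h : F.length = k) : emk k (E ++ F) = em (st [] E) F := by
  unfold emk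
  have h1 : (E ++ F).length - k = E.length := by
    rw [List.length_append]
    omega
  rw [h1, List.take_left, List.drop_left]

/-- at most one letter: never bad -/
theorem not_bad_small (l : List (Option α)) (h : l.length ≤ 1) : ¬ Bad l := by
  unfold Bad
  rw [not_not]
  match l, h with
  | [], _ => exact List.Pairwise.nil
  | [a], _ => exact List.pairwise_singleton _ _

end Pool.Agent.Work.MP_5db8eb_co.SP
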