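import Pool.Agent.Work.MP_5db8eb_co.SP.Words

set_option autoImplicit false

/-!
# SP/LabA (size M)

Labelings and words: `lab w x` = (index of `x` in `w`) + 1.
PROOFS. `exists_word`: the letters in the order of the labels: `w = List.ofFn (fun i : Fin n => the element with label i + 1)` (`BijOn`), `w.idxOf` of the element with label `i + 1` is `i` (`List.Nodup.idxOf_getElem`-type lemma). `lab_labeling`: converse.
`linExt_lab`: for a word with all letters, `x` before `y` iff `idxOf x < idxOf y` (`List.pairwise_iff_getElem`).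
-/

namespace Pool.Agent.Work.MP_5db8eb_co.SP

open Classical

/-- the labeling of a word -/
noncomputable def lab {P : Type*} (w : List P) : P → ℕ := fun x => w.idxOf x + 1

variable {P : Type*} [PartialOrder P] [Fintype P]

private theorem idx_getElem' (w : List P) (hw : w.Nodup) (i : ℕ) (h : i < w.length) : w.idxOf w[i] = i :=
  hw.idxOf_getElem i h

theorem exists_word (L : P → ℕ) (hL : IsLabeling L) : ∃ w ∈ words (Finset.univ : Finset P), lab w = L := by
  have hs : ∀ i : Fin (Fintype.card P), ∃ x, L x = (i : ℕ) + 1 := by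
    intro i
    obtain ⟨x, _, hx⟩ := hL.surjOn (show (i : ℕ) + 1 ∈ Set.Icc 1 (Fintype.card P) from
      ⟨by omega, by have := i.isLt; omega⟩)
    exact ⟨x, hx⟩
  choose g hg using hs
  have hinj : Function.Injective g := by
    intro i j hij
    have h1 := hg i
    have h2 := hg j
    rw [hij] at h1
    exact Fin.ext (by omega)
  have hLi : ∀ x y, L x = L y → x = y := fun x y h => hL.injOn (Set.mem_univ x) (Set.mem_univ y) h
  have hmem : ∀ x, ∃ i, g i = x ∧ L x = (i : ℕ) + 1 := by
    intro x
    have h1 := hL.mapsTo (Set.mem_univ x)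
    rw [Set.mem_Icc] at h1
    refine ⟨⟨L x - 1, by omega⟩, hLi _ _ ?_, ?_⟩
    · rw [hg]
      simp only
      omega
    · simp only
      omega
  have hnd : (List.ofFn g).Nodup := List.nodup_ofFn.mpr hinj
  refine ⟨List.ofFn g, mem_words.mpr ⟨hnd, fun x => ?_⟩, ?_⟩
  · obtain ⟨i, hi, _⟩ := hmem x
    simp only [Finset.mem_univ, iff_true, List.mem_ofFn, Set.mem_range]
    exact ⟨i, hi⟩
  · funext x
    obtain ⟨i, hi, hL'⟩ := hmem x
    unfold lab
    rw [hL']
    have h2 := idx_getElem' (List.ofFn g) hnd i (by rw [List.length_ofFn]; exact i.isLt)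
    rw [List.getElem_ofFn] at h2
    simp only [Fin.eta] at h2
    rw [hi] at h2
    rw [h2]

theorem lab_labeling (w : List P) (hw : w ∈ words (Finset.univ : Finset P)) : IsLabeling (lab w) := by
  have hw' := mem_words.mp hw
  have hm : ∀ x, x ∈ w := fun x => (hw'.2 x).mpr (Finset.mem_univ x)
  have hl : w.length = Fintype.card P := by rw [length_words hw, Finset.card_univ]
  refine ⟨fun x _ => ?_, fun x _ y _ hxy => ?_, fun m hm' => ?_⟩
  · have h1 := List.idxOf_lt_length_of_mem (hm x)
    unfold lab
    rw [Set.mem_Icc]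
    omega
  · unfold lab at hxy
    exact (List.idxOf_inj (hm x)).mp (by omega)
  · rw [Set.mem_Icc] at hm'
    refine ⟨w[m - 1]'(by omega), Set.mem_univ _, ?_⟩
    unfold lab
    rw [idx_getElem' w hw'.1 (m - 1) (by omega)]
    omega

theorem linExt_lab (w : List P) (hw : w ∈ words (Finset.univ : Finset P)) :
    IsLinExt (lab w) ↔ w.Pairwise fun x y => ¬ y < x := by
  have hw' := mem_words.mp hw
  have hm : ∀ x, x ∈ w := fun x => (hw'.2 x).mpr (Finset.mem_univ x)
  rw [List.pairwise_iff_getElem]
  constructor
  · intro h i j hi hj hij hlt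
    have h1 := h _ _ hlt
    unfold lab at h1
    rw [idx_getElem' w hw'.1 j hj, idx_getElem' w hw'.1 i hi] at h1
    omega
  · intro h x y hxy
    unfold lab
    have hx := List.idxOf_lt_length_of_mem (hm x)
    have hy := List.idxOf_lt_length_of_mem (hm y)
    rcases lt_trichotomy (w.idxOf x) (w.idxOf y) with h1 | h1 | h1
    · omega
    · have := (List.idxOf_inj (hm x)).mp h1
      exact absurd hxy (this ▸ lt_irrefl x)
    · have h2 := h _ _ hy hx h1
      rw [List.getElem_idxOf, List.getElem_idxOf] at h2
      exact absurd hxy h2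

end Pool.Agent.Work.MP_5db8eb_co.SP
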