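import Pool.Agent.Work.MP_5db8eb_co.SP.Row
import Pool.Agent.Work.MP_5db8eb_co.SP.LabA

set_option autoImplicit false

/-!
# SP/Sweep (size L)

Extended promotion is one step for words.
PROOFS. `promo_lab`: `w = v1 :: w'`. Let `hl h w'` be the list of the letters which are held when `sweep h w'` is computed (`hl h [] = [h]`, `hl h (y :: w') = if h < y then h :: hl y w' else hl h w'`). The label 1 has `v1`. A held letter `g` is followed by the first letter `y` after it in `w` with `g < y`;
this `y` is the `lab w`-successor of `g`: all letters bigger than `g` come later in `w` than `g`, because a letter `z` before `g` in `w` with `g < z`: `z` would be bigger than the letter held when `z` was read (it is `< g`), so `z` would have been held and then `g` could not be one of the next held letters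
(prove along the induction the invariant: no letter read before is bigger than the held letter). So `OnChain (lab w) x ↔ x` is held at some time. In `swp w` the letter `y = w[i]` (`i ≥ 1`) which is read and not held is written at the place `i - 1`; if `y = w[i]` is read and then held, the letter `g` held before is written at
the place `i - 1`: label `i = lab w y - 1` (`y` is the successor of `g`); the last held letter is written at the last place: label `n`. (Suggested form: a statement for `sweep g v` where `w = u ++ v`, `g ∈ u`, by induction on `v`, with the invariants above, which describes `lab` of `u' ++ sweep g v` with `u'.length = u.length - 1`.)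
`promo_iter`: induction on `k` with `swp_perm`, `mem_words` (`Function.iterate_succ_apply'`).
-/

namespace Pool.Agent.Work.MP_5db8eb_co.SP

open Classical

variable {P : Type*} [PartialOrder P] [Fintype P]

omit [PartialOrder P] [Fintype P] in
private theorem lab_at (u v : List P) (y : P) (hy : y ∉ u) : lab (u ++ y :: v) y = u.length + 1 := by
  unfold lab
  rw [List.idxOf_append_of_notMem hy, List.idxOf_cons_self, add_zero]

omit [PartialOrder P] [Fintype P] in
private theorem lab_ge (u v : List P) (z : P) (hz : z ∉ u) : u.length + 1 ≤ lab (u ++ v) z := by
  unfold lab
  rw [List.idxOf_append_of_notMem hz]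
  omega

omit [PartialOrder P] [Fintype P] in
private theorem lab_inj {w : List P} {x y : P} (hx : x ∈ w) (h : lab w x = lab w y) : x = y := by
  unfold lab at h
  exact (List.idxOf_inj hx).1 (by omega)

omit [Fintype P] in
private theorem chain_mem {L : P → ℕ} {u : List P} {h : P} (h1 : ∀ x, L x = 1 → x ∈ u)
    (h3 : ∀ a ∈ u, OnChain L a → a ≠ h → ∀ x, IsSucc L a x → x ∈ u) {x : P} (hx : OnChain L x) :
    x ∈ u ∨ h < x := by
  induction hx with
  | start v hv => exact Or.inl (h1 v hv)
  | next a x ha hax ih =>
    rcases ih with ih | ih
    · by_cases hah : a = h
      · subst hah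
        exact Or.inr hax.1
      · exact Or.inl (h3 a ih ha hah x hax)
    · exact Or.inr (ih.trans hax.1)

private theorem main_aux (w : List P) (hall : ∀ x, x ∈ w) (hn : w.length = Fintype.card P) :
    ∀ (v u u' : List P) (h : P), w = u ++ v → w.Nodup → h ∈ u → (∀ x, lab w x = 1 → x ∈ u) →
      OnChain (lab w) h → (∀ z ∈ u, ¬ h < z) →
      (∀ a ∈ u, OnChain (lab w) a → a ≠ h → ∀ x, IsSucc (lab w) a x → x ∈ u) →
      u'.length + 1 = u.length → (u' ++ sweep h v).Nodup → swp w = u' ++ sweep h v →
      ∀ x ∈ h :: v, promo (lab w) x = lab (swp w) x := by
  intro v
  induction v with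
  | nil =>
    intro u u' h hw hnd hu h1 hch hbig h3 hlen hnd' hsw x hx
    rw [List.mem_singleton] at hx
    subst hx
    rw [List.append_nil] at hw
    have hno : ¬ ∃ y, IsSucc (lab w) x y := by
      rintro ⟨y, hy⟩
      exact hbig y (hw ▸ hall y) hy.1
    unfold promo
    rw [if_pos hch, dif_neg hno, hsw]
    have hs : sweep x [] = [x] := rfl
    rw [hs] at hnd' ⊢
    have hx' : x ∉ u' := by
      intro hx'
      exact (List.nodup_append.1 hnd').2.2 x hx' x (List.mem_singleton_self x) rfl
    rw [lab_at u' [] x hx', ← hn, hw]
    exact hlen.symm
  | cons y v ih =>
    intro u u' h hw hnd hu h1 hch hbig h3 hlen hnd' hsw x hx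
    have hyu : y ∉ u := by
      intro hy
      rw [hw] at hnd
      exact (List.nodup_append.1 hnd).2.2 y hy y List.mem_cons_self rfl
    have hw' : w = (u ++ [y]) ++ v := by
      rw [hw, List.append_assoc]
      rfl
    have hlab : lab w y = u.length + 1 := by
      rw [hw]
      exact lab_at u v y hyu
    have h1' : ∀ x, lab w x = 1 → x ∈ u ++ [y] := fun x hx => List.mem_append_left _ (h1 x hx)
    by_cases hlt : h < y
    · -- `y` is held next
      have hs : sweep h (y :: v) = h :: sweep y v := by
        conv_lhs => unfold sweep
        rw [if_pos hlt]
      have hsucc : IsSucc (lab w) h y := by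
        refine ⟨hlt, fun z hz => ?_⟩
        rw [hlab, hw]
        exact lab_ge u _ z fun hzu => hbig z hzu hz
      have huniq : ∀ z, IsSucc (lab w) h z → z = y := by
        intro z hz
        exact lab_inj (hall z) (le_antisymm (hz.2 y hlt) (hsucc.2 z hz.1))
      rw [hs] at hnd' hsw
      have hsw' : swp w = (u' ++ [h]) ++ sweep y v := by
        rw [hsw, List.append_assoc]
        rfl
      have hrec := ih (u ++ [y]) (u' ++ [h]) y hw' hnd (List.mem_append_right _
        (List.mem_singleton_self y)) h1' (OnChain.next h y hch hsucc) ?_ ?_ ?_ ?_ hsw'
      · rcases List.mem_cons.1 hx with rfl | hx'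
        · -- the letter held before
          unfold promo
          have hex : ∃ z, IsSucc (lab w) x z := ⟨y, hsucc⟩
          rw [if_pos hch, dif_pos hex, huniq _ hex.choose_spec, hlab, hsw]
          have hx'' : x ∉ u' := by
            intro hx''
            exact (List.nodup_append.1 hnd').2.2 x hx'' x List.mem_cons_self rfl
          rw [lab_at u' _ x hx'']
          omega
        · exact hrec x hx'
      · intro z hz hyz
        rcases List.mem_append.1 hz with hz | hz
        · exact hbig z hz (hlt.trans hyz)
        · rw [List.mem_singleton] at hz
          exact lt_irrefl y (hz ▸ hyz)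
      · intro a ha hac hay z hz
        rcases List.mem_append.1 ha with ha | ha
        · by_cases hah : a = h
          · subst hah
            rw [huniq z hz]
            exact List.mem_append_right _ (List.mem_singleton_self y)
          · exact List.mem_append_left _ (h3 a ha hac hah z hz)
        · rw [List.mem_singleton] at ha
          exact absurd ha hay
      · simp only [List.length_append, List.length_singleton]
        omega
      · rw [← hsw', hsw]
        exact hnd'
    · -- `y` is written
      have hs : sweep h (y :: v) = y :: sweep h v := by
        conv_lhs => unfold sweep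
        rw [if_neg hlt]
      have hync : ¬ OnChain (lab w) y := by
        intro hc
        rcases chain_mem h1 h3 hc with h4 | h4
        · exact hyu h4
        · exact hlt h4
      rw [hs] at hnd' hsw
      have hsw' : swp w = (u' ++ [y]) ++ sweep h v := by
        rw [hsw, List.append_assoc]
        rfl
      have hrec := ih (u ++ [y]) (u' ++ [y]) h hw' hnd (List.mem_append_left _ hu) h1' hch
        ?_ ?_ ?_ ?_ hsw'
      · rcases List.mem_cons.1 hx with rfl | hx'
        · exact hrec x List.mem_cons_self
        · rcases List.mem_cons.1 hx' with rfl | hx'
          · unfold promo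
            rw [if_neg hync, hlab, hsw]
            have hx'' : x ∉ u' := by
              intro hx''
              exact (List.nodup_append.1 hnd').2.2 x hx'' x List.mem_cons_self rfl
            rw [lab_at u' _ x hx'']
            omega
          · exact hrec x (List.mem_cons_of_mem _ hx')
      · intro z hz hyz
        rcases List.mem_append.1 hz with hz | hz
        · exact hbig z hz hyz
        · rw [List.mem_singleton] at hz
          exact hlt (hz ▸ hyz)
      · intro a ha hac hay z hz
        rcases List.mem_append.1 ha with ha | ha
        · exact List.mem_append_left _ (h3 a ha hac hay z hz)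
        · rw [List.mem_singleton] at ha
          exact absurd (ha ▸ hac) hync
      · simp only [List.length_append, List.length_singleton]
        omega
      · rw [← hsw', hsw]
        exact hnd'

theorem promo_lab (w : List P) (hw : w ∈ words (Finset.univ : Finset P)) : promo (lab w) = lab (swp w) := by
  obtain ⟨hnd, hmem⟩ := mem_words.1 hw
  have hall : ∀ x, x ∈ w := fun x => (hmem x).2 (Finset.mem_univ x)
  have hn : w.length = Fintype.card P := length_words hw
  funext x
  cases w with
  | nil => exact absurd (hall x) List.not_mem_nil
  | cons y v =>
    have hp : (swp (y :: v)).Nodup := (swp_perm (y :: v)).nodup_iff.2 hnd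
    have hlab : lab (y :: v) y = 1 := by
      have := lab_at [] v y List.not_mem_nil
      exact this
    refine main_aux (y :: v) hall hn v [y] [] y rfl hnd (List.mem_singleton_self y) ?_
      (OnChain.start y hlab) ?_ ?_ rfl ?_ rfl x (hall x)
    · intro z hz
      rw [List.mem_singleton]
      exact (lab_inj (hall z) (hz.trans hlab.symm))
    · intro z hz hyz
      rw [List.mem_singleton] at hz
      exact lt_irrefl y (hz ▸ hyz)
    · intro a ha _ hay
      rw [List.mem_singleton] at ha
      exact absurd ha hay
    · exact hp

theorem promo_iter (w : List P) (hw : w ∈ words (Finset.univ : Finset P)) (k : ℕ) :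
    promo^[k] (lab w) = lab (swp^[k] w) ∧ swp^[k] w ∈ words (Finset.univ : Finset P) := by
  induction k with
  | zero => exact ⟨rfl, hw⟩
  | succ k ih =>
    obtain ⟨h1, h2⟩ := ih
    rw [Function.iterate_succ_apply', Function.iterate_succ_apply', h1, promo_lab _ h2]
    refine ⟨rfl, ?_⟩
    obtain ⟨h3, h4⟩ := mem_words.1 h2
    have hp := swp_perm (swp^[k] w)
    exact mem_words.2 ⟨hp.nodup_iff.2 h3, fun x => (hp.mem_iff).trans (h4 x)⟩

end Pool.Agent.Work.MP_5db8eb_co.SP
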