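import Pool.Agent.Work.MP_5db8eb_co.SP.Row

set_option autoImplicit false

/-!
# SP/Tail (size M)

The last `k` letters after `k` steps.
PROOF. `sweep_tail`: `sweep h (w1 ++ v)` with `v.Pairwise (¬ later < earlier)` and `∀ x ∈ h :: w1, ∀ y ∈ v, ¬ y < x`. (*) At every time no letter written before is bigger than the held letter `g`: a letter `z` which was read and written was not bigger than the letter held at that
time, which is `≤ g`; a letter which was held and written is `<` the next held letter `≤ g`. In the phase of `v` the letters written are either `y ∈ v` read now (all letters written before and the held letter are from `h :: w1` or from earlier places of `v`: not bigger than `y`), or the held letter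
(use (*)); the last letter is the held letter (use (*)). Formally: induction on `v` with the invariant: `Wr` = the set of the letters written before, `∀ z ∈ Wr, ¬ g < z`, `∀ z ∈ Wr ∪ {g}, ∀ y ∈ v, ¬ y < z`; conclusion: `sweep g v` is pairwise and `∀ z ∈ Wr, ∀ y ∈ sweep g v, ¬ y < z`; before that an induction on `w1`
for `∀ z ∈ Wr, ¬ g < z`.
`swp_tail`: induction on `k`, `swp^[k+1] w = swp (swp^[k] w)` (`Function.iterate_succ_apply'`), `swp^[k] w = u ++ v` with `u` nonempty if `k < w.length`: `u = h :: w1`.
-/

namespace Pool.Agent.Work.MP_5db8eb_co.SP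

open Classical

variable {α : Type*} [PartialOrder α]

private theorem sweep_nil (h : α) : sweep h [] = [h] := rfl

private theorem sweep_pos {h y : α} (hy : h < y) (w : List α) : sweep h (y :: w) = h :: sweep y w := by
  rw [sweep, if_pos hy]

private theorem sweep_neg {h y : α} (hy : ¬ h < y) (w : List α) : sweep h (y :: w) = y :: sweep h w := by
  rw [sweep, if_neg hy]

private theorem sweep_head (h : α) (w1 : List α) :
    ∃ u g, (∀ v, sweep h (w1 ++ v) = u ++ sweep g v) ∧ h ≤ g ∧ (∀ z ∈ u, ¬ g < z) ∧
      (∀ z ∈ u, z ∈ h :: w1) ∧ g ∈ h :: w1 := by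
  induction w1 generalizing h with
  | nil => exact ⟨[], h, fun v => rfl, le_rfl, by simp, by simp, by simp⟩
  | cons y w ih =>
    by_cases hy : h < y
    · obtain ⟨u, g, h1, h2, h3, h4, h5⟩ := ih y
      refine ⟨h :: u, g, ?_, (hy.trans_le h2).le, ?_, ?_, ?_⟩
      · intro v
        rw [List.cons_append, sweep_pos hy, h1 v]
        rfl
      · intro z hz
        rw [List.mem_cons] at hz
        rcases hz with rfl | hz
        · exact fun hlt => lt_asymm hlt (hy.trans_le h2)
        · exact h3 z hz
      · intro z hz
        rw [List.mem_cons] at hz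
        rcases hz with rfl | hz
        · exact List.mem_cons_self
        · exact List.mem_cons_of_mem _ (h4 z hz)
      · exact List.mem_cons_of_mem _ h5
    · obtain ⟨u, g, h1, h2, h3, h4, h5⟩ := ih h
      refine ⟨y :: u, g, ?_, h2, ?_, ?_, ?_⟩
      · intro v
        rw [List.cons_append, sweep_neg hy, h1 v]
        rfl
      · intro z hz
        rw [List.mem_cons] at hz
        rcases hz with rfl | hz
        · exact fun hlt => hy (h2.trans_lt hlt)
        · exact h3 z hz
      · intro z hz
        rw [List.mem_cons] at hz
        rcases hz with rfl | hz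
        · simp
        · have := h4 z hz
          rw [List.mem_cons] at this ⊢
          rw [List.mem_cons]
          tauto
      · rw [List.mem_cons] at h5 ⊢
        rw [List.mem_cons]
        tauto

private theorem sweep_last (Wr : List α) (g : α) (v : List α) (hv : v.Pairwise fun x y => ¬ y < x)
    (h1 : ∀ z ∈ Wr, ¬ g < z) (h2 : ∀ z ∈ Wr, ∀ y ∈ v, ¬ y < z) (h3 : ∀ y ∈ v, ¬ y < g) :
    (sweep g v).Pairwise (fun x y => ¬ y < x) ∧ ∀ z ∈ Wr, ∀ y ∈ sweep g v, ¬ y < z := by
  induction v generalizing Wr g with
  | nil =>
    rw [sweep_nil]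
    refine ⟨List.pairwise_singleton _ _, ?_⟩
    intro z hz y hy
    rw [List.mem_singleton] at hy
    rw [hy]
    exact h1 z hz
  | cons y v ih =>
    rw [List.pairwise_cons] at hv
    by_cases hy : g < y
    · rw [sweep_pos hy]
      obtain ⟨k1, k2⟩ := ih (g :: Wr) y hv.2
        (by
          intro z hz
          rw [List.mem_cons] at hz
          rcases hz with rfl | hz
          · exact h3 y List.mem_cons_self
          · exact h2 z hz y List.mem_cons_self)
        (by
          intro z hz y' hy'
          rw [List.mem_cons] at hz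
          rcases hz with rfl | hz
          · exact h3 y' (List.mem_cons_of_mem _ hy')
          · exact h2 z hz y' (List.mem_cons_of_mem _ hy'))
        (fun y' hy' => hv.1 y' hy')
      refine ⟨?_, ?_⟩
      · rw [List.pairwise_cons]
        exact ⟨fun y' hy' => k2 g List.mem_cons_self y' hy', k1⟩
      · intro z hz y' hy'
        rw [List.mem_cons] at hy'
        rcases hy' with rfl | hy'
        · exact h1 z hz
        · exact k2 z (List.mem_cons_of_mem _ hz) y' hy'
    · rw [sweep_neg hy]
      obtain ⟨k1, k2⟩ := ih (y :: Wr) g hv.2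
        (by
          intro z hz
          rw [List.mem_cons] at hz
          rcases hz with rfl | hz
          · exact hy
          · exact h1 z hz)
        (by
          intro z hz y' hy'
          rw [List.mem_cons] at hz
          rcases hz with rfl | hz
          · exact hv.1 y' hy'
          · exact h2 z hz y' (List.mem_cons_of_mem _ hy'))
        (fun y' hy' => h3 y' (List.mem_cons_of_mem _ hy'))
      refine ⟨?_, ?_⟩
      · rw [List.pairwise_cons]
        exact ⟨fun y' hy' => k2 y List.mem_cons_self y' hy', k1⟩
      · intro z hz y' hy'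
        rw [List.mem_cons] at hy'
        rcases hy' with rfl | hy'
        · exact h2 z hz _ List.mem_cons_self
        · exact k2 z (List.mem_cons_of_mem _ hz) y' hy'

theorem sweep_tail (h : α) (w1 v : List α) (hv : v.Pairwise fun x y => ¬ y < x)
    (hx : ∀ x ∈ h :: w1, ∀ y ∈ v, ¬ y < x) :
    ∃ u v', sweep h (w1 ++ v) = u ++ v' ∧ v'.length = v.length + 1 ∧ (∀ x ∈ u, ∀ y ∈ v', ¬ y < x) ∧
      v'.Pairwise fun x y => ¬ y < x := by
  obtain ⟨u, g, h1, _, h3, h4, h5⟩ := sweep_head h w1
  obtain ⟨k1, k2⟩ := sweep_last u g v hv h3 (fun z hz y hy => hx z (h4 z hz) y hy) (fun y hy => hx g h5 y hy)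
  refine ⟨u, sweep g v, h1 v, ?_, k2, k1⟩
  rw [(sweep_perm g v).length_eq, List.length_cons]

private theorem swp_iter_length (k : ℕ) (w : List α) : (swp^[k] w).length = w.length := by
  induction k with
  | zero => rfl
  | succ k ih => rw [Function.iterate_succ_apply', (swp_perm _).length_eq, ih]

theorem swp_tail (k : ℕ) (w : List α) (hk : k ≤ w.length) :
    ∃ u v, swp^[k] w = u ++ v ∧ v.length = k ∧ (∀ x ∈ u, ∀ y ∈ v, ¬ y < x) ∧ v.Pairwise fun x y => ¬ y < x := by
  induction k with
  | zero => exact ⟨w, [], by simp, rfl, by simp, List.Pairwise.nil⟩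
  | succ k ih =>
    obtain ⟨u, v, h1, h2, h3, h4⟩ := ih (by omega)
    have hl := swp_iter_length k w
    rw [h1, List.length_append] at hl
    have hu : u ≠ [] := by
      rintro rfl
      simp at hl
      omega
    obtain ⟨h, w1, rfl⟩ := List.exists_cons_of_ne_nil hu
    obtain ⟨u', v', k1, k2, k3, k4⟩ := sweep_tail h w1 v h4 h3
    refine ⟨u', v', ?_, by rw [k2, h2], k3, k4⟩
    rw [Function.iterate_succ_apply', h1, List.cons_append]
    exact k1

/-- if the word is not sorted after `k` steps, then the letters which come out are bad -/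
theorem bad_of_not_sorted (k : ℕ) (w : List α) (hk : k ≤ w.length)
    (h : ¬ (swp^[k] w).Pairwise fun x y => ¬ y < x) : Bad (emk (w.length - k) (w.map some)) := by
  intro hb
  apply h
  rw [← take_swp k w hk, List.pairwise_map] at hb
  obtain ⟨u, v, h1, h2, h3, h4⟩ := swp_tail k w hk
  have hl := swp_iter_length k w
  have hut : (swp^[k] w).take (w.length - k) = u := by
    rw [h1, List.length_append] at hl
    rw [h1]
    have : w.length - k = u.length := by omega
    rw [this, List.take_left]
  rw [hut] at hb
  rw [h1, List.pairwise_append]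
  refine ⟨?_, h4, h3⟩
  exact hb.imp fun {a b} hab => hab a rfl b rfl

end Pool.Agent.Work.MP_5db8eb_co.SP
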