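import Pool.Agent.Work.MP_5db8eb_co.SP.Main
import Pool.Agent.Work.MP_5db8eb_co.SP.Tail
import Pool.Agent.Work.MP_5db8eb_co.SP.Sweep

set_option autoImplicit false

/-!
# SP/Final (size S-M)

Assembly.
PROOF. `card_le_cnt`: the map which sends a labeling `L` to a word `w` with `lab w = L` (`exists_word`) is injective and goes into the words with `Bad (emk m (w.map some))` (`promo_iter`, `linExt_lab`, `bad_of_not_sorted` with `k = n - m`), and `fill (replicate n true) w = w.map some` (`fill_replicate`).
The condition of the theorem is `NB 2 univ`, `NB 1 univ`.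
-/

namespace Pool.Agent.Work.MP_5db8eb_co.SP

open Classical


variable {P : Type*} [PartialOrder P] [Fintype P]

theorem card_le_cnt (m : ℕ) (hm : m ≤ Fintype.card P) :
    Nat.card {L : P → ℕ // IsLabeling L ∧ ¬ IsLinExt (promo^[Fintype.card P - m] L)} ≤
      cnt m (Finset.univ : Finset P) (List.replicate (Fintype.card P) true) := by
  have key : ∀ L : {L : P → ℕ // IsLabeling L ∧ ¬ IsLinExt (promo^[Fintype.card P - m] L)},
      ∃ w ∈ (words (Finset.univ : Finset P)).filter
        (fun s => Bad (emk m (fill (List.replicate (Fintype.card P) true) s))), lab w = L.1 := by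
    rintro ⟨L, hL, hbad⟩
    obtain ⟨w, hw, hlab⟩ := exists_word L hL
    refine ⟨w, ?_, hlab⟩
    rw [Finset.mem_filter]
    refine ⟨hw, ?_⟩
    have hlen : w.length = Fintype.card P := by rw [length_words hw, Finset.card_univ]
    rw [← hlen, fill_replicate]
    obtain ⟨h1, h2⟩ := promo_iter w hw (Fintype.card P - m)
    rw [← hlab, h1, linExt_lab _ h2] at hbad
    have h3 := bad_of_not_sorted (Fintype.card P - m) w (by omega) hbad
    have h4 : w.length - (Fintype.card P - m) = m := by omega
    rwa [h4] at h3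
  choose f hf1 hf2 using key
  have h1 : Function.Injective (fun L => (⟨f L, hf1 L⟩ : {w // w ∈ (words (Finset.univ : Finset P)).filter
        (fun s => Bad (emk m (fill (List.replicate (Fintype.card P) true) s)))})) := by
    intro L L' h
    have h2 : f L = f L' := congrArg Subtype.val h
    apply Subtype.ext
    rw [← hf2 L, ← hf2 L', h2]
  have h2 := Nat.card_le_card_of_injective _ h1
  have h3 : ∀ A : Finset (List P), Nat.card {w // w ∈ A} = A.card := by
    intro A
    rw [Nat.card_eq_fintype_card, Fintype.card_coe]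
  rw [h3] at h2
  exact h2

/-- `a < c`, `b < c`, `b < d` and no other relations -/
def IsN (a b c d : P) : Prop :=
  a < c ∧ b < c ∧ b < d ∧ ¬ a < b ∧ ¬ b < a ∧ a ≠ b ∧ ¬ c < d ∧ ¬ d < c ∧ c ≠ d ∧ ¬ a < d

private theorem fin_nb (k : ℕ) (hN : ∀ a b c d : P, IsN a b c d → k ≤ Nat.card {z : P // z < a ∧ z < b}) :
    NB k (Finset.univ : Finset P) := by
  intro a _ b _ c _ d _ h1 h2 h3 h4 h5 h6 h7 h8 h9 h10
  have h := hN a b c d ⟨h1, h2, h3, h4, h5, h6, h7, h8, h9, h10⟩
  rw [Nat.card_eq_fintype_card, Fintype.card_subtype] at h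
  exact h

theorem main_result (hn : 3 ≤ Fintype.card P)
    (hN : ∀ a b c d : P, IsN a b c d → 2 ≤ Nat.card {z : P // z < a ∧ z < b}) :
    Nat.card {L : P → ℕ // IsLabeling L ∧ ¬ IsLinExt (promo^[Fintype.card P - 3] L)} + (Fintype.card P - 2).factorial ≤
      3 * (Fintype.card P - 1).factorial := by
  have h1 := cnt_three (Finset.univ : Finset P) (fin_nb 2 hN) (by rw [Finset.card_univ]; exact hn)
  rw [Finset.card_univ] at h1
  exact (Nat.add_le_add_right (card_le_cnt 3 hn) _).trans h1

theorem tangled_result (hn : 2 ≤ Fintype.card P)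
    (hN : ∀ a b c d : P, IsN a b c d → 1 ≤ Nat.card {z : P // z < a ∧ z < b}) :
    Nat.card {L : P → ℕ // IsLabeling L ∧ ¬ IsLinExt (promo^[Fintype.card P - 2] L)} ≤
      (Fintype.card P - 1).factorial := by
  have h1 := cnt_two (Finset.univ : Finset P) (fin_nb 1 hN) (by rw [Finset.card_univ]; exact hn)
  rw [Finset.card_univ] at h1
  exact (card_le_cnt 2 hn).trans h1

end Pool.Agent.Work.MP_5db8eb_co.SP
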