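import Pool.Agent.Work.MP_5db8eb_co.SP.Defs

set_option autoImplicit false

/-!
# SP/Inh (size S-M)

The condition `NB` for parts.
PROOFS. `nb_mono`: clear. `nb_par`: `a, b, c, d ∈ S1`; the common lower bounds in `S1 ∪ S2` are in `S1` (an element of `S2` is not below `a`). `nb_min`: the common lower bounds in `insert z R` are at most one more than those in `R`.
`nb_ser`: an element of `R` is not below `a ∈ L` (`a < y`).
-/

namespace Pool.Agent.Work.MP_5db8eb_co.SP

open Classical

variable {α : Type*} [PartialOrder α]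

theorem nb_mono (k : ℕ) (S : Finset α) (h : NB (k + 1) S) : NB k S := by
  intro a ha b hb c hc d hd h1 h2 h3 h4 h5 h6 h7 h8 h9 h10
  have := h a ha b hb c hc d hd h1 h2 h3 h4 h5 h6 h7 h8 h9 h10
  omega

private theorem nb_sub (k : ℕ) (S T : Finset α) (hT : T ⊆ S) (hno : ∀ x ∈ T, ∀ y ∈ S, y < x → y ∈ T) (h : NB k S) :
    NB k T := by
  intro a ha b hb c hc d hd h1 h2 h3 h4 h5 h6 h7 h8 h9 h10
  refine (h a (hT ha) b (hT hb) c (hT hc) d (hT hd) h1 h2 h3 h4 h5 h6 h7 h8 h9 h10).trans (Finset.card_le_card ?_)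
  intro z hz
  rw [Finset.mem_filter] at hz ⊢
  exact ⟨hno a ha z hz.1 hz.2.1, hz.2⟩

theorem nb_par (k : ℕ) (S1 S2 : Finset α) (hno : ∀ x ∈ S1, ∀ y ∈ S2, ¬ x < y ∧ ¬ y < x) (h : NB k (S1 ∪ S2)) :
    NB k S1 ∧ NB k S2 := by
  constructor
  · refine nb_sub k _ _ Finset.subset_union_left ?_ h
    intro x hx y hy hyx
    rcases Finset.mem_union.1 hy with h1 | h1
    · exact h1
    · exact absurd hyx (hno x hx y h1).2
  · refine nb_sub k _ _ Finset.subset_union_right ?_ h
    intro x hx y hy hyx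
    rcases Finset.mem_union.1 hy with h1 | h1
    · exact absurd hyx (hno y h1 x hx).1
    · exact h1

theorem nb_min (k : ℕ) (z : α) (R : Finset α) (h : NB (k + 1) (insert z R)) : NB k R := by
  intro a ha b hb c hc d hd h1 h2 h3 h4 h5 h6 h7 h8 h9 h10
  have h11 := h a (Finset.mem_insert_of_mem ha) b (Finset.mem_insert_of_mem hb) c (Finset.mem_insert_of_mem hc) d
    (Finset.mem_insert_of_mem hd) h1 h2 h3 h4 h5 h6 h7 h8 h9 h10
  have h12 : ((insert z R).filter fun x => x < a ∧ x < b) ⊆ insert z (R.filter fun x => x < a ∧ x < b) := by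
    intro x hx
    rw [Finset.mem_filter, Finset.mem_insert] at hx
    rw [Finset.mem_insert, Finset.mem_filter]
    rcases hx.1 with h13 | h13
    · exact Or.inl h13
    · exact Or.inr ⟨h13, hx.2⟩
  have h13 := Finset.card_le_card h12
  have h14 := Finset.card_insert_le z (R.filter fun x => x < a ∧ x < b)
  omega

theorem nb_ser (k : ℕ) (L R : Finset α) (hlt : ∀ x ∈ L, ∀ y ∈ R, x < y) (h : NB k (L ∪ R)) : NB k L := by
  refine nb_sub k _ _ Finset.subset_union_left ?_ h
  intro x hx y hy hyx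
  rcases Finset.mem_union.1 hy with h1 | h1
  · exact h1
  · exact absurd hyx (hlt x hx y h1).asymm

end Pool.Agent.Work.MP_5db8eb_co.SP
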