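import Pool.Agent.Work.MP_5db8eb_co.SP.MinC

set_option autoImplicit false

/-!
# SP/MinD (size M)

`H3` for a set with a unique minimal element.
PROOF. `min3`: `N = |R| + 1 ≥ 3`, `τ' = τ ++ [x, y]`, `count_ins` (`F w = Bad (emk 3 (fill τ' w))`). For every `j < N`: `τ' = τ1 ++ true :: τ2`, `τ1.count true = j` (`fill_ins`). `τ2.length ≥ 2`: `emk_min` with `k = 2`: bad implies (`bad_cons_min`) that `emk 2 (fill (τ1 ++ τ2) s)` is bad; `τ1 ++ τ2` ends with `y` and has `|R|` places `true`, so by `H2 R` the number of such `s`
is at most `bd2 |R| y` (`|R| = N - 1 ≥ 2`). `τ2.length = 1`: only if `x = true`, one value of `j` (`τ1.count true = j`), at most `(N-1)!` (`card_words`). `τ2 = []`: only if `y = true`, one value of `j`, at most `(N-1)!`. Sum: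
`x = y = true`: `2 (N-1)! + (N - 2)(N-2)! = (3N-4)(N-2)!`; `x = false, y = true`: `(N-1)! + (N-1)(N-2)! = 2 (N-1)!`; `x = true, y = false`: `(N-1)!`; `x = y = false`: 0.
-/

namespace Pool.Agent.Work.MP_5db8eb_co.SP

open Classical

variable {α : Type*} [PartialOrder α]

theorem min3 (z : α) (R : Finset α) (hz : ∀ x ∈ R, z < x) (hR : H2 R) : H3 (insert z R) := by
  have hzR : z ∉ R := fun h => lt_irrefl _ (hz z h)
  intro hN τ x y hcount
  rw [Finset.card_insert_of_notMem hzR] at hN hcount ⊢
  obtain ⟨m, hm⟩ : ∃ m, R.card = m + 2 := ⟨R.card - 2, by omega⟩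
  obtain ⟨f, hf⟩ : ∃ f : ℕ → ℕ, ∀ j, f j = ((words R).filter fun s =>
    Bad (emk 3 (fill (τ ++ [x, y]) (s.take j ++ z :: s.drop j)))).card := ⟨_, fun j => rfl⟩
  have hsum : cnt 3 (insert z R) (τ ++ [x, y]) ≤ ∑ j ∈ Finset.range (R.card + 1), f j := by
    have h := count_ins z R hzR (fun s => Bad (emk 3 (fill (τ ++ [x, y]) s)))
    unfold cnt
    refine h.trans (le_of_eq ?_)
    exact Finset.sum_congr rfl fun j _ => (hf j).symm
  have htriv : ∀ j, f j ≤ (m + 2).factorial := by
    intro j
    rw [hf, ← hm, ← card_words]
    exact Finset.card_filter_le _ _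
  have hkey : ∀ j < R.card + 1, f j ≤ bd2 R.card y ∨
      ((x = true ∧ j + (if y then 1 else 0) = m + 2) ∨ (y = true ∧ j = m + 2)) := by
    intro j hj
    obtain ⟨τ1, τ2, h1, h2, h3⟩ := fill_ins (τ ++ [x, y]) j (by omega)
    have hc2 := hcount
    rw [h1, List.count_append, List.count_cons_self, h2, hm] at hc2
    have hsplit : (τ ++ [x]) ++ [y] = τ1 ++ true :: τ2 := by rw [← h1]; simp
    rcases τ2.eq_nil_or_concat with h4 | ⟨τ3, y', h4⟩
    · right; right
      rw [h4] at hsplit hc2
      have h5 := List.append_inj_right' hsplit rfl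
      rw [List.cons.injEq] at h5
      refine ⟨h5.1, ?_⟩
      simp only [List.count_nil] at hc2
      omega
    · have hsplit2 : (τ ++ [x]) ++ [y] = (τ1 ++ true :: τ3) ++ [y'] := by
        rw [hsplit, h4]; simp
      have h5 := List.append_inj_right' hsplit2 rfl
      have h6 := List.append_inj_left' hsplit2 rfl
      rw [List.cons.injEq] at h5
      have hy : y = y' := h5.1
      rcases τ3.eq_nil_or_concat with h7 | ⟨τ4, x', h7⟩
      · right; left
        rw [h7] at h6
        have h8 := List.append_inj_right' h6 rfl
        rw [List.cons.injEq] at h8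
        refine ⟨h8.1, ?_⟩
        rw [h4, h7, ← hy] at hc2
        cases y
        · simp at hc2 ⊢
          omega
        · simp at hc2 ⊢
          omega
      · left
        have hl2 : 2 ≤ τ2.length := by rw [h4, h7]; simp
        have hcR : ((τ1 ++ τ3) ++ [y]).count true = R.card := by
          have e1 : (τ1 ++ τ3) ++ [y] = τ1 ++ τ2 := by rw [h4, hy]; simp
          rw [e1, List.count_append, h2, hm]
          omega
        refine le_trans ?_ (hR (by omega) (τ1 ++ τ3) y hcR)
        rw [hf]
        unfold cnt
        refine Finset.card_le_card fun s hs => ?_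
        rw [Finset.mem_filter] at hs ⊢
        refine ⟨hs.1, ?_⟩
        have hlen := length_words hs.1
        have hmem := (mem_words.mp hs.1).2
        obtain ⟨h8, h9⟩ := h3 s z (by omega)
        have e1 : (τ1 ++ τ3) ++ [y] = τ1 ++ τ2 := by rw [h4, hy]; simp
        have hE1 : ∀ w, some w ∈ fill τ1 (s.take j) → z < w := fun w hw =>
          hz w ((hmem w).mp (List.mem_of_mem_take (mem_fill hw)))
        have hE2 : ∀ w, some w ∈ fill τ2 (s.drop j) → z < w := fun w hw =>
          hz w ((hmem w).mp (List.mem_of_mem_drop (mem_fill hw)))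
        have h10 := hs.2
        rw [h8, emk_min z _ _ hE1 hE2 2 (by rw [length_fill]; exact hl2)] at h10
        rw [e1, h9]
        refine bad_cons_min z _ (fun w hw => ?_) h10
        have h11 := emk_mem hw
        rw [List.mem_append] at h11
        exact h11.elim (hE1 w) (hE2 w)
  refine hsum.trans ?_
  rw [hm] at hkey ⊢
  have hfac : (m + 2).factorial = (m + 2) * (m + 1).factorial := Nat.factorial_succ (m + 1)
  have htriv1 := htriv (m + 1)
  have htriv2 := htriv (m + 2)
  cases y <;> cases x
  · -- y = false, x = false
    have h0 : ∀ j ∈ Finset.range (m + 2 + 1), f j ≤ 0 := by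
      intro j hj
      rcases hkey j (Finset.mem_range.mp hj) with h | h | h
      · exact h
      · exact absurd h.1 (by simp)
      · exact absurd h.1 (by simp)
    refine (Finset.sum_le_sum h0).trans ?_
    simp
  · -- y = false, x = true
    rw [Finset.sum_range_succ]
    have h0 : ∀ j ∈ Finset.range (m + 2), f j ≤ 0 := by
      intro j hj
      rw [Finset.mem_range] at hj
      rcases hkey j (by omega) with h | h | h
      · exact h
      · exfalso
        have := h.2
        simp at this
        omega
      · exact absurd h.1 (by simp)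
    have h1 := Finset.sum_le_sum h0
    simp only [Finset.sum_const_zero] at h1
    simp only [bd3]
    simp only [Bool.false_eq_true, if_false, if_true]
    have e1 : m + 2 + 1 - 1 = m + 2 := by omega
    rw [e1]
    omega
  · -- y = true, x = false
    rw [Finset.sum_range_succ]
    have h0 : ∀ j ∈ Finset.range (m + 2), f j ≤ (m + 1).factorial := by
      intro j hj
      rw [Finset.mem_range] at hj
      rcases hkey j (by omega) with h | h | h
      · exact h
      · exact absurd h.1 (by simp)
      · exfalso
        have := h.2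
        omega
    have h1 := Finset.sum_le_sum h0
    simp only [Finset.sum_const, Finset.card_range, smul_eq_mul] at h1
    simp only [bd3]
    simp only [Bool.false_eq_true, if_false, if_true]
    have e1 : m + 2 + 1 - 1 = m + 2 := by omega
    rw [e1]
    rw [← hfac] at h1
    omega
  · -- y = true, x = true
    rw [Finset.sum_range_succ, Finset.sum_range_succ]
    have h0 : ∀ j ∈ Finset.range (m + 1), f j ≤ (m + 1).factorial := by
      intro j hj
      rw [Finset.mem_range] at hj
      rcases hkey j (by omega) with h | h | h
      · exact h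
      · exfalso
        have := h.2
        simp at this
        omega
      · exfalso
        have := h.2
        omega
    have h1 := Finset.sum_le_sum h0
    simp only [Finset.sum_const, Finset.card_range, smul_eq_mul] at h1
    simp only [bd3]
    simp only [if_true]
    have e1 : m + 2 + 1 - 2 = m + 1 := by omega
    have e2 : 3 * (m + 2 + 1) - 4 = 3 * m + 5 := by omega
    rw [e1, e2]
    rw [hfac] at htriv1 htriv2
    nlinarith [h1, htriv1, htriv2]

end Pool.Agent.Work.MP_5db8eb_co.SP
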