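import Pool.Agent.Work.MP_5db8eb_co.SP.ParK

set_option autoImplicit false

/-!
# SP/Par2 (size M)

Tangled words of a union of two sets without relations.
PROOF. `τ ++ [x]` has at least 2 places, write it `τ0 ++ [x1, x]` (`σ = [x1, x]`); `count_mix` and `par_fix` for every `χ`. All letters which come out exist (`emk_some`-type: or use that the colours which come out are
`(em ..).map (Option.map p)`, `em_col`), so `o := cem ..` is one of the four lists `[some i, some j]`. If `i ≠ j` both `ne` are 1: the bound of `par_fix` is 0 (`cnt_small`). If `o = [some i, some i]`: `ne i = 2`, `ne (!i) = 0`,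
`pt i = patA .. ++ [x1, x]` (both events belong to `i`; `fill_isSome`), and its number of `true` is `|S_i|` (`pt_count`), so `cnt 2 S_i (pt i) ≤ bd2 |S_i| x` by `H2` (if `|S_i| ≥ 2`). Number of the `χ`: `card_ec`
with `o = [true, true]`: `(N - 2).choose (N1 - 2)` if `N1 ≥ 2`, else 0; `[false, false]`: `(N-2).choose N1` if `N2 ≥ 2`, else 0. `num_par2` for the sum.
`num_par2`: if `x = false` everything is 0. `x = true`: `(N-2).choose (N1-2) * ((N1-1)! * N2!) = (N1 - 1) * (N-2)!` (`Nat.choose_mul_factorial_mul_factorial`), the other term is `(N2 - 1) (N-2)!`, the sum is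
`(N - 2) (N-2)! ≤ (N-1)!`.
-/

namespace Pool.Agent.Work.MP_5db8eb_co.SP

open Classical

variable {α : Type*} [PartialOrder α]

private theorem p2_chf (a b : ℕ) :
    (a + b).choose a * a.factorial * b.factorial = (a + b).factorial := by
  rw [Nat.choose_symm_add, Nat.add_choose_mul_factorial_mul_factorial]

private theorem p2_bd (b : ℕ) (x : Bool) :
    bd2 (b + 2) x = (if x then 1 else 0) * (b + 1) * b.factorial := by
  unfold bd2
  cases x
  · simp
  · simp only [if_true]
    rw [show b + 2 - 1 = b + 1 by omega, Nat.factorial_succ]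
    ring

private theorem p2_t1 (N1 N2 : ℕ) (x : Bool) :
    (if 2 ≤ N1 then (N1 + N2 - 2).choose (N1 - 2) else 0) * (bd2 N1 x * N2.factorial) =
      (if x then 1 else 0) * (N1 - 1) * (N1 + N2 - 2).factorial := by
  rcases N1 with _ | _ | a
  · simp
  · simp
  · rw [if_pos (by omega), p2_bd, show a + 1 + 1 + N2 - 2 = a + N2 by omega,
      show a + 1 + 1 - 2 = a by omega, show a + 1 + 1 - 1 = a + 1 by omega, ← p2_chf a N2]
    ring

private theorem p2_t2 (N1 N2 : ℕ) (x : Bool) :
    (if 2 ≤ N2 then (N1 + N2 - 2).choose N1 else 0) * (bd2 N2 x * N1.factorial) =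
      (if x then 1 else 0) * (N2 - 1) * (N1 + N2 - 2).factorial := by
  rcases N2 with _ | _ | a
  · simp
  · simp
  · rw [if_pos (by omega), p2_bd, show N1 + (a + 1 + 1) - 2 = N1 + a by omega,
      show a + 1 + 1 - 1 = a + 1 by omega, ← p2_chf N1 a]
    ring

private theorem patE_all (i : Bool) (q : List Bool) (E : List (Option Bool))
    (h : ∀ o ∈ cem q E, o = some i) : patE i q E = E.map Option.isSome := by
  induction E generalizing q with
  | nil => rfl
  | cons e E ih =>
    have h1 : (cev q e).2 = some i := h _ List.mem_cons_self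
    have h2 := ih (cev q e).1 fun o ho => h o (List.mem_cons_of_mem _ ho)
    rw [patE, if_pos h1, h2]
    rfl

private theorem cols_count {a b : ℕ} {χ : List Bool} (h : χ ∈ cols a b) :
    χ.length = a + b := by
  obtain ⟨h1, h2⟩ := mem_cols.1 h
  rw [← h1, ← h2]
  exact (List.count_true_add_count_false χ).symm

private theorem p2_one (S : Finset α) (i : Bool) (τ0 : List Bool) (x1 x : Bool) (χ : List Bool)
    (n : ℕ) (hχ : χ.length = n) (hc : (τ0 ++ [x1, x]).count true = n)
    (hS : χ.count i = S.card) (hH : H2 S)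
    (hge : cem (cst [] (fill τ0 χ)) (fill [x1, x] (χ.drop (τ0.count true))) = [some i, some i] →
      2 ≤ S.card) :
    cnt (ne i τ0 [x1, x] χ) S (pt i τ0 [x1, x] χ) ≤
      if cem (cst [] (fill τ0 χ)) (fill [x1, x] (χ.drop (τ0.count true))) = [some i, some i] then
        bd2 S.card x else 0 := by
  by_cases hC : cem (cst [] (fill τ0 χ)) (fill [x1, x] (χ.drop (τ0.count true))) =
      [some i, some i]
  · rw [if_pos hC]
    have h1 : ne i τ0 [x1, x] χ = 2 := by
      unfold ne
      rw [hC]
      simp
    have h2 : patE i (cst [] (fill τ0 χ)) (fill [x1, x] (χ.drop (τ0.count true))) = [x1, x] := by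
      rw [patE_all i _ _ (by
        intro o ho
        rw [hC] at ho
        simpa using ho)]
      apply fill_isSome
      rw [List.length_drop, hχ, ← hc, List.count_append]
      omega
    have h3 : pt i τ0 [x1, x] χ = (patA i [] (fill τ0 χ) ++ [x1]) ++ [x] := by
      unfold pt
      rw [h2]
      simp
    have h4 : (pt i τ0 [x1, x] χ).count true = S.card := by
      rw [pt_count i τ0 [x1, x] χ (by rw [hχ, hc]), hS]
    rw [h1]
    rw [h3] at h4 ⊢
    exact hH (hge hC) _ x h4
  · rw [if_neg hC]
    have hlen : (cem (cst [] (fill τ0 χ)) (fill [x1, x] (χ.drop (τ0.count true)))).length = 2 := by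
      rw [cem_length, length_fill]
      rfl
    have h1 : ne i τ0 [x1, x] χ ≤ 1 := by
      by_contra hcon
      apply hC
      have h2 : ne i τ0 [x1, x] χ = 2 := by
        have h3 : ne i τ0 [x1, x] χ ≤ 2 := by
          unfold ne
          rw [← hlen]
          exact List.count_le_length
        omega
      have h4 : (cem (cst [] (fill τ0 χ)) (fill [x1, x] (χ.drop (τ0.count true)))) =
          List.replicate 2 (some i) := by
        rw [List.eq_replicate_iff]
        refine ⟨hlen, fun b hb => ?_⟩
        have h5 := List.count_eq_length.1 ((show (cem (cst [] (fill τ0 χ))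
          (fill [x1, x] (χ.drop (τ0.count true)))).count (some i) = _ from h2).trans hlen.symm) b hb
        exact h5.symm
      rw [h4]
      rfl
    rw [cnt_small _ h1]

theorem num_par2 (N1 N2 : ℕ) (h1 : 1 ≤ N1) (h2 : 1 ≤ N2) (x : Bool) :
    (if 2 ≤ N1 then (N1 + N2 - 2).choose (N1 - 2) else 0) * (bd2 N1 x * N2.factorial) +
      (if 2 ≤ N2 then (N1 + N2 - 2).choose N1 else 0) * (bd2 N2 x * N1.factorial) ≤ bd2 (N1 + N2) x := by
  rw [p2_t1, p2_t2]
  obtain ⟨a, rfl⟩ : ∃ a, N1 = a + 1 := ⟨N1 - 1, by omega⟩
  obtain ⟨b, rfl⟩ : ∃ b, N2 = b + 1 := ⟨N2 - 1, by omega⟩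
  rw [show a + 1 + (b + 1) = (a + b) + 2 by omega, p2_bd]
  simp only [Nat.add_sub_cancel]
  have h : (a + b + 2 - 2).factorial = (a + b).factorial := by rw [Nat.add_sub_cancel]
  cases x
  · simp
  · simp only [if_true, one_mul]
    calc a * (a + b).factorial + b * (a + b).factorial = (a + b) * (a + b).factorial := by ring
      _ ≤ (a + b + 1) * (a + b).factorial := Nat.mul_le_mul_right _ (by omega)

theorem par2 (S1 S2 : Finset α) (hn1 : S1.Nonempty) (hn2 : S2.Nonempty) (hd : Disjoint S1 S2)
    (hno : ∀ x ∈ S1, ∀ y ∈ S2, ¬ x < y ∧ ¬ y < x) (h1 : H2 S1) (h2 : H2 S2) : H2 (S1 ∪ S2) := by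
  intro hN τ x hcount
  have hcard : (S1 ∪ S2).card = S1.card + S2.card := Finset.card_union_of_disjoint hd
  rw [hcard] at hN hcount ⊢
  rcases List.eq_nil_or_concat τ with rfl | ⟨τ0, x1, rfl⟩
  · exfalso
    have h3 : ([] ++ [x] : List Bool).count true ≤ ([] ++ [x] : List Bool).length :=
      List.count_le_length
    simp only [List.nil_append, List.length_singleton] at h3
    rw [List.nil_append] at hcount
    omega
  rw [List.concat_eq_append, List.append_assoc] at hcount ⊢
  change (τ0 ++ [x1, x]).count true = _ at hcount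
  change cnt 2 (S1 ∪ S2) (τ0 ++ [x1, x]) ≤ _
  set C : List Bool → List (Option Bool) := fun χ =>
    cem (cst [] (fill τ0 χ)) (fill [x1, x] (χ.drop (τ0.count true))) with hCdef
  have hE1 := card_ec S1.card S2.card τ0 [x1, x] hcount [true, true] rfl
  have hE2 := card_ec S1.card S2.card τ0 [x1, x] hcount [false, false] rfl
  have hE1' : ((cols S1.card S2.card).filter fun χ => C χ = [some true, some true]).card ≤
      if 2 ≤ S1.card then (S1.card + S2.card - 2).choose (S1.card - 2) else 0 := by
    simpa using hE1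
  have hE2' : ((cols S1.card S2.card).filter fun χ => C χ = [some false, some false]).card ≤
      if 2 ≤ S2.card then (S1.card + S2.card - 2).choose S1.card else 0 := by
    simpa using hE2
  have hstep : cnt 2 (S1 ∪ S2) (τ0 ++ [x1, x]) ≤ ∑ χ ∈ cols S1.card S2.card,
      ((if C χ = [some true, some true] then bd2 S1.card x else 0) * S2.card.factorial +
        (if C χ = [some false, some false] then bd2 S2.card x else 0) * S1.card.factorial) := by
    unfold cnt
    refine (count_mix S1 S2 hd _).trans (Finset.sum_le_sum fun χ hχ => ?_)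
    refine (par_fix S1 S2 hd hno τ0 [x1, x] χ hχ hcount).trans ?_
    have hm := mem_cols.1 hχ
    refine Nat.add_le_add (Nat.mul_le_mul_right _ ?_) (Nat.mul_le_mul_right _ ?_)
    · refine p2_one S1 true τ0 x1 x χ _ (cols_count hχ) hcount hm.1 h1 fun hC => ?_
      by_contra hlt
      rw [if_neg hlt, Nat.le_zero, Finset.card_eq_zero] at hE1'
      have : χ ∈ ((cols S1.card S2.card).filter fun χ => C χ = [some true, some true]) :=
        Finset.mem_filter.2 ⟨hχ, hC⟩
      rw [hE1'] at this
      exact Finset.notMem_empty _ this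
    · refine p2_one S2 false τ0 x1 x χ _ (cols_count hχ) hcount hm.2 h2 fun hC => ?_
      by_contra hlt
      rw [if_neg hlt, Nat.le_zero, Finset.card_eq_zero] at hE2'
      have : χ ∈ ((cols S1.card S2.card).filter fun χ => C χ = [some false, some false]) :=
        Finset.mem_filter.2 ⟨hχ, hC⟩
      rw [hE2'] at this
      exact Finset.notMem_empty _ this
  refine hstep.trans ?_
  rw [Finset.sum_add_distrib]
  have hs1 : ∑ χ ∈ cols S1.card S2.card,
      (if C χ = [some true, some true] then bd2 S1.card x else 0) * S2.card.factorial ≤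
      (if 2 ≤ S1.card then (S1.card + S2.card - 2).choose (S1.card - 2) else 0) *
        (bd2 S1.card x * S2.card.factorial) := by
    rw [← Finset.sum_mul, ← Finset.sum_filter, Finset.sum_const, smul_eq_mul, mul_assoc]
    exact Nat.mul_le_mul_right _ hE1'
  have hs2 : ∑ χ ∈ cols S1.card S2.card,
      (if C χ = [some false, some false] then bd2 S2.card x else 0) * S1.card.factorial ≤
      (if 2 ≤ S2.card then (S1.card + S2.card - 2).choose S1.card else 0) *
        (bd2 S2.card x * S1.card.factorial) := by
    rw [← Finset.sum_mul, ← Finset.sum_filter, Finset.sum_const, smul_eq_mul, mul_assoc]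
    exact Nat.mul_le_mul_right _ hE2'
  exact (Nat.add_le_add hs1 hs2).trans (num_par2 S1.card S2.card (Finset.card_pos.2 hn1)
    (Finset.card_pos.2 hn2) x)

end Pool.Agent.Work.MP_5db8eb_co.SP
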