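import Pool.Agent.Work.MP_5db8eb_co.SP.Defs

set_option autoImplicit false

/-!
# SP/NumP (size M)

The numerical inequality for `Par3` (checked by computer for `N1, N2 ≤ 11`).
PROOF. `N = N1 + N2`, cases on `x`, `y`. Use `Nat.choose_mul_factorial_mul_factorial` (`(N-3).choose (N1-3) * (N1-3)! * N2! = (N-3)!`, …), write `N1! = N1 (N1-1)!` and so on. Divided by `(N-3)!` the terms are
(for `N1 ≥ 3`; they are also correct for `N1 ≤ 2` because of the factors `N1 - 1`, `N1 - 2`):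
 `x = y = true`: first term `(3 N1 - 4)(N1 - 2)`, second `3 (N1 - 1) N2`, third `(3 N2 - 4)(N2 - 2)` (0 if `N2 ≤ 2`), fourth `3 (N2 - 1) N1`, right side `(3 N - 4)(N - 2)`;
   the sum is `3 (N1 - 1)(N - 2) - (N1 - 2)_+ + 3 (N2 - 1)(N - 2) - (N2 - 2)_+ ≤ 3 (N - 2)^2 ≤ (3 N - 4)(N - 2)`.
 `x = false, y = true`: `2 (N1-1)(N1-2) + 2 (N1-1) N2 + 2 (N2-1)(N2-2) + 2 (N2-1) N1 = 2 (N-2)(N-2) ≤ 2 (N-1)(N-2)`.
 `x = true, y = false`: half of this.  `x = y = false`: 0.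
(Suggestion: distinguish `N1 = 1`, `N1 = 2`, `N1 = n + 3` and the same for `N2`.)
-/

namespace Pool.Agent.Work.MP_5db8eb_co.SP

open Classical


private def c1 (N : ℕ) (x y : Bool) : ℕ :=
  if y then (if x then (3 * N - 4) * (N - 2) else 2 * ((N - 1) * (N - 2)))
  else (if x then (N - 1) * (N - 2) else 0)

private def b1 (x : Bool) : ℕ := if x then 1 else 0

private theorem chf (a b : ℕ) :
    (a + b).choose a * a.factorial * b.factorial = (a + b).factorial := by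
  rw [Nat.choose_symm_add, Nat.add_choose_mul_factorial_mul_factorial]

private theorem bd3_eq (a : ℕ) (x y : Bool) :
    bd3 (a + 3) x y = c1 (a + 3) x y * a.factorial := by
  have h1 : (a + 3 - 1).factorial = (a + 2) * ((a + 1) * a.factorial) := by
    rw [show a + 3 - 1 = a + 1 + 1 by omega, Nat.factorial_succ, Nat.factorial_succ]
  have h2 : (a + 3 - 2).factorial = (a + 1) * a.factorial := by
    rw [show a + 3 - 2 = a + 1 by omega, Nat.factorial_succ]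
  have h3 : a + 3 - 1 = a + 2 := by omega
  have h4 : a + 3 - 2 = a + 1 := by omega
  unfold bd3 c1
  cases x <;> cases y <;> simp only [if_true, if_false, Bool.false_eq_true, zero_mul]
  · rw [h1, h3, h4]; ring
  · rw [h1, h3, h4]; ring
  · rw [h2, h4]; ring

private theorem bd2_eq (b : ℕ) (x : Bool) : bd2 (b + 2) x = b1 x * (b + 1) * b.factorial := by
  unfold bd2 b1
  cases x
  · simp
  · simp only [if_true]
    rw [show b + 2 - 1 = b + 1 by omega, Nat.factorial_succ]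
    ring

private theorem t1 (N1 N2 : ℕ) (x y : Bool) :
    (if 3 ≤ N1 then (N1 + N2 - 3).choose (N1 - 3) else 0) * (bd3 N1 x y * N2.factorial) =
      c1 N1 x y * (N1 + N2 - 3).factorial := by
  rcases N1 with _ | _ | _ | a
  · simp [c1]
  · simp [c1]
  · simp [c1]
  · rw [if_pos (by omega), bd3_eq, show a + 1 + 1 + 1 + N2 - 3 = a + N2 by omega,
      show a + 1 + 1 + 1 - 3 = a by omega, ← chf a N2]
    ring

private theorem t3 (N1 N2 : ℕ) (x y : Bool) :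
    (if 3 ≤ N2 then (N1 + N2 - 3).choose N1 else 0) * (bd3 N2 x y * N1.factorial) =
      c1 N2 x y * (N1 + N2 - 3).factorial := by
  rcases N2 with _ | _ | _ | a
  · simp [c1]
  · simp [c1]
  · simp [c1]
  · rw [if_pos (by omega), bd3_eq, show N1 + (a + 1 + 1 + 1) - 3 = N1 + a by omega,
      ← chf N1 a]
    ring

private theorem t2 (N1 N2 : ℕ) (h2 : 1 ≤ N2) (x y : Bool) :
    (if 2 ≤ N1 then (N1 + N2 - 3).choose (N1 - 2) else 0) *
      ((bd2 N1 x + 2 * bd2 N1 y) * N2.factorial) =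
      (b1 x + 2 * b1 y) * (N1 - 1) * N2 * (N1 + N2 - 3).factorial := by
  obtain ⟨M, rfl⟩ : ∃ M, N2 = M + 1 := ⟨N2 - 1, by omega⟩
  rcases N1 with _ | _ | a
  · simp
  · simp
  · rw [if_pos (by omega), bd2_eq, bd2_eq, show a + 1 + 1 + (M + 1) - 3 = a + M by omega,
      show a + 1 + 1 - 2 = a by omega, show a + 1 + 1 - 1 = a + 1 by omega,
      ← chf a M, Nat.factorial_succ]
    ring

private theorem t4 (N1 N2 : ℕ) (h1 : 1 ≤ N1) (x y : Bool) :
    (if 2 ≤ N2 then (N1 + N2 - 3).choose (N1 - 1) else 0) *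
      ((bd2 N2 x + 2 * bd2 N2 y) * N1.factorial) =
      (b1 x + 2 * b1 y) * (N2 - 1) * N1 * (N1 + N2 - 3).factorial := by
  obtain ⟨M, rfl⟩ : ∃ M, N1 = M + 1 := ⟨N1 - 1, by omega⟩
  rcases N2 with _ | _ | a
  · simp
  · simp
  · rw [if_pos (by omega), bd2_eq, bd2_eq, show M + 1 + (a + 1 + 1) - 3 = M + a by omega,
      show M + 1 - 1 = M by omega, show a + 1 + 1 - 1 = a + 1 by omega,
      ← chf M a, Nat.factorial_succ]
    ring

private theorem num_c (N1 N2 : ℕ) (h1 : 1 ≤ N1) (h2 : 1 ≤ N2) (x y : Bool) :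
    c1 N1 x y + (b1 x + 2 * b1 y) * (N1 - 1) * N2 + c1 N2 x y +
      (b1 x + 2 * b1 y) * (N2 - 1) * N1 ≤ c1 (N1 + N2) x y := by
  obtain ⟨M1, rfl⟩ : ∃ M, N1 = M + 1 := ⟨N1 - 1, by omega⟩
  obtain ⟨M2, rfl⟩ : ∃ M, N2 = M + 1 := ⟨N2 - 1, by omega⟩
  unfold c1 b1
  have e1 : M1 + 1 + (M2 + 1) - 1 = M1 + M2 + 1 := by omega
  have e2 : M1 + 1 + (M2 + 1) - 2 = M1 + M2 := by omega
  have e3 : 3 * (M1 + 1 + (M2 + 1)) - 4 = 3 * (M1 + M2) + 2 := by omega
  rw [e1, e2, e3]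
  rcases M1 with _ | a <;> rcases M2 with _ | b <;> cases x <;> cases y <;>
    simp only [if_true, if_false, Bool.false_eq_true, zero_mul, mul_zero, add_zero, zero_add,
      le_refl, Nat.add_sub_cancel] <;>
    (try simp) <;>
    (try (have e4 : 3 * (a + 1 + 1) - 4 = 3 * a + 2 := by omega
          have e5 : a + 1 + 1 - 2 = a := by omega
          simp only [e4, e5])) <;>
    (try (have e6 : 3 * (b + 1 + 1) - 4 = 3 * b + 2 := by omega
          have e7 : b + 1 + 1 - 2 = b := by omega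
          simp only [e6, e7])) <;>
    (try nlinarith)

theorem num_par3 (N1 N2 : ℕ) (h1 : 1 ≤ N1) (h2 : 1 ≤ N2) (h : 3 ≤ N1 + N2) (x y : Bool) :
    (if 3 ≤ N1 then (N1 + N2 - 3).choose (N1 - 3) else 0) * (bd3 N1 x y * N2.factorial) +
    (if 2 ≤ N1 then (N1 + N2 - 3).choose (N1 - 2) else 0) * ((bd2 N1 x + 2 * bd2 N1 y) * N2.factorial) +
    (if 3 ≤ N2 then (N1 + N2 - 3).choose N1 else 0) * (bd3 N2 x y * N1.factorial) +
    (if 2 ≤ N2 then (N1 + N2 - 3).choose (N1 - 1) else 0) * ((bd2 N2 x + 2 * bd2 N2 y) * N1.factorial) ≤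
      bd3 (N1 + N2) x y := by
  rw [t1, t2 N1 N2 h2, t3, t4 N1 N2 h1]
  obtain ⟨a, ha⟩ : ∃ a, N1 + N2 = a + 3 := ⟨N1 + N2 - 3, by omega⟩
  have hc := num_c N1 N2 h1 h2 x y
  rw [ha] at hc ⊢
  rw [bd3_eq, Nat.add_sub_cancel]
  calc _ = (c1 N1 x y + (b1 x + 2 * b1 y) * (N1 - 1) * N2 + c1 N2 x y +
      (b1 x + 2 * b1 y) * (N2 - 1) * N1) * a.factorial := by ring
    _ ≤ _ := Nat.mul_le_mul_right _ hc

end Pool.Agent.Work.MP_5db8eb_co.SP
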