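import Pool.Agent.Work.MP_5db8eb_co.SP.ParK
import Pool.Agent.Work.MP_5db8eb_co.SP.NumP

set_option autoImplicit false

/-!
# SP/Par3 (size M-L)

Words unsorted after `n - 3` steps, union of two sets without relations.
PROOF. `τ ++ [x, y] = τ0 ++ [x1, x, y]` (there are at least 3 places; `σ = [x1, x, y]`). `count_mix`, `par_fix` for every `χ`. All three letters which come out exist (`emk_some` with `3 ≤ N`, `em_col`), so the list of the
colours is `o.map some` with `o` one of the 8 lists of length 3. `pt i` is `patA .. ++` (the entries `x1, x, y` of the events of colour `i`): by definition of `patE` and `fill_isSome`; `pt_count`: the number of `true`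
in `pt i` is `|S_i|`. So by `H3`, `H2`, `cnt_small` the bound of `par_fix` is at most
 `bd3 |S1| x y * |S2|!` for `o = ttt`; `bd2 |S1| x * |S2|!` for `ttf`; `bd2 |S1| y * |S2|!` for `tft` and `ftt`; `bd3 |S2| x y * |S1|!` for `fff`; `bd2 |S2| x * |S1|!` for `fft`; `bd2 |S2| y * |S1|!` for `ftf` and `tff`.
The number of the `χ` with given `o` is bounded by `card_ec`: `ttt`: `(N-3).choose (N1-3)` if `N1 ≥ 3` else 0; two `t`: `(N-3).choose (N1-2)` if `N1 ≥ 2` (and `N2 ≥ 1`) else 0; one `t`: `(N-3).choose (N1-1)` if `N2 ≥ 2` else 0;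
`fff`: `(N-3).choose N1` if `N2 ≥ 3` else 0. Sum over the 8 lists: `num_par3`.
-/

namespace Pool.Agent.Work.MP_5db8eb_co.SP

open Classical

private theorem cem_some (E : List (Option Bool)) : ∀ q : List Bool,
    (E.map Option.isSome).count false ≤ q.length → ∀ o ∈ cem q E, o.isSome = true := by
  induction E with
  | nil =>
    intro q _ o ho
    simp [cem] at ho
  | cons e E ih =>
    intro q h o ho
    cases e with
    | some b =>
      rw [cem] at ho
      simp only [cev] at ho
      rcases List.mem_cons.1 ho with rfl | ho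
      · rfl
      · refine ih q ?_ o ho
        rw [List.map_cons, List.count_cons] at h
        omega
    | none =>
      cases q with
      | nil =>
        rw [List.map_cons, List.count_cons] at h
        simp at h
      | cons b q =>
        rw [cem] at ho
        simp only [cev] at ho
        rcases List.mem_cons.1 ho with rfl | ho
        · rfl
        · refine ih q ?_ o ho
          rw [List.map_cons, List.count_cons] at h
          simp at h
          omega

private theorem cst_len (E : List (Option Bool)) : ∀ q : List Bool,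
    (cst q E).length = q.length + E.reduceOption.length := by
  induction E with
  | nil =>
    intro q
    simp [cst]
  | cons e E ih =>
    intro q
    have h1 : cst q (e :: E) = cst (capp q e) E := rfl
    rw [h1, ih]
    cases e with
    | some b =>
      rw [List.reduceOption_cons_of_some]
      have h2 : capp q (some b) = q ++ [b] := rfl
      rw [h2, List.length_append, List.length_cons, List.length_cons, List.length_nil]
      omega
    | none =>
      rw [List.reduceOption_cons_of_none]
      cases q with
      | nil => rfl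
      | cons b q =>
        have h2 : capp (b :: q) none = q ++ [b] := rfl
        rw [h2, List.length_append, List.length_cons, List.length_cons, List.length_nil]

private theorem patE_zip (i : Bool) (E : List (Option Bool)) : ∀ q : List Bool, patE i q E =
    (((cem q E).zip (E.map Option.isSome)).filter (fun a => a.1 == some i)).map Prod.snd := by
  induction E with
  | nil =>
    intro q
    rfl
  | cons e E ih =>
    intro q
    rw [patE, cem, ih, List.map_cons, List.zip_cons_cons, List.filter_cons]
    by_cases h : (cev q e).2 = some i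
    · rw [if_pos h, if_pos (by rw [h]; simp), List.map_cons]
      rfl
    · rw [if_neg h, if_neg (by simpa using h)]
      rfl

/-- the colours which come out -/
private theorem cem_three (τ χ : List Bool) (x1 x y : Bool)
    (h : χ.length = (τ ++ [x1, x, y]).count true) (h3 : 3 ≤ (τ ++ [x1, x, y]).count true) :
    (fill [x1, x, y] (χ.drop (τ.count true))).map Option.isSome = [x1, x, y] ∧
    ∃ a b c, cem (cst [] (fill τ χ)) (fill [x1, x, y] (χ.drop (τ.count true))) =
      [some a, some b, some c] := by
  have hc : (τ ++ [x1, x, y]).count true = τ.count true + [x1, x, y].count true :=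
    List.count_append
  have hd : (χ.drop (τ.count true)).length = [x1, x, y].count true := by
    rw [List.length_drop]
    omega
  have hE : (fill [x1, x, y] (χ.drop (τ.count true))).map Option.isSome = [x1, x, y] :=
    fill_isSome _ _ hd.ge
  refine ⟨hE, ?_⟩
  have hlen : (cem (cst [] (fill τ χ)) (fill [x1, x, y] (χ.drop (τ.count true)))).length = 3 := by
    rw [cem_length, length_fill]
    rfl
  have hQ : (cst [] (fill τ χ)).length = τ.count true := by
    rw [cst_len, fill_reduce τ χ (by omega), List.length_take, List.length_nil]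
    omega
  have hs : [x1, x, y].count true + [x1, x, y].count false = 3 :=
    List.count_true_add_count_false _
  have hall := cem_some (fill [x1, x, y] (χ.drop (τ.count true))) (cst [] (fill τ χ))
    (by rw [hE, hQ]; omega)
  obtain ⟨o1, o2, o3, ho⟩ := List.length_eq_three.1 hlen
  rw [ho] at hall ⊢
  obtain ⟨a, ha⟩ := Option.isSome_iff_exists.1 (hall o1 (by simp))
  obtain ⟨b, hb⟩ := Option.isSome_iff_exists.1 (hall o2 (by simp))
  obtain ⟨c, hc⟩ := Option.isSome_iff_exists.1 (hall o3 (by simp))
  exact ⟨a, b, c, by rw [ha, hb, hc]⟩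

private theorem pt_eval (i : Bool) (τ χ : List Bool) (x1 x y a b c : Bool)
    (hE : (fill [x1, x, y] (χ.drop (τ.count true))).map Option.isSome = [x1, x, y])
    (hc : cem (cst [] (fill τ χ)) (fill [x1, x, y] (χ.drop (τ.count true))) =
      [some a, some b, some c]) :
    pt i τ [x1, x, y] χ = patA i [] (fill τ χ) ++
      ((([some a, some b, some c].zip [x1, x, y]).filter (fun a => a.1 == some i)).map Prod.snd) := by
  unfold pt
  rw [patE_zip, hE, hc]

private theorem ne_eval (i : Bool) (τ χ : List Bool) (x1 x y a b c : Bool)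
    (hc : cem (cst [] (fill τ χ)) (fill [x1, x, y] (χ.drop (τ.count true))) =
      [some a, some b, some c]) :
    ne i τ [x1, x, y] χ = [some a, some b, some c].count (some i) := by
  unfold ne
  rw [hc]

private theorem fib (N1 N2 : ℕ) (τ : List Bool) (x1 x y : Bool)
    (h : (τ ++ [x1, x, y]).count true = N1 + N2) (B : List Bool → ℕ) (a b c : Bool) (β : ℕ)
    (hβ : ∀ χ ∈ cols N1 N2, cem (cst [] (fill τ χ)) (fill [x1, x, y] (χ.drop (τ.count true))) =
      [some a, some b, some c] → [a, b, c].count true ≤ N1 → [a, b, c].count false ≤ N2 →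
      B χ ≤ β) :
    ∑ χ ∈ (cols N1 N2).filter (fun χ => cem (cst [] (fill τ χ))
      (fill [x1, x, y] (χ.drop (τ.count true))) = [some a, some b, some c]), B χ ≤
    (if [a, b, c].count true ≤ N1 ∧ [a, b, c].count false ≤ N2 then
      (N1 + N2 - 3).choose (N1 - [a, b, c].count true) else 0) * β := by
  have hcard := card_ec N1 N2 τ [x1, x, y] h [a, b, c] rfl
  have he : ([a, b, c] : List Bool).map some = [some a, some b, some c] := rfl
  have hl : ([a, b, c] : List Bool).length = 3 := rfl
  rw [he, hl] at hcard
  by_cases hc : [a, b, c].count true ≤ N1 ∧ [a, b, c].count false ≤ N2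
  · refine (Finset.sum_le_card_nsmul _ _ β fun χ hχ => ?_).trans ?_
    · rw [Finset.mem_filter] at hχ
      exact hβ χ hχ.1 hχ.2 hc.1 hc.2
    · rw [smul_eq_mul]
      exact Nat.mul_le_mul_right _ hcard
  · rw [if_neg hc] at hcard ⊢
    rw [Finset.card_eq_zero.1 (Nat.le_zero.1 hcard), Finset.sum_empty, zero_mul]

variable {α : Type*} [PartialOrder α]

private theorem k3 {S : Finset α} (h : H3 S) (P : List Bool) (x1 x y : Bool)
    (hc : (P ++ [x1, x, y]).count true = S.card) (h3 : 3 ≤ S.card) :
    cnt 3 S (P ++ [x1, x, y]) ≤ bd3 S.card x y := by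
  have he : P ++ [x1, x, y] = (P ++ [x1]) ++ [x, y] := by simp
  rw [he] at hc ⊢
  exact h h3 (P ++ [x1]) x y hc

private theorem k2 {S : Finset α} (h : H2 S) (P : List Bool) (u v : Bool)
    (hc : (P ++ [u, v]).count true = S.card) (h2 : 2 ≤ S.card) :
    cnt 2 S (P ++ [u, v]) ≤ bd2 S.card v := by
  have he : P ++ [u, v] = (P ++ [u]) ++ [v] := by simp
  rw [he] at hc ⊢
  exact h h2 (P ++ [u]) v hc

/-- the bound for given colours -/
private def bv (N1 N2 : ℕ) (x y a b c : Bool) : ℕ :=
  match a, b, c with
  | true, true, true => bd3 N1 x y * N2.factorial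
  | true, true, false => bd2 N1 x * N2.factorial
  | true, false, true => bd2 N1 y * N2.factorial
  | false, true, true => bd2 N1 y * N2.factorial
  | false, false, false => bd3 N2 x y * N1.factorial
  | false, false, true => bd2 N2 x * N1.factorial
  | false, true, false => bd2 N2 y * N1.factorial
  | true, false, false => bd2 N2 y * N1.factorial

private theorem bound {S1 S2 : Finset α} (h1 : H2 S1) (h2 : H2 S2) (h1' : H3 S1) (h2' : H3 S2)
    (τ χ : List Bool) (x1 x y a b c : Bool)
    (h : (τ ++ [x1, x, y]).count true = S1.card + S2.card) (hχ : χ ∈ cols S1.card S2.card)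
    (hE : (fill [x1, x, y] (χ.drop (τ.count true))).map Option.isSome = [x1, x, y])
    (hc : cem (cst [] (fill τ χ)) (fill [x1, x, y] (χ.drop (τ.count true))) =
      [some a, some b, some c]) (hn1 : [a, b, c].count true ≤ S1.card)
    (hn2 : [a, b, c].count false ≤ S2.card) :
    cnt (ne true τ [x1, x, y] χ) S1 (pt true τ [x1, x, y] χ) * S2.card.factorial +
        cnt (ne false τ [x1, x, y] χ) S2 (pt false τ [x1, x, y] χ) * S1.card.factorial ≤
      bv S1.card S2.card x y a b c := by
  have hcol := mem_cols.1 hχ
  have hlen : χ.length = (τ ++ [x1, x, y]).count true := by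
    rw [h, ← hcol.1, ← hcol.2]
    exact (List.count_true_add_count_false χ).symm
  have hp1 := pt_count true τ [x1, x, y] χ hlen
  have hp2 := pt_count false τ [x1, x, y] χ hlen
  rw [hcol.1] at hp1
  rw [hcol.2] at hp2
  have e1 := pt_eval true τ χ x1 x y a b c hE hc
  have e2 := pt_eval false τ χ x1 x y a b c hE hc
  have f1 := ne_eval true τ χ x1 x y a b c hc
  have f2 := ne_eval false τ χ x1 x y a b c hc
  have small : ∀ (k : ℕ) (S : Finset α) (σ : List Bool) (m n : ℕ), k ≤ 1 → m ≤ n →
      m + cnt k S σ * S1.card.factorial ≤ n := by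
    intro k S σ m n hk hm
    rw [cnt_small k hk, zero_mul, add_zero]
    exact hm
  have small' : ∀ (k : ℕ) (S : Finset α) (σ : List Bool) (m n : ℕ), k ≤ 1 → m ≤ n →
      cnt k S σ * S2.card.factorial + m ≤ n := by
    intro k S σ m n hk hm
    rw [cnt_small k hk, zero_mul, zero_add]
    exact hm
  cases a <;> cases b <;> cases c
  · -- fff
    have g2 : ne false τ [x1, x, y] χ = 3 := f2
    have g2' : pt false τ [x1, x, y] χ = patA false [] (fill τ χ) ++ [x1, x, y] := e2
    have g1 : ne true τ [x1, x, y] χ ≤ 1 := by rw [f1]; decide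
    rw [g2'] at hp2
    refine small' _ _ _ _ _ g1 (Nat.mul_le_mul_right _ ?_)
    rw [g2, g2']
    exact k3 h2' _ _ _ _ hp2 hn2
  · -- fft
    have g2 : ne false τ [x1, x, y] χ = 2 := f2
    have g2' : pt false τ [x1, x, y] χ = patA false [] (fill τ χ) ++ [x1, x] := e2
    have g1 : ne true τ [x1, x, y] χ ≤ 1 := by rw [f1]; decide
    rw [g2'] at hp2
    refine small' _ _ _ _ _ g1 (Nat.mul_le_mul_right _ ?_)
    rw [g2, g2']
    exact k2 h2 _ _ _ hp2 hn2
  · -- ftf
    have g2 : ne false τ [x1, x, y] χ = 2 := f2
    have g2' : pt false τ [x1, x, y] χ = patA false [] (fill τ χ) ++ [x1, y] := e2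
    have g1 : ne true τ [x1, x, y] χ ≤ 1 := by rw [f1]; decide
    rw [g2'] at hp2
    refine small' _ _ _ _ _ g1 (Nat.mul_le_mul_right _ ?_)
    rw [g2, g2']
    exact k2 h2 _ _ _ hp2 hn2
  · -- ftt
    have g2 : ne true τ [x1, x, y] χ = 2 := f1
    have g2' : pt true τ [x1, x, y] χ = patA true [] (fill τ χ) ++ [x, y] := e1
    have g1 : ne false τ [x1, x, y] χ ≤ 1 := by rw [f2]; decide
    rw [g2'] at hp1
    refine small _ _ _ _ _ g1 (Nat.mul_le_mul_right _ ?_)
    rw [g2, g2']
    exact k2 h1 _ _ _ hp1 hn1
  · -- tff
    have g2 : ne false τ [x1, x, y] χ = 2 := f2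
    have g2' : pt false τ [x1, x, y] χ = patA false [] (fill τ χ) ++ [x, y] := e2
    have g1 : ne true τ [x1, x, y] χ ≤ 1 := by rw [f1]; decide
    rw [g2'] at hp2
    refine small' _ _ _ _ _ g1 (Nat.mul_le_mul_right _ ?_)
    rw [g2, g2']
    exact k2 h2 _ _ _ hp2 hn2
  · -- tft
    have g2 : ne true τ [x1, x, y] χ = 2 := f1
    have g2' : pt true τ [x1, x, y] χ = patA true [] (fill τ χ) ++ [x1, y] := e1
    have g1 : ne false τ [x1, x, y] χ ≤ 1 := by rw [f2]; decide
    rw [g2'] at hp1
    refine small _ _ _ _ _ g1 (Nat.mul_le_mul_right _ ?_)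
    rw [g2, g2']
    exact k2 h1 _ _ _ hp1 hn1
  · -- ttf
    have g2 : ne true τ [x1, x, y] χ = 2 := f1
    have g2' : pt true τ [x1, x, y] χ = patA true [] (fill τ χ) ++ [x1, x] := e1
    have g1 : ne false τ [x1, x, y] χ ≤ 1 := by rw [f2]; decide
    rw [g2'] at hp1
    refine small _ _ _ _ _ g1 (Nat.mul_le_mul_right _ ?_)
    rw [g2, g2']
    exact k2 h1 _ _ _ hp1 hn1
  · -- ttt
    have g2 : ne true τ [x1, x, y] χ = 3 := f1
    have g2' : pt true τ [x1, x, y] χ = patA true [] (fill τ χ) ++ [x1, x, y] := e1
    have g1 : ne false τ [x1, x, y] χ ≤ 1 := by rw [f2]; decide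
    rw [g2'] at hp1
    refine small _ _ _ _ _ g1 (Nat.mul_le_mul_right _ ?_)
    rw [g2, g2']
    exact k3 h1' _ _ _ _ hp1 hn1

theorem par3 (S1 S2 : Finset α) (hn1 : S1.Nonempty) (hn2 : S2.Nonempty) (hd : Disjoint S1 S2)
    (hno : ∀ x ∈ S1, ∀ y ∈ S2, ¬ x < y ∧ ¬ y < x) (h1 : H2 S1) (h2 : H2 S2) (h1' : H3 S1) (h2' : H3 S2) :
    H3 (S1 ∪ S2) := by
  intro h3 τ' x y hτ'
  rw [Finset.card_union_of_disjoint hd] at h3 hτ' ⊢
  obtain ⟨τ, x1, rfl⟩ : ∃ τ x1, τ' = τ ++ [x1] := by
    rcases List.eq_nil_or_concat' τ' with rfl | h
    · exfalso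
      have h4 : ([] ++ [x, y] : List Bool).count true ≤ 2 := List.count_le_length
      omega
    · exact h
  have he : (τ ++ [x1]) ++ [x, y] = τ ++ [x1, x, y] := by simp
  rw [he] at hτ' ⊢
  have hp1 := hn1.card_pos
  have hp2 := hn2.card_pos
  set B : List Bool → ℕ := fun χ =>
    cnt (ne true τ [x1, x, y] χ) S1 (pt true τ [x1, x, y] χ) * S2.card.factorial +
        cnt (ne false τ [x1, x, y] χ) S2 (pt false τ [x1, x, y] χ) * S1.card.factorial with hB
  have step1 : cnt 3 (S1 ∪ S2) (τ ++ [x1, x, y]) ≤ ∑ χ ∈ cols S1.card S2.card, B χ := by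
    unfold cnt
    refine (count_mix S1 S2 hd fun s => Bad (emk 3 (fill (τ ++ [x1, x, y]) s))).trans ?_
    exact Finset.sum_le_sum fun χ hχ => par_fix S1 S2 hd hno τ [x1, x, y] χ hχ hτ'
  have hlen : ∀ χ ∈ cols S1.card S2.card, χ.length = (τ ++ [x1, x, y]).count true := by
    intro χ hχ
    have hcol := mem_cols.1 hχ
    rw [hτ', ← hcol.1, ← hcol.2]
    exact (List.count_true_add_count_false χ).symm
  have step2 : ∑ χ ∈ cols S1.card S2.card, B χ ≤ ∑ t : Bool × Bool × Bool,
      ∑ χ ∈ (cols S1.card S2.card).filter (fun χ => cem (cst [] (fill τ χ))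
        (fill [x1, x, y] (χ.drop (τ.count true))) = [some t.1, some t.2.1, some t.2.2]), B χ := by
    simp only [Finset.sum_filter]
    rw [Finset.sum_comm]
    refine Finset.sum_le_sum fun χ hχ => ?_
    obtain ⟨-, a, b, c, habc⟩ := cem_three τ χ x1 x y (hlen χ hχ) (by omega)
    have h4 := Finset.single_le_sum (s := (Finset.univ : Finset (Bool × Bool × Bool)))
      (f := fun t => if cem (cst [] (fill τ χ)) (fill [x1, x, y] (χ.drop (τ.count true))) =
        [some t.1, some t.2.1, some t.2.2] then B χ else 0) (fun _ _ => Nat.zero_le _)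
      (Finset.mem_univ (a, b, c))
    simp only at h4
    rw [if_pos habc] at h4
    exact h4
  have hβ : ∀ (a b c : Bool) (χ : List Bool), χ ∈ cols S1.card S2.card →
      cem (cst [] (fill τ χ)) (fill [x1, x, y] (χ.drop (τ.count true))) =
      [some a, some b, some c] → [a, b, c].count true ≤ S1.card →
      [a, b, c].count false ≤ S2.card → B χ ≤ bv S1.card S2.card x y a b c :=
      fun a b c χ hχ hc hm1 hm2 =>
    bound h1 h2 h1' h2' τ χ x1 x y a b c hτ' hχ
      (cem_three τ χ x1 x y (hlen χ hχ) (by omega)).1 hc hm1 hm2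
  have F := fun a b c β => fib S1.card S2.card τ x1 x y hτ' B a b c β
  have t1 := F true true true _ (hβ true true true)
  have t2 := F true true false _ (hβ true true false)
  have t3 := F true false true _ (hβ true false true)
  have t4 := F false true true _ (hβ false true true)
  have t5 := F false false false _ (hβ false false false)
  have t6 := F false false true _ (hβ false false true)
  have t7 := F false true false _ (hβ false true false)
  have t8 := F true false false _ (hβ true false false)
  have c1 : ([true, true, true] : List Bool).count true = 3 := rfl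
  have c1' : ([true, true, true] : List Bool).count false = 0 := rfl
  have c2 : ([true, true, false] : List Bool).count true = 2 := rfl
  have c2' : ([true, true, false] : List Bool).count false = 1 := rfl
  have c3 : ([true, false, true] : List Bool).count true = 2 := rfl
  have c3' : ([true, false, true] : List Bool).count false = 1 := rfl
  have c4 : ([false, true, true] : List Bool).count true = 2 := rfl
  have c4' : ([false, true, true] : List Bool).count false = 1 := rfl
  have c5 : ([false, false, false] : List Bool).count true = 0 := rfl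
  have c5' : ([false, false, false] : List Bool).count false = 3 := rfl
  have c6 : ([false, false, true] : List Bool).count true = 1 := rfl
  have c6' : ([false, false, true] : List Bool).count false = 2 := rfl
  have c7 : ([false, true, false] : List Bool).count true = 1 := rfl
  have c7' : ([false, true, false] : List Bool).count false = 2 := rfl
  have c8 : ([true, false, false] : List Bool).count true = 1 := rfl
  have c8' : ([true, false, false] : List Bool).count false = 2 := rfl
  rw [c1, c1'] at t1
  rw [c2, c2'] at t2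
  rw [c3, c3'] at t3
  rw [c4, c4'] at t4
  rw [c5, c5'] at t5
  rw [c6, c6'] at t6
  rw [c7, c7'] at t7
  rw [c8, c8'] at t8
  have v1 : bv S1.card S2.card x y true true true = bd3 S1.card x y * S2.card.factorial := rfl
  have v2 : bv S1.card S2.card x y true true false = bd2 S1.card x * S2.card.factorial := rfl
  have v3 : bv S1.card S2.card x y true false true = bd2 S1.card y * S2.card.factorial := rfl
  have v4 : bv S1.card S2.card x y false true true = bd2 S1.card y * S2.card.factorial := rfl
  have v5 : bv S1.card S2.card x y false false false = bd3 S2.card x y * S1.card.factorial := rfl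
  have v6 : bv S1.card S2.card x y false false true = bd2 S2.card x * S1.card.factorial := rfl
  have v7 : bv S1.card S2.card x y false true false = bd2 S2.card y * S1.card.factorial := rfl
  have v8 : bv S1.card S2.card x y true false false = bd2 S2.card y * S1.card.factorial := rfl
  rw [v1] at t1
  rw [v2] at t2
  rw [v3] at t3
  rw [v4] at t4
  rw [v5] at t5
  rw [v6] at t6
  rw [v7] at t7
  rw [v8] at t8
  have d0 : (0 ≤ S1.card) = True := by simp
  have d0' : (0 ≤ S2.card) = True := by simp
  have d1 : (1 ≤ S1.card) = True := by simpa using hn1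
  have d1' : (1 ≤ S2.card) = True := by simpa using hn2
  simp only [d0, d0', d1, d1', and_true, true_and, Nat.sub_zero] at t1 t2 t3 t4 t5 t6 t7 t8
  have hnum := num_par3 S1.card S2.card hp1 hp2 h3 x y
  have hsum : ∑ t : Bool × Bool × Bool,
      ∑ χ ∈ (cols S1.card S2.card).filter (fun χ => cem (cst [] (fill τ χ))
        (fill [x1, x, y] (χ.drop (τ.count true))) = [some t.1, some t.2.1, some t.2.2]), B χ ≤
      bd3 (S1.card + S2.card) x y := by
    rw [Fintype.sum_prod_type, Fintype.sum_bool, Fintype.sum_prod_type, Fintype.sum_prod_type,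
      Fintype.sum_bool, Fintype.sum_bool, Fintype.sum_bool, Fintype.sum_bool, Fintype.sum_bool,
      Fintype.sum_bool]
    refine le_trans ?_ hnum
    refine (add_le_add (add_le_add (add_le_add t1 t2) (add_le_add t3 t8))
      (add_le_add (add_le_add t4 t7) (add_le_add t6 t5))).trans (le_of_eq ?_)
    ring
  exact (step1.trans step2).trans hsum

end Pool.Agent.Work.MP_5db8eb_co.SP
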