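import Pool.Agent.Work.MP_5db8eb_co.SP.SerA

set_option autoImplicit false

/-!
# SP/SerC (size M)

`H2` and `H3` for an ordinal sum.
PROOFS. `ser2`: `|S1| = N1 ≥ 2`, `N = N1 + N2`. `ser_count`; `sel (τ ++ [x]) χ = .. ++ [b]` (`sel_append`; `χ.drop (τ.count true)` has one entry if `x = true` and none if `x = false`) with `b = false` if `x = false`, and `b` = last entry of `χ` if `x = true`.
So the bound is 0 for `x = false`, and for `x = true` the sum over the `χ` with last entry `true` of `(N1-1)! N2!`: `card_cols_suffix` with `l = [true]`: `(N-1).choose (N1-1) (N1-1)! N2! = (N-1)!`. (`H2 S1` is used with the pattern `sel (τ ++ [x]) χ`, `sel_count`.)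
`ser3`: `sel (τ ++ [x, y]) χ` ends with `[b1, b2]`. `x = y = false`: 0. `x = true, y = false`: `[b, false]`, `b` last entry of `χ`: `(N-1).choose (N1-1) * (N1-1)! N2! = (N-1)!`. `x = false, y = true`: `[false, b]`: twice this.
`x = y = true`: `[b1, b2]` = the last two entries of `χ` (`card_cols_suffix` with `[b1, b2]`): the sum is
`(N-2).choose (N1-2) (3 N1 - 4) (N1-2)! N2! + (N-2).choose (N1-1) ((N1-1)! + 2 (N1-1)!) N2! = (3 N1 - 4)(N-2)! + 3 N2 (N-2)! = (3N-4)(N-2)!` (for `N2 ≥ 1`: `(N-2).choose (N1-1) (N1-1)! N2! = N2 (N-2)!`).
-/

namespace Pool.Agent.Work.MP_5db8eb_co.SP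

open Classical

variable {α : Type*} [PartialOrder α]

private theorem sum_suffix (a b v : ℕ) (l : List Bool) :
    (∑ χ ∈ cols a b, if l <:+ χ then v else 0) =
      (if l.count true ≤ a ∧ l.count false ≤ b then (a + b - l.length).choose (a - l.count true) else 0) * v := by
  rw [← card_cols_suffix, ← Finset.sum_filter, Finset.sum_const, smul_eq_mul]

private theorem len_cols {a b : ℕ} {χ : List Bool} (h : χ ∈ cols a b) : χ.length = a + b := by
  rw [mem_cols] at h
  have := List.count_true_add_count_false χ
  omega

private theorem chf (a b : ℕ) : (a + b).choose a * (a.factorial * b.factorial) = (a + b).factorial := by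
  rw [← mul_assoc, Nat.choose_symm_add, Nat.add_choose_mul_factorial_mul_factorial]

theorem ser2 (S1 S2 : Finset α) (hd : Disjoint S1 S2) (hlt : ∀ x ∈ S1, ∀ y ∈ S2, x < y) (hc : 2 ≤ S1.card)
    (hne : S2.Nonempty) (h1 : H2 S1) : H2 (S1 ∪ S2) := by
  intro _ τ x hτ
  have hcard : (S1 ∪ S2).card = S1.card + S2.card := Finset.card_union_of_disjoint hd
  have hS2 : 1 ≤ S2.card := Finset.card_pos.mpr hne
  rw [hcard] at hτ ⊢
  refine (ser_count S1 S2 hd hlt 2 hc (τ ++ [x]) hτ).trans ?_
  have hτ' := hτ
  rw [List.count_append] at hτ'
  cases x with
  | false =>
    refine (Finset.sum_le_sum (g := fun _ => 0) fun χ hχ => ?_).trans (by simp)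
    have hl := len_cols hχ
    have hb := h1 hc (sel τ χ) false (by
      have := sel_count (τ ++ [false]) χ (by omega)
      rw [sel_append _ _ _ (by omega), sel, sel] at this
      rw [this]
      exact (mem_cols.mp hχ).1)
    rw [sel_append _ _ _ (by omega), sel, sel]
    have h0 : bd2 S1.card false = 0 := by simp [bd2]
    rw [h0] at hb
    rw [Nat.le_zero.mp hb, zero_mul]
  | true =>
    have h1τ : τ.count true + 1 = S1.card + S2.card := by simpa using hτ'
    have hterm : ∀ χ ∈ cols S1.card S2.card, cnt 2 S1 (sel (τ ++ [true]) χ) * S2.card.factorial ≤
        if [true] <:+ χ then (S1.card - 1).factorial * S2.card.factorial else 0 := by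
      intro χ hχ
      have hl := len_cols hχ
      obtain ⟨c, hcd⟩ : ∃ c, χ.drop (τ.count true) = [c] := by
        apply List.length_eq_one_iff.mp
        rw [List.length_drop]
        omega
      have hsel : sel (τ ++ [true]) χ = sel τ χ ++ [c] := by
        rw [sel_append _ _ _ (by omega), hcd, sel, sel]
      have hb := h1 hc (sel τ χ) c (by
        rw [← hsel, sel_count _ _ (by omega)]
        exact (mem_cols.mp hχ).1)
      rw [hsel]
      cases c with
      | false =>
        have h0 : bd2 S1.card false = 0 := by simp [bd2]
        rw [h0] at hb
        rw [Nat.le_zero.mp hb, zero_mul]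
        exact Nat.zero_le _
      | true =>
        have hsuf : [true] <:+ χ := by
          rw [← hcd]
          exact List.drop_suffix _ _
        rw [if_pos hsuf]
        refine Nat.mul_le_mul_right _ (hb.trans ?_)
        simp [bd2]
    refine (Finset.sum_le_sum hterm).trans ?_
    rw [sum_suffix]
    obtain ⟨a, ha⟩ : ∃ a, S1.card = a + 1 := ⟨S1.card - 1, by omega⟩
    rw [ha]
    have e1 : (if [true].count true ≤ a + 1 ∧ [true].count false ≤ S2.card then
        (a + 1 + S2.card - [true].length).choose (a + 1 - [true].count true) else 0) =
        (a + S2.card).choose a := by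
      have h2 : a + 1 + S2.card - 1 = a + S2.card := by omega
      simp [h2]
    rw [e1]
    have e2 : a + 1 - 1 = a := by omega
    have e3 : a + 1 + S2.card - 1 = a + S2.card := by omega
    rw [e2, chf]
    simp [bd2, e3]

theorem ser3 (S1 S2 : Finset α) (hd : Disjoint S1 S2) (hlt : ∀ x ∈ S1, ∀ y ∈ S2, x < y) (hc : 3 ≤ S1.card)
    (hne : S2.Nonempty) (h1 : H3 S1) : H3 (S1 ∪ S2) := by
  intro _ τ x y hτ
  have hcard : (S1 ∪ S2).card = S1.card + S2.card := Finset.card_union_of_disjoint hd
  have hS2 : 1 ≤ S2.card := Finset.card_pos.mpr hne
  rw [hcard] at hτ ⊢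
  refine (ser_count S1 S2 hd hlt 3 hc (τ ++ [x, y]) hτ).trans ?_
  have hτ' := hτ
  rw [List.count_append] at hτ'
  obtain ⟨a, ha⟩ : ∃ a, S1.card = a + 2 := ⟨S1.card - 2, by omega⟩
  obtain ⟨b, hb⟩ : ∃ b, S2.card = b + 1 := ⟨S2.card - 1, by omega⟩
  -- the use of `H3 S1`
  have use : ∀ χ ∈ cols S1.card S2.card, ∀ c d, sel (τ ++ [x, y]) χ = sel τ χ ++ [c, d] →
      cnt 3 S1 (sel (τ ++ [x, y]) χ) ≤ bd3 S1.card c d := by
    intro χ hχ c d hsel
    have hl := len_cols hχ
    rw [hsel]
    apply h1 hc
    rw [← hsel, sel_count _ _ (by omega)]
    exact (mem_cols.mp hχ).1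
  -- one place `true`
  have one : ∀ v : ℕ, (∑ χ ∈ cols S1.card S2.card, if [true] <:+ χ then v * ((S1.card - 1).factorial *
      S2.card.factorial) else 0) = v * (S1.card + S2.card - 1).factorial := by
    intro v
    rw [sum_suffix]
    have e1 : (if [true].count true ≤ S1.card ∧ [true].count false ≤ S2.card then
        (S1.card + S2.card - [true].length).choose (S1.card - [true].count true) else 0) =
        (a + 1 + S2.card).choose (a + 1) := by
      have h2 : a + 2 + S2.card - 1 = a + 1 + S2.card := by omega
      simp [ha, h2]
    rw [e1]
    have e2 : S1.card - 1 = a + 1 := by omega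
    have e3 : S1.card + S2.card - 1 = a + 1 + S2.card := by omega
    rw [e2, e3, mul_left_comm, chf]
  cases x with
  | false =>
    cases y with
    | false =>
      refine (Finset.sum_le_sum (g := fun _ => 0) fun χ hχ => ?_).trans (by simp)
      have hl := len_cols hχ
      have hb := use χ hχ false false (by rw [sel_append _ _ _ (by omega), sel, sel, sel])
      have h0 : bd3 S1.card false false = 0 := by simp [bd3]
      rw [h0] at hb
      rw [Nat.le_zero.mp hb, zero_mul]
    | true =>
      have h1τ : τ.count true + 1 = S1.card + S2.card := by simpa using hτ'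
      have hterm : ∀ χ ∈ cols S1.card S2.card, cnt 3 S1 (sel (τ ++ [false, true]) χ) * S2.card.factorial ≤
          if [true] <:+ χ then 2 * ((S1.card - 1).factorial * S2.card.factorial) else 0 := by
        intro χ hχ
        have hl := len_cols hχ
        obtain ⟨c, hcd⟩ : ∃ c, χ.drop (τ.count true) = [c] := by
          apply List.length_eq_one_iff.mp
          rw [List.length_drop]
          omega
        have hsel : sel (τ ++ [false, true]) χ = sel τ χ ++ [false, c] := by
          rw [sel_append _ _ _ (by omega), hcd, sel, sel, sel]
        have hb := use χ hχ false c hsel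
        cases c with
        | false =>
          have h0 : bd3 S1.card false false = 0 := by simp [bd3]
          rw [h0] at hb
          rw [Nat.le_zero.mp hb, zero_mul]
          exact Nat.zero_le _
        | true =>
          have hsuf : [true] <:+ χ := by
            rw [← hcd]
            exact List.drop_suffix _ _
          rw [if_pos hsuf, ← mul_assoc]
          refine Nat.mul_le_mul_right _ (hb.trans ?_)
          simp [bd3]
      refine (Finset.sum_le_sum hterm).trans ?_
      rw [one 2]
      simp [bd3]
  | true =>
    cases y with
    | false =>
      have h1τ : τ.count true + 1 = S1.card + S2.card := by simpa using hτ'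
      have hterm : ∀ χ ∈ cols S1.card S2.card, cnt 3 S1 (sel (τ ++ [true, false]) χ) * S2.card.factorial ≤
          if [true] <:+ χ then 1 * ((S1.card - 1).factorial * S2.card.factorial) else 0 := by
        intro χ hχ
        have hl := len_cols hχ
        obtain ⟨c, hcd⟩ : ∃ c, χ.drop (τ.count true) = [c] := by
          apply List.length_eq_one_iff.mp
          rw [List.length_drop]
          omega
        have hsel : sel (τ ++ [true, false]) χ = sel τ χ ++ [c, false] := by
          rw [sel_append _ _ _ (by omega), hcd, sel, sel, sel]
        have hb := use χ hχ c false hsel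
        cases c with
        | false =>
          have h0 : bd3 S1.card false false = 0 := by simp [bd3]
          rw [h0] at hb
          rw [Nat.le_zero.mp hb, zero_mul]
          exact Nat.zero_le _
        | true =>
          have hsuf : [true] <:+ χ := by
            rw [← hcd]
            exact List.drop_suffix _ _
          rw [if_pos hsuf, one_mul]
          refine Nat.mul_le_mul_right _ (hb.trans ?_)
          simp [bd3]
      refine (Finset.sum_le_sum hterm).trans ?_
      rw [one 1]
      simp [bd3]
    | true =>
      have h1τ : τ.count true + 2 = S1.card + S2.card := by simpa using hτ'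
      have hterm : ∀ χ ∈ cols S1.card S2.card, cnt 3 S1 (sel (τ ++ [true, true]) χ) * S2.card.factorial ≤
          ((if [true, true] <:+ χ then (3 * S1.card - 4) * (S1.card - 2).factorial * S2.card.factorial else 0) +
            (if [false, true] <:+ χ then 2 * (S1.card - 1).factorial * S2.card.factorial else 0)) +
            (if [true, false] <:+ χ then (S1.card - 1).factorial * S2.card.factorial else 0) := by
        intro χ hχ
        have hl := len_cols hχ
        obtain ⟨c, d, hcd⟩ : ∃ c d, χ.drop (τ.count true) = [c, d] := by
          apply List.length_eq_two.mp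
          rw [List.length_drop]
          omega
        have hsel : sel (τ ++ [true, true]) χ = sel τ χ ++ [c, d] := by
          rw [sel_append _ _ _ (by omega), hcd, sel, sel, sel]
        have hb := Nat.mul_le_mul_right S2.card.factorial (use χ hχ c d hsel)
        have hsuf : [c, d] <:+ χ := by
          rw [← hcd]
          exact List.drop_suffix _ _
        refine hb.trans ?_
        cases c with
        | false =>
          cases d with
          | false => simp [bd3]
          | true =>
            rw [if_pos hsuf]
            have h0 : bd3 S1.card false true = 2 * (S1.card - 1).factorial := by simp [bd3]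
            rw [h0]
            omega
        | true =>
          cases d with
          | false =>
            rw [if_pos hsuf]
            have h0 : bd3 S1.card true false = (S1.card - 1).factorial := by simp [bd3]
            rw [h0]
            omega
          | true =>
            rw [if_pos hsuf]
            have h0 : bd3 S1.card true true = (3 * S1.card - 4) * (S1.card - 2).factorial := by simp [bd3]
            rw [h0]
            omega
      refine (Finset.sum_le_sum hterm).trans ?_
      rw [Finset.sum_add_distrib, Finset.sum_add_distrib, sum_suffix, sum_suffix, sum_suffix]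
      have e1 : (if [true, true].count true ≤ S1.card ∧ [true, true].count false ≤ S2.card then
          (S1.card + S2.card - [true, true].length).choose (S1.card - [true, true].count true) else 0) =
          (a + (b + 1)).choose a := by
        have h2 : a + 2 + (b + 1) - 2 = a + (b + 1) := by omega
        simp [ha, hb, h2]
      have e2 : (if [false, true].count true ≤ S1.card ∧ [false, true].count false ≤ S2.card then
          (S1.card + S2.card - [false, true].length).choose (S1.card - [false, true].count true) else 0) =
          (a + 1 + b).choose (a + 1) := by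
        have h2 : a + 2 + (b + 1) - 2 = a + 1 + b := by omega
        simp [ha, hb, h2]
      have e3 : (if [true, false].count true ≤ S1.card ∧ [true, false].count false ≤ S2.card then
          (S1.card + S2.card - [true, false].length).choose (S1.card - [true, false].count true) else 0) =
          (a + 1 + b).choose (a + 1) := by
        have h2 : a + 2 + (b + 1) - 2 = a + 1 + b := by omega
        simp [ha, hb, h2]
      rw [e1, e2, e3]
      have f1 : S1.card - 1 = a + 1 := by omega
      have f2 : S1.card - 2 = a := by omega
      have f3 : 3 * S1.card - 4 = 3 * a + 2 := by omega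
      rw [f1, f2, f3, hb]
      have hbd : bd3 (S1.card + (b + 1)) true true = (3 * (a + b + 1) + 2) * (a + 1 + b).factorial := by
        have g1 : 3 * (S1.card + (b + 1)) - 4 = 3 * (a + b + 1) + 2 := by omega
        have g2 : S1.card + (b + 1) - 2 = a + 1 + b := by omega
        simp [bd3, g1, g2]
      rw [hbd]
      have c1 := chf a (b + 1)
      have c2 := chf (a + 1) b
      have c3 : a + (b + 1) = a + 1 + b := by ring
      rw [c3] at c1 ⊢
      have c4 : (b + 1).factorial = (b + 1) * b.factorial := Nat.factorial_succ b
      apply le_of_eq
      calc (a + 1 + b).choose a * ((3 * a + 2) * a.factorial * (b + 1).factorial) +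
            (a + 1 + b).choose (a + 1) * (2 * (a + 1).factorial * (b + 1).factorial) +
            (a + 1 + b).choose (a + 1) * ((a + 1).factorial * (b + 1).factorial)
          = (3 * a + 2) * ((a + 1 + b).choose a * (a.factorial * (b + 1).factorial)) +
            3 * (b + 1) * ((a + 1 + b).choose (a + 1) * ((a + 1).factorial * b.factorial)) := by
            rw [c4]
            ring
        _ = (3 * (a + b + 1) + 2) * (a + 1 + b).factorial := by
            rw [c1, c2]
            ring

end Pool.Agent.Work.MP_5db8eb_co.SP
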