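import Pool.Agent.Work.MP_5db8eb_co.SP.Dec
import Pool.Agent.Work.MP_5db8eb_co.SP.Inh
import Pool.Agent.Work.MP_5db8eb_co.SP.Par2
import Pool.Agent.Work.MP_5db8eb_co.SP.Par3
import Pool.Agent.Work.MP_5db8eb_co.SP.SerC
import Pool.Agent.Work.MP_5db8eb_co.SP.MinD
import Pool.Agent.Work.MP_5db8eb_co.SP.Anti

set_option autoImplicit false

/-!
# SP/Main (size M)

The main induction.
PROOF. Strong induction on `S.card` for the statement `(NB 1 S → H2 S) ∧ (NB 2 S → H3 S)`. `S = ∅`: both `H2`, `H3` are empty (cardinality). Otherwise `dec` (with `NB 1 S`; `nb_mono` if `NB 2 S`).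
First alternative: `par2`, `par3`, `nb_par`. Second: `S = insert z R`, `R = S.erase z`: `min2`, `min3`, `nb_min` (`NB 2 S → NB 1 R → H2 R`). Third: `ser2` with `nb_ser`; for `H3`: if `|L| = 2`: `anti3`; if `|L| ≥ 3`: `ser3`.
`cnt_univ`: `τ = replicate n true = replicate (n - 2) true ++ [true, true]`, `bd3 n true true = (3 n - 4) (n-2)!`.
-/

namespace Pool.Agent.Work.MP_5db8eb_co.SP

open Classical

variable {α : Type*} [PartialOrder α]

private theorem good_aux (n : ℕ) : ∀ S : Finset α, S.card = n → (NB 1 S → H2 S) ∧ (NB 2 S → H3 S) := by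
  induction n using Nat.strong_induction_on with
  | _ n ih =>
    intro S hS
    have ih' : ∀ T : Finset α, T.card < S.card → (NB 1 T → H2 T) ∧ (NB 2 T → H3 T) :=
      fun T hT => ih T.card (by omega) T rfl
    rcases Finset.eq_empty_or_nonempty S with h0 | hne
    · subst h0
      refine ⟨fun _ h => ?_, fun _ h => ?_⟩
      · rw [Finset.card_empty] at h
        omega
      · rw [Finset.card_empty] at h
        omega
    · have key : NB 1 S → H2 S ∧ (NB 2 S → H3 S) := by
        intro hN
        rcases dec S hne hN with ⟨S1, S2, n1, n2, hd, hu, hno⟩ | ⟨z, hz, hlt⟩ | ⟨L, R, hL, hR, hd, hu, hlt, h2⟩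
        · subst hu
          have hc : (S1 ∪ S2).card = S1.card + S2.card := Finset.card_union_of_disjoint hd
          have p1 := n1.card_pos
          have p2 := n2.card_pos
          obtain ⟨a1, a2⟩ := ih' S1 (by omega)
          obtain ⟨b1, b2⟩ := ih' S2 (by omega)
          obtain ⟨c1, c2⟩ := nb_par 1 S1 S2 hno hN
          refine ⟨par2 S1 S2 n1 n2 hd hno (a1 c1) (b1 c2), fun hN2 => ?_⟩
          obtain ⟨d1, d2⟩ := nb_par 2 S1 S2 hno hN2
          exact par3 S1 S2 n1 n2 hd hno (a1 c1) (b1 c2) (a2 d1) (b2 d2)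
        · have hi : insert z (S.erase z) = S := Finset.insert_erase hz
          have hlt' : ∀ x ∈ S.erase z, z < x := fun x hx =>
            hlt x (Finset.mem_of_mem_erase hx) (Finset.ne_of_mem_erase hx)
          have hc : (S.erase z).card < S.card := Finset.card_erase_lt_of_mem hz
          refine ⟨?_, fun hN2 => ?_⟩
          · have h3 := min2 z (S.erase z) hlt'
            rwa [hi] at h3
          · have h3 : NB 1 (S.erase z) := nb_min 1 z (S.erase z) (by rw [hi]; exact hN2)
            have h4 := min3 z (S.erase z) hlt' ((ih' _ hc).1 h3)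
            rwa [hi] at h4
        · subst hu
          have hc : (L ∪ R).card = L.card + R.card := Finset.card_union_of_disjoint hd
          have p2 := hR.card_pos
          obtain ⟨a1, a2⟩ := ih' L (by omega)
          refine ⟨ser2 L R hd hlt hL hR (a1 (nb_ser 1 L R hlt hN)), fun hN2 => ?_⟩
          by_cases h3 : L.card = 2
          · exact anti3 L R (h2 h3) h3 hd hlt hR
          · exact ser3 L R hd hlt (by omega) hR (a2 (nb_ser 2 L R hlt hN2))
      exact ⟨fun h => (key h).1, fun h => (key (nb_mono 1 S h)).2 h⟩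

theorem good (S : Finset α) : (NB 1 S → H2 S) ∧ (NB 2 S → H3 S) := by
  exact good_aux S.card S rfl

theorem cnt_two (S : Finset α) (h : NB 1 S) (hc : 2 ≤ S.card) :
    cnt 2 S (List.replicate S.card true) ≤ (S.card - 1).factorial := by
  obtain ⟨N, hN⟩ : ∃ N, S.card = N + 2 := ⟨S.card - 2, by omega⟩
  have h1 := (good S).1 h hc (List.replicate (N + 1) true) true (by
    rw [← List.replicate_succ', List.count_replicate_self, hN])
  rw [← List.replicate_succ'] at h1
  rw [hN] at h1 ⊢
  unfold bd2 at h1
  simpa using h1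

theorem cnt_three (S : Finset α) (h : NB 2 S) (hc : 3 ≤ S.card) :
    cnt 3 S (List.replicate S.card true) + (S.card - 2).factorial ≤ 3 * (S.card - 1).factorial := by
  obtain ⟨N, hN⟩ : ∃ N, S.card = N + 3 := ⟨S.card - 3, by omega⟩
  have e1 : List.replicate (N + 1) true ++ [true, true] = List.replicate (N + 3) true := by
    have h3 : ([true, true] : List Bool) = List.replicate 2 true := rfl
    rw [h3, List.replicate_append_replicate]
  have h1 := (good S).2 h hc (List.replicate (N + 1) true) true true (by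
    rw [e1, List.count_replicate_self, hN])
  rw [e1] at h1
  rw [hN] at h1 ⊢
  unfold bd3 at h1
  rw [if_pos rfl, if_pos rfl] at h1
  have e2 : N + 3 - 2 = N + 1 := by omega
  have e3 : N + 3 - 1 = N + 2 := by omega
  have e4 : 3 * (N + 3) - 4 = 3 * N + 5 := by omega
  rw [e2, e4] at h1
  rw [e2, e3, Nat.factorial_succ (N + 1)]
  nlinarith

end Pool.Agent.Work.MP_5db8eb_co.SP
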