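import Pool.Agent.Work.MP_5db8eb_co.SP.Words
import Pool.Agent.Work.MP_5db8eb_co.SP.Cols

set_option autoImplicit false

/-!
# SP/MixL (size M)

Mixing two words.
PROOF. `mix_of_filter`: induction on `w` (cases `p x = true`, `false`). `mix_spec`: induction on `χ` (generalising `s`, `t`).
`count_mix`: take `p x := decide (x ∈ S1)`. For `w ∈ words (S1 ∪ S2)` put `χ = w.map p`, `s1 = w.filter p`, `s2 = w.filter (! p ·)`: then `χ ∈ cols |S1| |S2|` (the number of `true` in `w.map p` is
`(w.filter p).length = |S1|`), `s1 ∈ words S1`, `s2 ∈ words S2` and `w = mix χ s1 s2`. So `w ↦ (χ, s1, s2)` is an injection of the left set into the sigma type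
(`Finset.card_sigma`, or `Finset.card_biUnion_le` for the union over `χ`, `s1` of the images of the sets of `s2` under `mix χ s1`).
-/

namespace Pool.Agent.Work.MP_5db8eb_co.SP

open Classical


theorem mix_of_filter {β : Type*} (w : List β) (p : β → Bool) :
    mix (w.map p) (w.filter p) (w.filter fun x => !p x) = w := by
  induction w with
  | nil => simp [mix]
  | cons x w ih =>
    cases hp : p x
    · simp only [List.map_cons, List.filter_cons, hp]
      simp only [Bool.not_false, if_true, Bool.false_eq_true, if_false]
      rw [mix, ih]
    · simp only [List.map_cons, List.filter_cons, hp]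
      simp only [Bool.not_true, if_true, Bool.false_eq_true, if_false]
      rw [mix, ih]

theorem mix_spec {β : Type*} (χ : List Bool) (s t : List β) (p : β → Bool) (hs : χ.count true = s.length)
    (ht : χ.count false = t.length) (hps : ∀ x ∈ s, p x = true) (hpt : ∀ x ∈ t, p x = false) :
    (mix χ s t).filter p = s ∧ (mix χ s t).filter (fun x => !p x) = t ∧ (mix χ s t).map p = χ ∧
      (∀ x, x ∈ mix χ s t ↔ x ∈ s ∨ x ∈ t) ∧ (mix χ s t).length = χ.length := by
  induction χ generalizing s t with
  | nil =>
    have h1 : s = [] := List.eq_nil_of_length_eq_zero (by simpa using hs.symm)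
    have h2 : t = [] := List.eq_nil_of_length_eq_zero (by simpa using ht.symm)
    subst h1 h2
    simp [mix]
  | cons b χ ih =>
    cases b
    · cases t with
      | nil => simp at ht
      | cons y t =>
        have hy : p y = false := hpt y (by simp)
        obtain ⟨h1, h2, h3, h4, h5⟩ := ih s t (by simpa using hs) (by simpa using ht) hps
          (fun x hx => hpt x (by simp [hx]))
        rw [mix]
        refine ⟨?_, ?_, ?_, ?_, ?_⟩
        · simp [hy, h1]
        · simp [hy, h2]
        · simp [hy, h3]
        · intro x
          rw [List.mem_cons, h4, List.mem_cons]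
          tauto
        · simp [h5]
    · cases s with
      | nil => simp at hs
      | cons y s =>
        have hy : p y = true := hps y (by simp)
        obtain ⟨h1, h2, h3, h4, h5⟩ := ih s t (by simpa using hs) (by simpa using ht)
          (fun x hx => hps x (by simp [hx])) hpt
        rw [mix]
        refine ⟨?_, ?_, ?_, ?_, ?_⟩
        · simp [hy, h1]
        · simp [hy, h2]
        · simp [hy, h3]
        · intro x
          rw [List.mem_cons, h4, List.mem_cons]
          tauto
        · simp [h5]

theorem count_mix {α : Type*} (S1 S2 : Finset α) (hd : Disjoint S1 S2) (F : List α → Prop) :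
    ((words (S1 ∪ S2)).filter F).card ≤
      ∑ χ ∈ cols S1.card S2.card, ∑ s1 ∈ words S1, ((words S2).filter fun s2 => F (mix χ s1 s2)).card := by
  have hsub : ((words (S1 ∪ S2)).filter F) ⊆
      (cols S1.card S2.card).biUnion fun χ => (words S1).biUnion fun s1 =>
        ((words S2).filter fun s2 => F (mix χ s1 s2)).image fun s2 => mix χ s1 s2 := by
    intro w hw
    rw [Finset.mem_filter, mem_words] at hw
    obtain ⟨⟨hnd, hmem⟩, hF⟩ := hw
    set p : α → Bool := fun x => decide (x ∈ S1) with hp
    have hmix := mix_of_filter w p
    have hw1 : w.filter p ∈ words S1 := by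
      rw [mem_words]
      refine ⟨hnd.filter _, fun x => ?_⟩
      rw [List.mem_filter, hmem, Finset.mem_union, hp]
      simp only [decide_eq_true_eq]
      tauto
    have hw2 : (w.filter fun x => !p x) ∈ words S2 := by
      rw [mem_words]
      refine ⟨hnd.filter _, fun x => ?_⟩
      rw [List.mem_filter, hmem, Finset.mem_union, hp]
      simp only [Bool.not_eq_true', decide_eq_false_iff_not]
      constructor
      · rintro ⟨h1 | h1, h2⟩
        · exact absurd h1 h2
        · exact h1
      · intro h1
        exact ⟨Or.inr h1, fun h2 => Finset.disjoint_left.mp hd h2 h1⟩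
    have hct : (w.map p).count true = (w.filter p).length := by
      rw [List.count_eq_countP, List.countP_map, List.countP_eq_length_filter]
      congr 2
      funext x
      simp
    have hcf : (w.map p).count false = (w.filter fun x => !p x).length := by
      rw [List.count_eq_countP, List.countP_map, List.countP_eq_length_filter]
      congr 2
      funext x
      simp
    rw [Finset.mem_biUnion]
    refine ⟨w.map p, ?_, ?_⟩
    · rw [mem_cols, hct, hcf, length_words hw1, length_words hw2]
      exact ⟨rfl, rfl⟩
    · rw [Finset.mem_biUnion]
      refine ⟨w.filter p, hw1, ?_⟩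
      rw [Finset.mem_image]
      refine ⟨w.filter fun x => !p x, ?_, hmix⟩
      rw [Finset.mem_filter]
      refine ⟨hw2, ?_⟩
      rw [hmix]
      exact hF
  refine (Finset.card_le_card hsub).trans (Finset.card_biUnion_le.trans (Finset.sum_le_sum fun χ _ => ?_))
  refine Finset.card_biUnion_le.trans (Finset.sum_le_sum fun s1 _ => ?_)
  exact Finset.card_image_le

end Pool.Agent.Work.MP_5db8eb_co.SP
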