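import Pool.Agent.Work.MP_5db8eb_co.SP.MinE
import Pool.Agent.Work.MP_5db8eb_co.SP.MixL
import Pool.Agent.Work.MP_5db8eb_co.SP.FillB

set_option autoImplicit false

/-!
# SP/MinC (size M)

`H2` for a set with a unique minimal element.
PROOFS. `count_ins`: `w = s.take j ++ z :: s.drop j` with `s = w.erase z`, `j` = the index of `z`.
`min2`: `N = |R| + 1`, `τ' = τ ++ [x]`, `τ'.count true = N`. `count_ins`, `fill_ins` for every `j < N`: `fill τ' w = E1 ++ some z :: E2` with `E1 = fill τ1 ..`, `E2 = fill τ2 ..`, `τ' = τ1 ++ true :: τ2`. If `τ2 ≠ []`: `emk_min` with `k = 1`: the list is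
`some z :: emk 1 ..`, not bad (`bad_cons_min`, `not_bad_small`). If `τ2 = []`: `x = true`, `j = N - 1`: at most `|R|! = (N-1)!` words (`card_words`).
-/

namespace Pool.Agent.Work.MP_5db8eb_co.SP

open Classical

variable {α : Type*} [PartialOrder α]

theorem count_ins {β : Type*} (z : β) (R : Finset β) (hz : z ∉ R) (F : List β → Prop) :
    ((words (insert z R)).filter F).card ≤
      ∑ j ∈ Finset.range (R.card + 1), ((words R).filter fun s => F (s.take j ++ z :: s.drop j)).card := by
  have hsub : ((words (insert z R)).filter F) ⊆
      (Finset.range (R.card + 1)).biUnion fun j =>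
        ((words R).filter fun s => F (s.take j ++ z :: s.drop j)).image fun s => s.take j ++ z :: s.drop j := by
    intro w hw
    rw [Finset.mem_filter] at hw
    obtain ⟨hw, hF⟩ := hw
    have hlen := length_words hw
    obtain ⟨hnd, hmem⟩ := mem_words.mp hw
    have hzw : z ∈ w := (hmem z).mpr (Finset.mem_insert_self z R)
    obtain ⟨u, v, rfl⟩ := List.append_of_mem hzw
    rw [Finset.card_insert_of_notMem hz] at hlen
    have hul : u.length < R.card + 1 := by
      rw [List.length_append, List.length_cons] at hlen
      omega
    have hnd' : (z :: (u ++ v)).Nodup := (List.perm_middle.nodup_iff).mp hnd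
    rw [List.nodup_cons] at hnd'
    have ht : (u ++ v).take u.length = u := List.take_left
    have hd : (u ++ v).drop u.length = v := List.drop_left
    rw [Finset.mem_biUnion]
    refine ⟨u.length, Finset.mem_range.mpr hul, ?_⟩
    rw [Finset.mem_image]
    refine ⟨u ++ v, ?_, ?_⟩
    · rw [Finset.mem_filter, mem_words]
      refine ⟨⟨hnd'.2, ?_⟩, ?_⟩
      · intro x
        have hx := hmem x
        rw [List.mem_append, List.mem_cons, Finset.mem_insert] at hx
        rw [List.mem_append]
        constructor
        · intro h
          have hxz : x ≠ z := by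
            rintro rfl
            exact hnd'.1 (List.mem_append.mpr h)
          have := hx.mp (by tauto)
          tauto
        · intro h
          have hxz : x ≠ z := by
            rintro rfl
            exact hz h
          have := hx.mpr (Or.inr h)
          tauto
      · rw [ht, hd]
        exact hF
    · rw [ht, hd]
  refine (Finset.card_le_card hsub).trans (Finset.card_biUnion_le.trans (Finset.sum_le_sum fun j _ => ?_))
  exact Finset.card_image_le

theorem min2 (z : α) (R : Finset α) (hz : ∀ x ∈ R, z < x) : H2 (insert z R) := by
  intro hN τ x hτ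
  have hzR : z ∉ R := fun h => lt_irrefl z (hz z h)
  have hcard : (insert z R).card = R.card + 1 := Finset.card_insert_of_notMem hzR
  rw [hcard] at hN hτ ⊢
  unfold cnt
  refine (count_ins z R hzR _).trans ?_
  have hterm : ∀ j ∈ Finset.range (R.card + 1),
      ((words R).filter fun s => Bad (emk 2 (fill (τ ++ [x]) (s.take j ++ z :: s.drop j)))).card ≤
        if j = R.card then bd2 (R.card + 1) x else 0 := by
    intro j hj
    rw [Finset.mem_range] at hj
    obtain ⟨τ1, τ2, h1, h2, h3⟩ := fill_ins (β := α) (τ ++ [x]) j (by omega)
    rcases List.eq_nil_or_concat τ2 with h4 | ⟨τ3, b, h4⟩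
    · -- the letter is in the last place
      subst h4
      obtain ⟨h5, h6⟩ := List.append_inj' h1 rfl
      have hx : x = true := by simpa using h6
      subst hx
      rw [List.count_append, h5, h2] at hτ
      have hj2 : j = R.card := by
        simp at hτ
        exact hτ
      rw [if_pos hj2]
      refine (Finset.card_filter_le _ _).trans ?_
      rw [card_words, bd2]
      simp
    · -- not bad
      have h0 : ((words R).filter fun s => Bad (emk 2 (fill (τ ++ [x]) (s.take j ++ z :: s.drop j)))).card = 0 := by
        rw [Finset.card_eq_zero, Finset.filter_eq_empty_iff]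
        intro s hs hbad
        have hsl := length_words hs
        have hmem := (mem_words.mp hs).2
        obtain ⟨h5, h6⟩ := h3 s z (by omega)
        have hlen2 : 1 ≤ (fill τ2 (s.drop j)).length := by
          rw [length_fill, h4]
          simp
        have hE1 : ∀ y, some y ∈ fill τ1 (s.take j) → z < y :=
          fun y hy => hz y ((hmem y).mp (List.mem_of_mem_take (mem_fill hy)))
        have hE2 : ∀ y, some y ∈ fill τ2 (s.drop j) → z < y :=
          fun y hy => hz y ((hmem y).mp (List.mem_of_mem_drop (mem_fill hy)))
        rw [h5, emk_min z _ _ hE1 hE2 1 hlen2] at hbad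
        have hbad2 := bad_cons_min z _ (by
          intro y hy
          rcases List.mem_append.mp (emk_mem hy) with h | h
          · exact hE1 y h
          · exact hE2 y h) hbad
        refine not_bad_small _ ?_ hbad2
        rw [emk_length]
        rw [List.length_append]
        omega
      rw [h0]
      exact Nat.zero_le _
  refine (Finset.sum_le_sum hterm).trans ?_
  rw [Finset.sum_ite_eq' (Finset.range (R.card + 1)) R.card (fun _ => bd2 (R.card + 1) x)]
  rw [if_pos (Finset.mem_range.mpr (Nat.lt_succ_self _))]

end Pool.Agent.Work.MP_5db8eb_co.SP
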