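import Pool.Agent.Work.MP_5db8eb_co.SP.EvB

set_option autoImplicit false

/-!
# SP/MinE (size M)

A unique minimal letter `z`.
PROOFS. `ev_min`: `pass_append`: whatever comes out of `c` is bigger than `z`, takes the cell of `z`, and `z` comes out. For `e = none`: `c = []`: `ev [z] none = ([], some z)` and `app [] none = []`; `c = h :: c'`: `h > z`
passes `c' ++ [z]`. `app_min`: from `ev_min`. `st_min`: induction on `E`.
`emk_min`: let `k ≥ 1`, `k - 1 ≤ E2.length`. If `E2.length = k - 1`: `emk_eq` with `F = some z :: E2`; `ev c (some z) = (c, some z)` for `c = st [] E1` (`pass_id`: all letters of `c` are bigger than `z`), and `em c E2 = emk (k-1) (E1 ++ E2)`.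
If `E2.length ≥ k`: `E2 = E3 ++ e :: E4` with `E4.length = k - 1`; the contents before the last `k` events are `st (st [] E1 ++ [z]) E3 = st (st [] E1) E3 ++ [z]` (`st_append`, `st_min`, `app c (some z) = c ++ [z]`); the event `e` gives
`(app c e, some z)`, then `em (app c e) E4 = emk (k-1) (E1 ++ E3 ++ e :: E4)` (`st_append`).
-/

namespace Pool.Agent.Work.MP_5db8eb_co.SP

open Classical

variable {α : Type*} [PartialOrder α]

private theorem min_pass (z x : α) (c : List α) (hc : ∀ x ∈ c, z < x) (hx : z < x) :
    pass x (c ++ [z]) = ((pass x c).1 ++ [(pass x c).2], z) := by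
  have h1 : z < (pass x c).2 := by
    have h2 : (pass x c).2 ∈ x :: c := (pass_perm x c).subset List.mem_cons_self
    rcases List.mem_cons.1 h2 with h3 | h3
    · rw [h3]; exact hx
    · exact hc _ h3
  rw [pass_append, pass_pos h1, pass_nil]

theorem ev_min (z : α) (c : List α) (e : Option α) (hc : ∀ x ∈ c, z < x) (he : ∀ x, e = some x → z < x) :
    ev (c ++ [z]) e = (app c e, some z) := by
  cases e with
  | some x =>
    have h1 := min_pass z x c hc (he x rfl)
    show ((pass x (c ++ [z])).1, some (pass x (c ++ [z])).2) = _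
    rw [h1]
    rfl
  | none =>
    cases c with
    | nil =>
      show ((pass z []).1, some (pass z []).2) = _
      rw [pass_nil]
      rfl
    | cons h c' =>
      have h1 := min_pass z h c' (fun x hx => hc x (List.mem_cons_of_mem _ hx)) (hc h List.mem_cons_self)
      show ((pass h (c' ++ [z])).1, some (pass h (c' ++ [z])).2) = _
      rw [h1]
      rfl

theorem st_min (z : α) (c : List α) (E : List (Option α)) (hc : ∀ x ∈ c, z < x) (hE : ∀ x, some x ∈ E → z < x) :
    st (c ++ [z]) E = st c E ++ [z] := by
  induction E generalizing c with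
  | nil => rfl
  | cons e E ih =>
    have h1 := ev_min z c e hc (fun x hx => hE x (by rw [hx]; exact List.mem_cons_self))
    have h2 : app (c ++ [z]) e = app c e ++ [z] := by
      conv_lhs => unfold app
      rw [h1]
      rfl
    show st (app (c ++ [z]) e) E = st (app c e) E ++ [z]
    rw [h2]
    refine ih _ ?_ (fun x hx => hE x (List.mem_cons_of_mem _ hx))
    intro x hx
    rcases app_mem hx with h3 | h3
    · exact hc x h3
    · exact hE x (by rw [h3]; exact List.mem_cons_self)

theorem emk_min (z : α) (E1 E2 : List (Option α)) (h1 : ∀ x, some x ∈ E1 → z < x)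
    (h2 : ∀ x, some x ∈ E2 → z < x) (k : ℕ) (hk : k ≤ E2.length) :
    emk (k + 1) (E1 ++ some z :: E2) = some z :: emk k (E1 ++ E2) := by
  have hc : ∀ x ∈ st ([] : List α) E1, z < x := by
    intro x hx
    rcases st_mem hx with h3 | h3
    · exact absurd h3 List.not_mem_nil
    · exact h1 x h3
  rcases hk.eq_or_lt with hk | hk
  · rw [emk_eq (k + 1) E1 (some z :: E2) (by rw [List.length_cons, hk]), emk_eq k E1 E2 hk.symm]
    have h3 : ev (st [] E1) (some z) = (st [] E1, some z) := by
      show ((pass z (st [] E1)).1, some (pass z (st [] E1)).2) = _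
      rw [pass_id (fun y hy => (hc y hy).asymm)]
    show (ev (st [] E1) (some z)).2 :: em (ev (st [] E1) (some z)).1 E2 = _
    rw [h3]
  · obtain ⟨E3, e, E4, rfl, h4⟩ : ∃ E3 e E4, E2 = E3 ++ e :: E4 ∧ E4.length = k := by
      have hj : E2.length - k - 1 < E2.length := by omega
      refine ⟨E2.take (E2.length - k - 1), E2[E2.length - k - 1], E2.drop (E2.length - k - 1 + 1), ?_, ?_⟩
      · rw [List.getElem_cons_drop, List.take_append_drop]
      · rw [List.length_drop]
        omega
    have h2' : ∀ x, some x ∈ E3 → z < x := fun x hx => h2 x (List.mem_append_left _ hx)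
    have e1 : E1 ++ some z :: (E3 ++ e :: E4) = (E1 ++ some z :: E3) ++ (e :: E4) := by
      rw [List.append_assoc]; rfl
    have e2 : E1 ++ (E3 ++ e :: E4) = (E1 ++ E3 ++ [e]) ++ E4 := by
      simp only [List.append_assoc]; rfl
    rw [e1, e2, emk_eq (k + 1) _ (e :: E4) (by rw [List.length_cons, h4]), emk_eq k _ E4 h4]
    have e3 : app (st [] E1) (some z) = st [] E1 ++ [z] := by
      show (pass z (st [] E1)).1 ++ (some (pass z (st [] E1)).2).toList = _
      rw [pass_id (fun y hy => (hc y hy).asymm)]
      rfl
    have e4 : st [] (E1 ++ some z :: E3) = st (st [] E1) E3 ++ [z] := by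
      rw [st_append]
      show st (app (st [] E1) (some z)) E3 = _
      rw [e3, st_min z _ _ hc h2']
    have e5 : st [] (E1 ++ E3 ++ [e]) = app (st (st [] E1) E3) e := by
      rw [st_append, st_append]
      rfl
    have e6 : ev (st (st [] E1) E3 ++ [z]) e = (app (st (st [] E1) E3) e, some z) := by
      refine ev_min z _ e ?_ ?_
      · intro x hx
        rcases st_mem hx with h3 | h3
        · exact hc x h3
        · exact h2' x h3
      · intro x hx
        exact h2 x (List.mem_append_right _ (by rw [hx]; exact List.mem_cons_self))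
    rw [e4, e5]
    show (ev (st (st [] E1) E3 ++ [z]) e).2 :: em (ev (st (st [] E1) E3 ++ [z]) e).1 E4 = _
    rw [e6]

theorem bad_cons_min (z : α) (l : List (Option α)) (hl : ∀ x, some x ∈ l → z < x) (h : Bad (some z :: l)) : Bad l := by
  intro h1
  apply h
  rw [List.pairwise_cons]
  refine ⟨?_, h1⟩
  intro b hb x hx y hy
  rw [Option.mem_def] at hx hy
  have h2 : z = x := Option.some.inj hx
  rw [← h2]
  exact (hl y (by rw [← hy]; exact hb)).asymm

end Pool.Agent.Work.MP_5db8eb_co.SP
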