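import Pool.Agent.Work.MP_5db8eb_co.SP.SubE

set_option autoImplicit false

/-!
# SP/ParK (size M)

For a fixed list `χ` of colours (`true`: letters of `S1`): number of bad words.
`bad_split`: a bad pair `y < x` has letters of the same colour; so if the filtered lists of both colours are in order, the whole list is in order (`List.pairwise_filter`-type argument: induction on `l`:
for `l = o :: l'`, if some `o' ∈ l'` has `y ∈ o'`, `x ∈ o`, `y < x`, both are in the filtered list of the colour of `x`).
`par_fix`: by `bad_split`, `sub_emk` a bad word has a bad `emk e1 (fill P1 s1)` or a bad `emk e2 (fill P2 s2)`; the number of the pairs with the first property is `cnt e1 S1 P1 * |words S2|` (`card_words`), and so on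
(`Finset.sum_le_sum`, `Finset.card_le_card`, `Finset.card_union_le`; the sum over `s1` of the number of `s2 ∈ words S2` with a property of `s1` only).
`cnt_small`: `(emk k E).length ≤ 1` (`em_length`, length of `E.drop (E.length - k)`), `not_bad_small`.
-/

namespace Pool.Agent.Work.MP_5db8eb_co.SP

open Classical

variable {α : Type*} [PartialOrder α]

theorem bad_split (S : Finset α) (col : α → Bool) (hS : ∀ x ∈ S, ∀ y ∈ S, col x ≠ col y → ¬ x < y)
    (l : List (Option α)) (hl : ∀ x, some x ∈ l → x ∈ S) (hb : Bad l) :
    ∃ i, Bad (l.filter (fun o => o.map col == some i)) := by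
  by_contra hcon
  push Not at hcon
  apply hb
  rw [List.pairwise_iff_forall_sublist]
  intro a b hab x hx y hy hxy
  have hx' : a = some x := hx
  have hy' : b = some y := hy
  subst hx' hy'
  have hxS : x ∈ S := hl x (hab.subset (by simp))
  have hyS : y ∈ S := hl y (hab.subset (by simp))
  have hcol : col y = col x := by
    by_contra hne
    exact hS y hyS x hxS hne hxy
  have h1 := hcon (col x)
  unfold Bad at h1
  rw [not_not, List.pairwise_iff_forall_sublist] at h1
  have h2 : List.Sublist [some x, some y] (l.filter (fun o => o.map col == some (col x))) := by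
    have h3 := hab.filter (fun o => o.map col == some (col x))
    have h4 : [some x, some y].filter (fun o => o.map col == some (col x)) = [some x, some y] := by
      simp [hcol]
    rw [h4] at h3
    exact h3
  exact h1 h2 x rfl y rfl hxy

theorem par_fix (S1 S2 : Finset α) (hd : Disjoint S1 S2) (hno : ∀ x ∈ S1, ∀ y ∈ S2, ¬ x < y ∧ ¬ y < x)
    (τ σ χ : List Bool) (hχ : χ ∈ cols S1.card S2.card) (h : (τ ++ σ).count true = S1.card + S2.card) :
    ∑ s1 ∈ words S1, ((words S2).filter fun s2 => Bad (emk σ.length (fill (τ ++ σ) (mix χ s1 s2)))).card ≤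
      cnt (ne true τ σ χ) S1 (pt true τ σ χ) * S2.card.factorial +
        cnt (ne false τ σ χ) S2 (pt false τ σ χ) * S1.card.factorial := by
  have hd' : ∀ x, x ∈ S1 → x ∈ S2 → False := fun x h1 h2 => Finset.disjoint_left.mp hd h1 h2
  have hcol := mem_cols.1 hχ
  have key : ∀ s1 ∈ words S1, ∀ s2 ∈ words S2,
      Bad (emk σ.length (fill (τ ++ σ) (mix χ s1 s2))) →
        Bad (emk (ne true τ σ χ) (fill (pt true τ σ χ) s1)) ∨
          Bad (emk (ne false τ σ χ) (fill (pt false τ σ χ) s2)) := by
    intro s1 h1 s2 h2 hbad
    have hm1 := (mem_words.1 h1).2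
    have hm2 := (mem_words.1 h2).2
    have hmix := mix_spec χ s1 s2 (fun x => decide (x ∈ S1)) (hcol.1.trans (length_words h1).symm)
      (hcol.2.trans (length_words h2).symm)
      (fun x hx => by simpa using (hm1 x).1 hx)
      (fun x hx => by simpa using fun h3 => hd' x h3 ((hm2 x).1 hx))
    obtain ⟨i, hi⟩ := bad_split (S1 ∪ S2) (fun x => decide (x ∈ S1)) (by
      intro x hx y hy hne hxy
      rw [Finset.mem_union] at hx hy
      rcases hx with hx | hx
      · rcases hy with hy | hy
        · exact hne (by simp [hx, hy])
        · exact (hno x hx y hy).1 hxy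
      · rcases hy with hy | hy
        · exact (hno y hy x hx).2 hxy
        · refine hne ?_
          have e1 : x ∉ S1 := fun h3 => hd' x h3 hx
          have e2 : y ∉ S1 := fun h3 => hd' y h3 hy
          simp [e1, e2]) (emk σ.length (fill (τ ++ σ) (mix χ s1 s2))) (by
      intro x hx
      have h3 := (hmix.2.2.2.1 x).1 (mem_fill (emk_mem hx))
      rw [Finset.mem_union]
      exact h3.imp (hm1 x).1 (hm2 x).1) hbad
    rw [sub_emk S1 S2 hd hno τ σ χ s1 s2 h1 h2 hχ h i] at hi
    cases i
    · right
      simpa using hi
    · left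
      simpa using hi
  have h1 : ∀ s1 ∈ words S1,
      ((words S2).filter fun s2 => Bad (emk σ.length (fill (τ ++ σ) (mix χ s1 s2)))).card ≤
        (if Bad (emk (ne true τ σ χ) (fill (pt true τ σ χ) s1)) then S2.card.factorial else 0) +
          cnt (ne false τ σ χ) S2 (pt false τ σ χ) := by
    intro s1 hs1
    by_cases hA : Bad (emk (ne true τ σ χ) (fill (pt true τ σ χ) s1))
    · rw [if_pos hA, ← card_words S2]
      exact (Finset.card_le_card (Finset.filter_subset _ _)).trans (Nat.le_add_right _ _)
    · rw [if_neg hA, zero_add]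
      unfold cnt
      refine Finset.card_le_card (fun s2 hs2 => ?_)
      rw [Finset.mem_filter] at hs2 ⊢
      exact ⟨hs2.1, (key s1 hs1 s2 hs2.1 hs2.2).resolve_left hA⟩
  refine (Finset.sum_le_sum h1).trans ?_
  rw [Finset.sum_add_distrib, Finset.sum_const, card_words, smul_eq_mul, ← Finset.sum_filter,
    Finset.sum_const, smul_eq_mul]
  unfold cnt
  rw [mul_comm (S1.card.factorial)]

/-- at most one letter comes out: never bad -/
theorem cnt_small (k : ℕ) (hk : k ≤ 1) (S : Finset α) (τ : List Bool) : cnt k S τ = 0 := by
  unfold cnt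
  rw [Finset.card_eq_zero, Finset.filter_eq_empty_iff]
  intro s _
  refine not_bad_small _ ?_
  unfold emk
  rw [em_length, List.length_drop]
  omega

end Pool.Agent.Work.MP_5db8eb_co.SP
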