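import Pool.Agent.Work.MP_5db8eb_co.SP.EvB

set_option autoImplicit false

/-!
# SP/ParP (size M)

One event for a union of two sets without relations (colours).
`col` is the colour, all letters are in `S`, and letters of `S` of different colours are not comparable.
PROOFS. `pass_col`: induction on `c` (generalising `x`): if `h < x` then `col h = col x`; the letter `x` is put into the cell of `h` (same colour), continue with `h`. If not, `h` stays; if `col h = col x`
the first cell of the filtered list is `h`, too; otherwise it is skipped. `ev_col`, `ev_fil`, `ev_fil_other`: cases `e = some x` (`pass_col`), `e = none` with `c = []`, `e = none` with `c = h :: c'`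
(`pass_col` for `h`, `c'`; the filtered list for `i = col h` is `h :: c'.filter ..`).
-/

namespace Pool.Agent.Work.MP_5db8eb_co.SP

open Classical

variable {α : Type*} [PartialOrder α]

private theorem pp_lt {x h : α} {c : List α} (hl : h < x) :
    pass x (h :: c) = (x :: (pass h c).1, (pass h c).2) := by
  rw [pass, if_pos hl]

private theorem pp_nlt {x h : α} {c : List α} (hl : ¬ h < x) :
    pass x (h :: c) = (h :: (pass x c).1, (pass x c).2) := by
  rw [pass, if_neg hl]

omit [PartialOrder α] in
private theorem pp_fp {col : α → Bool} {i : Bool} {h : α} {c : List α} (hh : col h = i) :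
    (h :: c).filter (fun y => col y == i) = h :: c.filter (fun y => col y == i) := by
  rw [List.filter_cons_of_pos]
  simp [hh]

omit [PartialOrder α] in
private theorem pp_fn {col : α → Bool} {i : Bool} {h : α} {c : List α} (hh : col h ≠ i) :
    (h :: c).filter (fun y => col y == i) = c.filter (fun y => col y == i) := by
  rw [List.filter_cons_of_neg]
  simp [hh]

theorem pass_col (S : Finset α) (col : α → Bool) (hS : ∀ x ∈ S, ∀ y ∈ S, col x ≠ col y → ¬ x < y)
    (c : List α) (x : α) (hc : ∀ y ∈ c, y ∈ S) (hx : x ∈ S) :
    (pass x c).1.map col = c.map col ∧ col (pass x c).2 = col x ∧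
    (pass x c).1.filter (fun y => col y == col x) = (pass x (c.filter fun y => col y == col x)).1 ∧
    (pass x c).2 = (pass x (c.filter fun y => col y == col x)).2 ∧
    ∀ i, i ≠ col x → (pass x c).1.filter (fun y => col y == i) = c.filter (fun y => col y == i) := by
  induction c generalizing x with
  | nil =>
    refine ⟨rfl, rfl, rfl, rfl, fun i _ => rfl⟩
  | cons h c ih =>
    have hh : h ∈ S := hc h List.mem_cons_self
    have hc' : ∀ y ∈ c, y ∈ S := fun y hy => hc y (List.mem_cons_of_mem _ hy)
    by_cases hl : h < x
    · have hcol : col h = col x := by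
        by_contra hne
        exact hS h hh x hx hne hl
      obtain ⟨i1, i2, i3, i4, i5⟩ := ih h hc' hh
      rw [pp_lt hl]
      refine ⟨?_, ?_, ?_, ?_, ?_⟩
      · change col x :: (pass h c).1.map col = col h :: c.map col
        rw [i1, hcol]
      · change col (pass h c).2 = col x
        rw [i2, hcol]
      · change (x :: (pass h c).1).filter (fun y => col y == col x) = _
        rw [pp_fp rfl, pp_fp hcol, pp_lt hl]
        rw [hcol] at i3
        rw [i3]
      · change (pass h c).2 = _
        rw [pp_fp hcol, pp_lt hl]
        rw [hcol] at i4
        exact i4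
      · intro i hi
        change (x :: (pass h c).1).filter (fun y => col y == i) = _
        rw [pp_fn hi.symm, pp_fn (by rw [hcol]; exact hi.symm)]
        exact i5 i (by rw [hcol]; exact hi)
    · obtain ⟨i1, i2, i3, i4, i5⟩ := ih x hc' hx
      rw [pp_nlt hl]
      refine ⟨?_, ?_, ?_, ?_, ?_⟩
      · change col h :: (pass x c).1.map col = col h :: c.map col
        rw [i1]
      · exact i2
      · change (h :: (pass x c).1).filter (fun y => col y == col x) = _
        by_cases hcol : col h = col x
        · rw [pp_fp hcol, pp_fp hcol, pp_nlt hl, i3]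
        · rw [pp_fn hcol, pp_fn hcol, i3]
      · change (pass x c).2 = _
        by_cases hcol : col h = col x
        · rw [pp_fp hcol, pp_nlt hl]
          exact i4
        · rw [pp_fn hcol]
          exact i4
      · intro i hi
        change (h :: (pass x c).1).filter (fun y => col y == i) = _
        by_cases hcol : col h = i
        · rw [pp_fp hcol, pp_fp hcol, i5 i hi]
        · rw [pp_fn hcol, pp_fn hcol, i5 i hi]

theorem ev_col (S : Finset α) (col : α → Bool) (hS : ∀ x ∈ S, ∀ y ∈ S, col x ≠ col y → ¬ x < y)
    (c : List α) (e : Option α) (hc : ∀ y ∈ c, y ∈ S) (he : ∀ y, e = some y → y ∈ S) :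
    (ev c e).1.map col = (cev (c.map col) (e.map col)).1 ∧ (ev c e).2.map col = (cev (c.map col) (e.map col)).2 := by
  rcases e with _ | x
  · rcases c with _ | ⟨h, c⟩
    · exact ⟨rfl, rfl⟩
    · have h1 := pass_col S col hS c h (fun y hy => hc y (List.mem_cons_of_mem _ hy))
        (hc h List.mem_cons_self)
      refine ⟨h1.1, ?_⟩
      change some (col (pass h c).2) = some (col h)
      rw [h1.2.1]
  · have h1 := pass_col S col hS c x hc (he x rfl)
    refine ⟨h1.1, ?_⟩
    change some (col (pass x c).2) = some (col x)
    rw [h1.2.1]

/-- the letters of the colour of the event -/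
theorem ev_fil (S : Finset α) (col : α → Bool) (hS : ∀ x ∈ S, ∀ y ∈ S, col x ≠ col y → ¬ x < y)
    (c : List α) (e : Option α) (hc : ∀ y ∈ c, y ∈ S) (he : ∀ y, e = some y → y ∈ S) (i : Bool)
    (hi : (ev c e).2.map col = some i) :
    (ev c e).1.filter (fun y => col y == i) = (ev (c.filter fun y => col y == i) e).1 ∧
      (ev c e).2 = (ev (c.filter fun y => col y == i) e).2 := by
  rcases e with _ | x
  · rcases c with _ | ⟨h, c⟩
    · exact ⟨rfl, rfl⟩
    · have h1 := pass_col S col hS c h (fun y hy => hc y (List.mem_cons_of_mem _ hy))
        (hc h List.mem_cons_self)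
      have h2 : col h = i := by
        have h3 : some (col (pass h c).2) = some i := hi
        rw [h1.2.1] at h3
        exact Option.some.inj h3
      rw [pp_fp h2]
      subst h2
      refine ⟨h1.2.2.1, ?_⟩
      change some (pass h c).2 = some (pass h (c.filter fun y => col y == col h)).2
      rw [← h1.2.2.2.1]
  · have h1 := pass_col S col hS c x hc (he x rfl)
    have h2 : col x = i := by
      have h3 : some (col (pass x c).2) = some i := hi
      rw [h1.2.1] at h3
      exact Option.some.inj h3
    subst h2
    refine ⟨h1.2.2.1, ?_⟩
    change some (pass x c).2 = some (pass x (c.filter fun y => col y == col x)).2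
    rw [← h1.2.2.2.1]

/-- the letters of the other colour -/
theorem ev_fil_other (S : Finset α) (col : α → Bool) (hS : ∀ x ∈ S, ∀ y ∈ S, col x ≠ col y → ¬ x < y)
    (c : List α) (e : Option α) (hc : ∀ y ∈ c, y ∈ S) (he : ∀ y, e = some y → y ∈ S) (i : Bool)
    (hi : (ev c e).2.map col ≠ some i) :
    (ev c e).1.filter (fun y => col y == i) = c.filter (fun y => col y == i) := by
  rcases e with _ | x
  · rcases c with _ | ⟨h, c⟩
    · rfl
    · have h1 := pass_col S col hS c h (fun y hy => hc y (List.mem_cons_of_mem _ hy))
        (hc h List.mem_cons_self)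
      have h2 : i ≠ col h := by
        intro h3
        apply hi
        change some (col (pass h c).2) = some i
        rw [h1.2.1, h3]
      rw [pp_fn h2.symm]
      exact h1.2.2.2.2 i h2
  · have h1 := pass_col S col hS c x hc (he x rfl)
    have h2 : i ≠ col x := by
      intro h3
      apply hi
      change some (col (pass x c).2) = some i
      rw [h1.2.1, h3]
    exact h1.2.2.2.2 i h2

end Pool.Agent.Work.MP_5db8eb_co.SP
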