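import Pool.Agent.Work.MP_5db8eb_co.SP.ParP
import Pool.Agent.Work.MP_5db8eb_co.SP.FillB

set_option autoImplicit false

/-!
# SP/ParS (size M)

Many events for a union of two sets without relations.
PROOFS. Induction on `E` (generalising `c`), with `ev_col`, `ev_fil`, `ev_fil_other` and `ev_mem`, `app_mem`. For `app`: `app c e = (ev c e).1 ++ (ev c e).2.toList`; if the colour of the letter which comes out is `i`
then the filtered contents are `(ev (filter c) e).1 ++ [that letter] = app (filter c) e`, and the event belongs to the list `fill (patA ..) ..`: first entry `e.isSome`; if `e = some x` then `col x = i`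
(the letter which comes out has the colour of `x`), so `x` is the first letter of `(e :: E).reduceOption.filter ..` and the first event of `fill` is `some x`; if `e = none` the first event is `none`.
If the colour is not `i` (or nothing comes out, then `c = []` and `e = none`) the filtered contents do not change, the pattern gets no entry, and a letter `e = some x` has `col x ≠ i`.
-/

namespace Pool.Agent.Work.MP_5db8eb_co.SP

open Classical

variable {α : Type*} [PartialOrder α]

omit [PartialOrder α] in
private theorem ps_head (col : α → Bool) (i : Bool) (e : Option α) (E : List (Option α))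
    (P : List Bool) (he : ∀ x, e = some x → col x = i) :
    fill (e.isSome :: P) ((e :: E).reduceOption.filter fun y => col y == i) =
      e :: fill P (E.reduceOption.filter fun y => col y == i) := by
  rcases e with _ | x
  · rw [List.reduceOption_cons_of_none]
    rfl
  · rw [List.reduceOption_cons_of_some, List.filter_cons_of_pos (by simp [he x rfl])]
    rfl

omit [PartialOrder α] in
private theorem ps_skip (col : α → Bool) (i : Bool) (e : Option α) (E : List (Option α))
    (he : ∀ x, e = some x → col x ≠ i) :
    ((e :: E).reduceOption.filter fun y => col y == i) =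
      (E.reduceOption.filter fun y => col y == i) := by
  rcases e with _ | x
  · rw [List.reduceOption_cons_of_none]
  · rw [List.reduceOption_cons_of_some, List.filter_cons_of_neg (by simp [he x rfl])]

private theorem ps_app_col (S : Finset α) (col : α → Bool)
    (hS : ∀ x ∈ S, ∀ y ∈ S, col x ≠ col y → ¬ x < y)
    (c : List α) (e : Option α) (hc : ∀ y ∈ c, y ∈ S) (he : ∀ y, e = some y → y ∈ S) :
    (app c e).map col = capp (c.map col) (e.map col) := by
  obtain ⟨h1, h2⟩ := ev_col S col hS c e hc he
  unfold app capp
  rw [List.map_append, h1, ← h2]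
  congr 1
  cases (ev c e).2 <;> rfl

private theorem ps_mem_app (S : Finset α) (c : List α) (e : Option α) (hc : ∀ y ∈ c, y ∈ S)
    (he : ∀ y, e = some y → y ∈ S) : ∀ y ∈ app c e, y ∈ S := by
  intro y hy
  rcases app_mem hy with h | h
  · exact hc y h
  · exact he y h

private theorem ps_mem_ev (S : Finset α) (c : List α) (e : Option α) (hc : ∀ y ∈ c, y ∈ S)
    (he : ∀ y, e = some y → y ∈ S) : ∀ y ∈ (ev c e).1, y ∈ S := by
  intro y hy
  rcases ev_mem (Or.inl hy) with h | h
  · exact hc y h
  · exact he y h

/-- the colour of the event is the colour of the letter which comes out -/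
private theorem ps_ev_some (S : Finset α) (col : α → Bool)
    (hS : ∀ x ∈ S, ∀ y ∈ S, col x ≠ col y → ¬ x < y)
    (c : List α) (x : α) (hc : ∀ y ∈ c, y ∈ S) (hx : x ∈ S) :
    (ev c (some x)).2.map col = some (col x) :=
  (ev_col S col hS c (some x) hc (fun y hy => by
    rw [← Option.some.inj hy]
    exact hx)).2

private theorem ps_app_fil (S : Finset α) (col : α → Bool)
    (hS : ∀ x ∈ S, ∀ y ∈ S, col x ≠ col y → ¬ x < y)
    (c : List α) (e : Option α) (hc : ∀ y ∈ c, y ∈ S) (he : ∀ y, e = some y → y ∈ S) (i : Bool)
    (hi : (ev c e).2.map col = some i) :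
    (app c e).filter (fun y => col y == i) = app (c.filter fun y => col y == i) e := by
  obtain ⟨h1, h2⟩ := ev_fil S col hS c e hc he i hi
  unfold app
  rw [List.filter_append, h1, ← h2]
  congr 1
  rcases hz : (ev c e).2 with _ | z
  · rfl
  · rw [hz] at hi
    have h3 : col z = i := Option.some.inj hi
    change [z].filter (fun y => col y == i) = [z]
    simp [h3]

private theorem ps_app_other (S : Finset α) (col : α → Bool)
    (hS : ∀ x ∈ S, ∀ y ∈ S, col x ≠ col y → ¬ x < y)
    (c : List α) (e : Option α) (hc : ∀ y ∈ c, y ∈ S) (he : ∀ y, e = some y → y ∈ S) (i : Bool)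
    (hi : (ev c e).2.map col ≠ some i) :
    (app c e).filter (fun y => col y == i) = c.filter fun y => col y == i := by
  have h1 := ev_fil_other S col hS c e hc he i hi
  unfold app
  rw [List.filter_append, h1]
  rcases hz : (ev c e).2 with _ | z
  · exact List.append_nil _
  · rw [hz] at hi
    have h3 : col z ≠ i := fun h => hi (congrArg some h)
    have h4 : [z].filter (fun y => col y == i) = [] := by simp [h3]
    change _ ++ [z].filter (fun y => col y == i) = _
    rw [h4, List.append_nil]

theorem st_col (S : Finset α) (col : α → Bool) (hS : ∀ x ∈ S, ∀ y ∈ S, col x ≠ col y → ¬ x < y)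
    (c : List α) (E : List (Option α)) (hc : ∀ y ∈ c, y ∈ S) (hE : ∀ y, some y ∈ E → y ∈ S) :
    (st c E).map col = cst (c.map col) (E.map (Option.map col)) := by
  induction E generalizing c with
  | nil => rfl
  | cons e E ih =>
    have he : ∀ y, e = some y → y ∈ S := fun y hy => hE y (hy ▸ List.mem_cons_self)
    have hE' : ∀ y, some y ∈ E → y ∈ S := fun y hy => hE y (List.mem_cons_of_mem _ hy)
    have h1 := ih (app c e) (ps_mem_app S c e hc he) hE'
    change (st (app c e) E).map col = cst (capp (c.map col) (e.map col)) (E.map (Option.map col))
    rw [h1, ps_app_col S col hS c e hc he]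

theorem em_col (S : Finset α) (col : α → Bool) (hS : ∀ x ∈ S, ∀ y ∈ S, col x ≠ col y → ¬ x < y)
    (c : List α) (E : List (Option α)) (hc : ∀ y ∈ c, y ∈ S) (hE : ∀ y, some y ∈ E → y ∈ S) :
    (em c E).map (Option.map col) = cem (c.map col) (E.map (Option.map col)) := by
  induction E generalizing c with
  | nil => rfl
  | cons e E ih =>
    have he : ∀ y, e = some y → y ∈ S := fun y hy => hE y (hy ▸ List.mem_cons_self)
    have hE' : ∀ y, some y ∈ E → y ∈ S := fun y hy => hE y (List.mem_cons_of_mem _ hy)
    have h1 := ih (ev c e).1 (ps_mem_ev S c e hc he) hE'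
    obtain ⟨h2, h3⟩ := ev_col S col hS c e hc he
    change (ev c e).2.map col :: (em (ev c e).1 E).map (Option.map col) =
      (cev (c.map col) (e.map col)).2 :: cem (cev (c.map col) (e.map col)).1
        (E.map (Option.map col))
    rw [h1, h2, h3]

theorem st_fil (S : Finset α) (col : α → Bool) (hS : ∀ x ∈ S, ∀ y ∈ S, col x ≠ col y → ¬ x < y)
    (c : List α) (E : List (Option α)) (hc : ∀ y ∈ c, y ∈ S) (hE : ∀ y, some y ∈ E → y ∈ S) (i : Bool) :
    (st c E).filter (fun y => col y == i) =
      st (c.filter fun y => col y == i) (fill (patA i (c.map col) (E.map (Option.map col)))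
        (E.reduceOption.filter fun y => col y == i)) := by
  induction E generalizing c with
  | nil => rfl
  | cons e E ih =>
    have he : ∀ y, e = some y → y ∈ S := fun y hy => hE y (hy ▸ List.mem_cons_self)
    have hE' : ∀ y, some y ∈ E → y ∈ S := fun y hy => hE y (List.mem_cons_of_mem _ hy)
    have h1 := ih (app c e) (ps_mem_app S c e hc he) hE'
    have hcol := (ev_col S col hS c e hc he).2
    have hp : patA i (c.map col) ((e :: E).map (Option.map col)) =
        (if (ev c e).2.map col = some i then [e.isSome] else []) ++
          patA i ((app c e).map col) (E.map (Option.map col)) := by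
      rw [List.map_cons, patA, ← hcol, ps_app_col S col hS c e hc he, Option.isSome_map]
    rw [hp]
    change (st (app c e) E).filter (fun y => col y == i) = _
    rw [h1]
    by_cases hi : (ev c e).2.map col = some i
    · have hx : ∀ x, e = some x → col x = i := by
        rintro x rfl
        rw [ps_ev_some S col hS c x hc (he x rfl)] at hi
        exact Option.some.inj hi
      rw [if_pos hi, List.singleton_append, ps_head col i e E _ hx,
        ps_app_fil S col hS c e hc he i hi]
      rfl
    · have hx : ∀ x, e = some x → col x ≠ i := by
        rintro x rfl h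
        rw [ps_ev_some S col hS c x hc (he x rfl), h] at hi
        exact hi rfl
      rw [if_neg hi, List.nil_append, ps_skip col i e E hx,
        ps_app_other S col hS c e hc he i hi]

theorem em_fil (S : Finset α) (col : α → Bool) (hS : ∀ x ∈ S, ∀ y ∈ S, col x ≠ col y → ¬ x < y)
    (c : List α) (E : List (Option α)) (hc : ∀ y ∈ c, y ∈ S) (hE : ∀ y, some y ∈ E → y ∈ S) (i : Bool) :
    (em c E).filter (fun o => o.map col == some i) =
      em (c.filter fun y => col y == i) (fill (patE i (c.map col) (E.map (Option.map col)))
        (E.reduceOption.filter fun y => col y == i)) := by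
  induction E generalizing c with
  | nil => rfl
  | cons e E ih =>
    have he : ∀ y, e = some y → y ∈ S := fun y hy => hE y (hy ▸ List.mem_cons_self)
    have hE' : ∀ y, some y ∈ E → y ∈ S := fun y hy => hE y (List.mem_cons_of_mem _ hy)
    have h1 := ih (ev c e).1 (ps_mem_ev S c e hc he) hE'
    have hcol := ev_col S col hS c e hc he
    have hp : patE i (c.map col) ((e :: E).map (Option.map col)) =
        (if (ev c e).2.map col = some i then [e.isSome] else []) ++
          patE i ((ev c e).1.map col) (E.map (Option.map col)) := by
      rw [List.map_cons, patE, ← hcol.2, ← hcol.1, Option.isSome_map]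
    rw [hp]
    change ((ev c e).2 :: em (ev c e).1 E).filter (fun o => o.map col == some i) = _
    by_cases hi : (ev c e).2.map col = some i
    · have hx : ∀ x, e = some x → col x = i := by
        rintro x rfl
        rw [ps_ev_some S col hS c x hc (he x rfl)] at hi
        exact Option.some.inj hi
      obtain ⟨h2, h3⟩ := ev_fil S col hS c e hc he i hi
      rw [List.filter_cons_of_pos (by simp [hi]), h1, if_pos hi, List.singleton_append,
        ps_head col i e E _ hx, em, h2, h3]
    · have hx : ∀ x, e = some x → col x ≠ i := by
        rintro x rfl h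
        rw [ps_ev_some S col hS c x hc (he x rfl), h] at hi
        exact hi rfl
      have h2 := ev_fil_other S col hS c e hc he i hi
      rw [List.filter_cons_of_neg (by simpa using hi), h1, if_neg hi, List.nil_append,
        ps_skip col i e E hx, h2]

end Pool.Agent.Work.MP_5db8eb_co.SP
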