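import Pool.Agent.Work.MP_5db8eb_co.SP.Defs

set_option autoImplicit false

/-!
# SP/PassB (size S-M)

Basic facts on passing the cells.
PROOFS. All by induction on `c` (generalising `x`), unfolding `pass` (`split_ifs`).
-/

namespace Pool.Agent.Work.MP_5db8eb_co.SP

open Classical

variable {α : Type*} [PartialOrder α]

theorem pass_nil (x : α) : pass x [] = ([], x) := by
  simp [pass]

theorem pass_pos {x h : α} {c : List α} (hx : h < x) : pass x (h :: c) = (x :: (pass h c).1, (pass h c).2) := by
  rw [pass, if_pos hx]

theorem pass_neg {x h : α} {c : List α} (hx : ¬ h < x) : pass x (h :: c) = (h :: (pass x c).1, (pass x c).2) := by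
  rw [pass, if_neg hx]

theorem pass_length (x : α) (c : List α) : (pass x c).1.length = c.length := by
  induction c generalizing x with
  | nil => simp [pass_nil]
  | cons h c ih =>
    by_cases hx : h < x
    · simp [pass_pos hx, ih]
    · simp [pass_neg hx, ih]

theorem pass_perm (x : α) (c : List α) : ((pass x c).2 :: (pass x c).1).Perm (x :: c) := by
  induction c generalizing x with
  | nil => simp [pass_nil]
  | cons h c ih =>
    by_cases hx : h < x
    · rw [pass_pos hx]
      exact (List.Perm.swap _ _ _).trans ((ih h).cons x)
    · rw [pass_neg hx]
      exact ((List.Perm.swap _ _ _).trans ((ih x).cons h)).trans (List.Perm.swap _ _ _)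

theorem pass_le (x : α) (c : List α) : (pass x c).2 ≤ x := by
  induction c generalizing x with
  | nil => simp [pass_nil]
  | cons h c ih =>
    by_cases hx : h < x
    · rw [pass_pos hx]
      exact (ih h).trans hx.le
    · rw [pass_neg hx]
      exact ih x

/-- nothing happens if no content is smaller -/
theorem pass_id {x : α} {c : List α} (h : ∀ y ∈ c, ¬ y < x) : pass x c = (c, x) := by
  induction c with
  | nil => simp [pass_nil]
  | cons a c ih =>
    rw [pass_neg (h a (by simp)), ih (fun y hy => h y (by simp [hy]))]

theorem pass_append (x : α) (c d : List α) :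
    pass x (c ++ d) = ((pass x c).1 ++ (pass (pass x c).2 d).1, (pass (pass x c).2 d).2) := by
  induction c generalizing x with
  | nil => simp [pass_nil]
  | cons h c ih =>
    by_cases hx : h < x
    · rw [List.cons_append, pass_pos hx, pass_pos hx, ih h]
      simp
    · rw [List.cons_append, pass_neg hx, pass_neg hx, ih x]
      simp

end Pool.Agent.Work.MP_5db8eb_co.SP
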