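import Pool.Agent.Work.MP_5db8eb_co.SP.FillB
import Pool.Agent.Work.MP_5db8eb_co.SP.Cols

set_option autoImplicit false

/-!
# SP/PatB (size M)

Counts for the patterns of one colour, and the number of colourings with a given list of colours which come out.
PROOFS. `patA_count`, `patE_count`: induction on `E`: an event `some b` gives the colour `b`, so it gives an entry `true` of the pattern iff `b = i`; a top gives an entry `false` or nothing.
`patE_length`: induction on `E`.
`card_ec`: let `Fin χ` = (the queue after all events, the list of colours which come out at the last events). It determines `χ` (for fixed `τ`, `σ`): prove by induction on the pattern that `(q, χ) ↦ cst q (fill τ χ)` is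
injective on the pairs with `χ.length = τ.count true` (for `true`: `q ++ [b]` determines `q` and `b`; for `false` the rotation `[] ↦ []`, `b :: q ↦ q ++ [b]` is injective), and that `(q, χ) ↦` (last queue, `cem q (fill σ χ)`)
is injective on the pairs with `χ.length = σ.count true` (for `true`: `b` is the colour which comes out, `q` stays; for `false`: `(q', some b)` determines `b :: q'`, and `([], none)` determines `[]`). Count: the number of `true`
in the last queue plus the number of `some true` which came out is `χ.count true` (induction), the same for `false`. So if `o.map some` comes out, the last queue is in `cols (N1 - o.count true) (N2 - o.count false)`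
(and the two inequalities hold); `card_cols`; `(N1 - o.count true) + (N2 - o.count false) = N1 + N2 - o.length`.
-/

namespace Pool.Agent.Work.MP_5db8eb_co.SP

open Classical


theorem patA_count (i : Bool) (q : List Bool) (E : List (Option Bool)) :
    (patA i q E).count true = E.reduceOption.count i := by
  induction E generalizing q with
  | nil => simp [patA]
  | cons e E ih =>
    rw [patA, List.count_append, ih]
    cases e with
    | none =>
      rw [List.reduceOption_cons_of_none]
      split_ifs <;> simp
    | some b =>
      rw [List.reduceOption_cons_of_some]
      simp only [cev, Option.some.injEq, Option.isSome_some]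
      by_cases hb : b = i
      · subst hb
        simp [Nat.add_comm]
      · rw [if_neg hb, List.count_cons_of_ne hb]
        simp

theorem patE_count (i : Bool) (q : List Bool) (E : List (Option Bool)) :
    (patE i q E).count true = E.reduceOption.count i := by
  induction E generalizing q with
  | nil => simp [patE]
  | cons e E ih =>
    rw [patE, List.count_append, ih]
    cases e with
    | none =>
      rw [List.reduceOption_cons_of_none]
      split_ifs <;> simp
    | some b =>
      rw [List.reduceOption_cons_of_some]
      simp only [cev, Option.some.injEq, Option.isSome_some]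
      by_cases hb : b = i
      · subst hb
        simp [Nat.add_comm]
      · rw [if_neg hb, List.count_cons_of_ne hb]
        simp

theorem patE_length (i : Bool) (q : List Bool) (E : List (Option Bool)) :
    (patE i q E).length = (cem q E).count (some i) := by
  induction E generalizing q with
  | nil => simp [patE, cem]
  | cons e E ih =>
    rw [patE, cem, List.length_append, ih]
    by_cases hb : (cev q e).2 = some i
    · rw [if_pos hb, hb, List.count_cons_self]
      simp [Nat.add_comm]
    · rw [if_neg hb, List.count_cons_of_ne hb]
      simp

theorem cem_length (q : List Bool) (E : List (Option Bool)) : (cem q E).length = E.length := by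
  induction E generalizing q with
  | nil => simp [cem]
  | cons e E ih => rw [cem, List.length_cons, ih, List.length_cons]

private def cq (q : List Bool) (E : List (Option Bool)) : List Bool :=
  E.foldl (fun q e => (cev q e).1) q

private theorem capp_none_inj {q q' : List Bool} (h : capp q none = capp q' none) : q = q' := by
  cases q with
  | nil =>
    cases q' with
    | nil => rfl
    | cons b q' => simp [capp, cev] at h
  | cons a q =>
    cases q' with
    | nil => simp [capp, cev] at h
    | cons b q' =>
      simp only [capp, cev, Option.toList_some] at h
      obtain ⟨h1, h2⟩ := List.append_inj' h rfl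
      rw [h1, List.singleton_inj.1 h2]

private theorem capp_some_inj {q q' : List Bool} {a b : Bool}
    (h : capp q (some a) = capp q' (some b)) : q = q' ∧ a = b := by
  simp only [capp, cev, Option.toList_some] at h
  obtain ⟨h1, h2⟩ := List.append_inj' h rfl
  exact ⟨h1, List.singleton_inj.1 h2⟩

private theorem inj1 (τ : List Bool) : ∀ (q q' χ χ' : List Bool), χ.length = τ.count true →
    χ'.length = τ.count true → cst q (fill τ χ) = cst q' (fill τ χ') → q = q' ∧ χ = χ' := by
  induction τ with
  | nil =>
    intro q q' χ χ' h h' e
    rw [List.count_nil, List.length_eq_zero_iff] at h h'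
    subst h h'
    exact ⟨e, rfl⟩
  | cons t τ ih =>
    intro q q' χ χ' h h' e
    cases t with
    | true =>
      rw [List.count_cons_self] at h h'
      obtain ⟨a, χ, rfl⟩ := List.exists_cons_of_length_eq_add_one h
      obtain ⟨b, χ', rfl⟩ := List.exists_cons_of_length_eq_add_one h'
      rw [List.length_cons, Nat.add_right_cancel_iff] at h h'
      have e' : cst (capp q (some a)) (fill τ χ) = cst (capp q' (some b)) (fill τ χ') := e
      obtain ⟨h1, h2⟩ := ih _ _ _ _ h h' e'
      obtain ⟨h3, h4⟩ := capp_some_inj h1
      exact ⟨h3, by rw [h4, h2]⟩
    | false =>
      rw [List.count_cons_of_ne (by decide)] at h h'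
      have hf : ∀ s : List Bool, fill (false :: τ) s = none :: fill τ s := by
        intro s
        rw [fill]
      rw [hf, hf] at e
      have e' : cst (capp q none) (fill τ χ) = cst (capp q' none) (fill τ χ') := e
      obtain ⟨h1, h2⟩ := ih _ _ _ _ h h' e'
      exact ⟨capp_none_inj h1, h2⟩

private theorem inj2 (τ : List Bool) : ∀ (q q' χ χ' : List Bool), χ.length = τ.count true →
    χ'.length = τ.count true → cq q (fill τ χ) = cq q' (fill τ χ') →
    cem q (fill τ χ) = cem q' (fill τ χ') → q = q' ∧ χ = χ' := by
  induction τ with
  | nil =>
    intro q q' χ χ' h h' e _
    rw [List.count_nil, List.length_eq_zero_iff] at h h'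
    subst h h'
    exact ⟨e, rfl⟩
  | cons t τ ih =>
    intro q q' χ χ' h h' e ee
    cases t with
    | true =>
      rw [List.count_cons_self] at h h'
      obtain ⟨a, χ, rfl⟩ := List.exists_cons_of_length_eq_add_one h
      obtain ⟨b, χ', rfl⟩ := List.exists_cons_of_length_eq_add_one h'
      rw [List.length_cons, Nat.add_right_cancel_iff] at h h'
      have e' : cq q (fill τ χ) = cq q' (fill τ χ') := e
      have ee' : some a :: cem q (fill τ χ) = some b :: cem q' (fill τ χ') := ee
      obtain ⟨h1, h2⟩ := List.cons.inj ee'
      obtain ⟨h3, h4⟩ := ih _ _ _ _ h h' e' h2
      exact ⟨h3, by rw [Option.some.inj h1, h4]⟩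
    | false =>
      rw [List.count_cons_of_ne (by decide)] at h h'
      have hf : ∀ s : List Bool, fill (false :: τ) s = none :: fill τ s := by
        intro s
        rw [fill]
      rw [hf, hf] at e ee
      have e' : cq (cev q none).1 (fill τ χ) = cq (cev q' none).1 (fill τ χ') := e
      have ee' : (cev q none).2 :: cem (cev q none).1 (fill τ χ) =
        (cev q' none).2 :: cem (cev q' none).1 (fill τ χ') := ee
      obtain ⟨h1, h2⟩ := List.cons.inj ee'
      obtain ⟨h3, h4⟩ := ih _ _ _ _ h h' e' h2
      refine ⟨?_, h4⟩
      cases q with
      | nil =>
        cases q' with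
        | nil => rfl
        | cons b q' => simp [cev] at h1
      | cons a q =>
        cases q' with
        | nil => simp [cev] at h1
        | cons b q' =>
          simp only [cev, Option.some.injEq] at h1 h3
          rw [h1, h3]

private theorem count_cst (i : Bool) (τ : List Bool) : ∀ (q χ : List Bool), χ.length = τ.count true →
    (cst q (fill τ χ)).count i = q.count i + χ.count i := by
  induction τ with
  | nil =>
    intro q χ h
    rw [List.count_nil, List.length_eq_zero_iff] at h
    subst h
    simp [fill, cst]
  | cons t τ ih =>
    intro q χ h
    cases t with
    | true =>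
      rw [List.count_cons_self] at h
      obtain ⟨a, χ, rfl⟩ := List.exists_cons_of_length_eq_add_one h
      rw [List.length_cons, Nat.add_right_cancel_iff] at h
      have e : cst q (fill (true :: τ) (a :: χ)) = cst (capp q (some a)) (fill τ χ) := rfl
      rw [e, ih _ _ h]
      simp only [capp, cev, Option.toList_some, List.count_append, List.count_cons, List.count_nil]
      omega
    | false =>
      rw [List.count_cons_of_ne (by decide)] at h
      have hf : ∀ s : List Bool, fill (false :: τ) s = none :: fill τ s := by
        intro s
        rw [fill]
      have e : cst q (none :: fill τ χ) = cst (capp q none) (fill τ χ) := rfl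
      rw [hf, e, ih _ _ h]
      cases q with
      | nil => simp [capp, cev]
      | cons a q =>
        simp only [capp, cev, Option.toList_some, List.count_append, List.count_cons,
          List.count_nil]
        omega

private theorem count_cq (i : Bool) (τ : List Bool) : ∀ (q χ : List Bool), χ.length = τ.count true →
    (cq q (fill τ χ)).count i + (cem q (fill τ χ)).count (some i) = q.count i + χ.count i := by
  induction τ with
  | nil =>
    intro q χ h
    rw [List.count_nil, List.length_eq_zero_iff] at h
    subst h
    simp [fill, cq, cem]
  | cons t τ ih =>
    intro q χ h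
    cases t with
    | true =>
      rw [List.count_cons_self] at h
      obtain ⟨a, χ, rfl⟩ := List.exists_cons_of_length_eq_add_one h
      rw [List.length_cons, Nat.add_right_cancel_iff] at h
      have e : cq q (fill (true :: τ) (a :: χ)) = cq q (fill τ χ) := rfl
      have e' : cem q (fill (true :: τ) (a :: χ)) = some a :: cem q (fill τ χ) := rfl
      have h1 := ih q _ h
      rw [e, e']
      rcases eq_or_ne a i with rfl | hai
      · rw [List.count_cons_self, List.count_cons_self]
        omega
      · rw [List.count_cons_of_ne hai, List.count_cons_of_ne (fun hh => hai (Option.some.inj hh))]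
        omega
    | false =>
      rw [List.count_cons_of_ne (by decide)] at h
      have hf : ∀ s : List Bool, fill (false :: τ) s = none :: fill τ s := by
        intro s
        rw [fill]
      have e : cq q (none :: fill τ χ) = cq (cev q none).1 (fill τ χ) := rfl
      have e' : cem q (none :: fill τ χ) = (cev q none).2 :: cem (cev q none).1 (fill τ χ) := rfl
      have h1 := ih (cev q none).1 _ h
      rw [hf, e, e']
      cases q with
      | nil =>
        simp only [cev] at h1 ⊢
        rw [List.count_cons_of_ne (by simp)]
        omega
      | cons a q =>
        simp only [cev] at h1 ⊢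
        rcases eq_or_ne a i with rfl | hai
        · rw [List.count_cons_self, List.count_cons_self]
          omega
        · rw [List.count_cons_of_ne hai,
            List.count_cons_of_ne (fun hh => hai (Option.some.inj hh))]
          omega

theorem card_ec (N1 N2 : ℕ) (τ σ : List Bool) (h : (τ ++ σ).count true = N1 + N2) (o : List Bool)
    (ho : o.length = σ.length) :
    ((cols N1 N2).filter fun χ => cem (cst [] (fill τ χ)) (fill σ (χ.drop (τ.count true))) = o.map some).card ≤
      if o.count true ≤ N1 ∧ o.count false ≤ N2 then (N1 + N2 - o.length).choose (N1 - o.count true) else 0 := by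
  have hlen : ∀ χ ∈ cols N1 N2, χ.length = N1 + N2 := by
    intro χ hχ
    obtain ⟨h1, h2⟩ := mem_cols.1 hχ
    rw [← List.count_true_add_count_false χ, h1, h2]
  rw [List.count_append] at h
  have ht : ∀ χ ∈ cols N1 N2, (χ.take (τ.count true)).length = τ.count true := by
    intro χ hχ
    rw [List.length_take, hlen χ hχ]
    omega
  have hd : ∀ χ ∈ cols N1 N2, (χ.drop (τ.count true)).length = σ.count true := by
    intro χ hχ
    rw [List.length_drop, hlen χ hχ]
    omega
  have hcount : ∀ (i : Bool) (χ), χ ∈ cols N1 N2 →
      cem (cst [] (fill τ χ)) (fill σ (χ.drop (τ.count true))) = o.map some →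
      (cq (cst [] (fill τ χ)) (fill σ (χ.drop (τ.count true)))).count i + o.count i =
        χ.count i := by
    intro i χ hχ he
    have h1 := count_cq i σ (cst [] (fill τ χ)) _ (hd χ hχ)
    have h2 := count_cst i τ [] _ (ht χ hχ)
    rw [fill_take] at h2
    rw [he, List.count_map_of_injective _ _ (Option.some_injective _), h2] at h1
    have h3 : χ.count i = (χ.take (τ.count true)).count i + (χ.drop (τ.count true)).count i := by
      rw [← List.count_append, List.take_append_drop]
    rw [h1, h3, List.count_nil, Nat.zero_add]
  split_ifs with hle
  · have hsum : N1 + N2 - o.length = (N1 - o.count true) + (N2 - o.count false) := by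
      rw [← List.count_true_add_count_false o]
      omega
    rw [hsum, ← card_cols]
    refine Finset.card_le_card_of_injOn
      (fun χ => cq (cst [] (fill τ χ)) (fill σ (χ.drop (τ.count true)))) ?_ ?_
    · intro χ hχ
      obtain ⟨h1, h2⟩ := Finset.mem_filter.1 (Finset.mem_coe.1 hχ)
      have h3 := hcount true χ h1 h2
      have h4 := hcount false χ h1 h2
      obtain ⟨h5, h6⟩ := mem_cols.1 h1
      apply Finset.mem_coe.2
      rw [mem_cols]
      constructor
      · rw [h5] at h3
        dsimp only
        omega
      · rw [h6] at h4
        dsimp only
        omega
    · intro χ hχ χ' hχ' he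
      obtain ⟨h1, h2⟩ := Finset.mem_filter.1 (Finset.mem_coe.1 hχ)
      obtain ⟨h1', h2'⟩ := Finset.mem_filter.1 (Finset.mem_coe.1 hχ')
      obtain ⟨h3, h4⟩ := inj2 σ _ _ _ _ (hd χ h1) (hd χ' h1') he (h2.trans h2'.symm)
      rw [← fill_take τ χ, ← fill_take τ χ'] at h3
      obtain ⟨-, h5⟩ := inj1 τ _ _ _ _ (ht χ h1) (ht χ' h1') h3
      rw [← List.take_append_drop (τ.count true) χ, h4, h5, List.take_append_drop]
  · rw [Nat.le_zero, Finset.card_eq_zero, Finset.filter_eq_empty_iff]
    intro χ hχ he
    apply hle
    obtain ⟨h5, h6⟩ := mem_cols.1 hχ
    have h3 := hcount true χ hχ he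
    have h4 := hcount false χ hχ he
    constructor
    · omega
    · omega


end Pool.Agent.Work.MP_5db8eb_co.SP
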