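import Pool.Agent.Work.MP_5db8eb_co.SP.EvB

set_option autoImplicit false

/-!
# SP/Row (size M)

Rows and columns: the first letters of the `k`-th iterated step.
`swp` is one step for words: hold the first letter, read the others; if the letter read is bigger than the held one, write the held one and hold the letter read, otherwise write the letter read; at the end write the held letter.
PROOF of `take_swp`. Let `run c w` be the pair (contents, letters which come out) when the letters `w` pass the cells `c` one after the other without new cells (so the second component is `em c (w.map some)` without `some`).
(a) One cell: the first `w'.length` letters of `sweep x w'` are the letters which come out of `run [x] w'`, and the last one is the content (induction on `w'`).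
(b) `run (h :: c) v`: the letters which come out of `run [h] v` pass `c` (induction on `v`, definition of `pass`).
(c) `st [] (x :: u)` (as letters) `= h :: st [] e1` where `run [x] u = ([h], e1)`: induction on `u` from the right (`List.reverseRecOn`).
(d) By induction on `k`: if `u.length = k` then the first `v.length` letters of `swp^[k] (u ++ v)` are the letters which come out of `run (st [] u) v`. Step: `u = x :: u'`; `swp (x :: u' ++ v) = e1 ++ ev ++ [..]`, `e1` = letters which come out of `run [x] u'` (length `k`), `ev` those of
`run [h] v`; the first letters of `swp^[k]` of a word depend only on the first letters (the first `m` letters of `swp w` are determined by the first `m + 1` letters of `w`), use the induction hypothesis for `e1 ++ ev`, (b) and (c).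
Finally `emk (w.length - k) (w.map some) = em (st [] (u.map some)) (v.map some)` with `u = w.take k`, `v = w.drop k`.
-/

namespace Pool.Agent.Work.MP_5db8eb_co.SP

open Classical

variable {α : Type*} [PartialOrder α]

/-- hold `h`, read the word -/
noncomputable def sweep : α → List α → List α
  | h, [] => [h]
  | h, y :: w => if h < y then h :: sweep y w else y :: sweep h w

/-- one step -/
noncomputable def swp : List α → List α
  | [] => []
  | x :: w => sweep x w

theorem sweep_perm (h : α) (w : List α) : (sweep h w).Perm (h :: w) := by
  induction w generalizing h with
  | nil => exact List.Perm.refl _
  | cons y w ih =>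
    rw [sweep]
    by_cases hy : h < y
    · rw [if_pos hy]
      exact (ih y).cons h
    · rw [if_neg hy]
      exact ((ih h).cons y).trans (List.Perm.swap h y w)

theorem swp_perm (w : List α) : (swp w).Perm w := by
  cases w with
  | nil => exact List.Perm.refl _
  | cons x w => exact sweep_perm x w

/-- the letters pass the cells: contents and the letters which come out -/
private noncomputable def run (c : List α) : List α → List α × List α
  | [] => (c, [])
  | y :: w => ((run (pass y c).1 w).1, (pass y c).2 :: (run (pass y c).1 w).2)

private theorem run_len (c w : List α) : (run c w).2.length = w.length := by
  induction w generalizing c with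
  | nil => rfl
  | cons y w ih => rw [run, List.length_cons, List.length_cons, ih]

private theorem run_append (c u v : List α) :
    run c (u ++ v) = ((run (run c u).1 v).1, (run c u).2 ++ (run (run c u).1 v).2) := by
  induction u generalizing c with
  | nil => rfl
  | cons y u ih =>
    rw [List.cons_append, run, ih, run]
    rfl

/-- the first cell -/
private noncomputable def h1 (h : α) : List α → α
  | [] => h
  | y :: w => if h < y then h1 y w else h1 h w

/-- the letters which come out of the first cell -/
private noncomputable def e1 (h : α) : List α → List α
  | [] => []
  | y :: w => if h < y then h :: e1 y w else y :: e1 h w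

private theorem e1_len (h : α) (w : List α) : (e1 h w).length = w.length := by
  induction w generalizing h with
  | nil => rfl
  | cons y w ih =>
    rw [e1]
    split_ifs <;> rw [List.length_cons, List.length_cons, ih]

private theorem h1_append (h : α) (u v : List α) : h1 h (u ++ v) = h1 (h1 h u) v := by
  induction u generalizing h with
  | nil => rfl
  | cons y u ih =>
    rw [List.cons_append, h1, h1]
    split_ifs
    · exact ih y
    · exact ih h

private theorem e1_append (h : α) (u v : List α) : e1 h (u ++ v) = e1 h u ++ e1 (h1 h u) v := by
  induction u generalizing h with
  | nil => rfl
  | cons y u ih =>
    rw [List.cons_append, e1, e1, h1]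
    split_ifs
    · rw [ih y, List.cons_append]
    · rw [ih h, List.cons_append]

private theorem sweep_eq (h : α) (w : List α) : sweep h w = e1 h w ++ [h1 h w] := by
  induction w generalizing h with
  | nil => rfl
  | cons y w ih =>
    rw [sweep, e1, h1]
    split_ifs
    · rw [ih y, List.cons_append]
    · rw [ih h, List.cons_append]

private theorem run_cons (h : α) (c v : List α) :
    run (h :: c) v = (h1 h v :: (run c (e1 h v)).1, (run c (e1 h v)).2) := by
  induction v generalizing h c with
  | nil => rfl
  | cons y v ih =>
    rw [run, pass, h1, e1]
    split_ifs
    · rw [ih, run]
    · rw [ih, run]

private theorem st_cons (x : α) (u : List α) :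
    st [] ((x :: u).map some) = h1 x u :: st [] ((e1 x u).map some) := by
  induction u using List.reverseRecOn with
  | nil => rfl
  | append_singleton u y ih =>
    rw [← List.cons_append, List.map_append, st_append, ih, h1_append, e1_append, List.map_append,
      st_append]
    show app (h1 x u :: st [] ((e1 x u).map some)) (some y) = _
    rw [h1, e1, h1, h1]
    unfold app ev
    simp only [pass]
    split_ifs
    · rfl
    · rfl

private theorem take_sweep (m : ℕ) (x : α) (w : List α) :
    (sweep x w).take m = (sweep x (w.take m)).take m := by
  induction w generalizing x m with
  | nil => rw [List.take_nil]
  | cons y w ih =>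
    cases m with
    | zero => rfl
    | succ m =>
      rw [List.take_succ_cons, sweep, sweep]
      split_ifs
      · rw [List.take_succ_cons, List.take_succ_cons, ih]
      · rw [List.take_succ_cons, List.take_succ_cons, ih]

private theorem take_swp1 (m : ℕ) (w : List α) :
    (swp w).take m = (swp (w.take (m + 1))).take m := by
  cases w with
  | nil => rfl
  | cons x w =>
    rw [List.take_succ_cons]
    exact take_sweep m x w

private theorem take_swpk (k m : ℕ) (w : List α) :
    (swp^[k] w).take m = (swp^[k] (w.take (m + k))).take m := by
  induction k generalizing m w with
  | zero =>
    rw [Function.iterate_zero, id, id, Nat.add_zero, List.take_take, min_self]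
  | succ k ih =>
    rw [Function.iterate_succ_apply, Function.iterate_succ_apply, ih m (swp w),
      ih m (swp (w.take (m + (k + 1)))), take_swp1 (m + k) w]
    rfl

private theorem main_run (k : ℕ) (u v : List α) (hu : u.length = k) :
    (swp^[k] (u ++ v)).take v.length = (run (st [] (u.map some)) v).2 := by
  induction k generalizing u v with
  | zero =>
    obtain rfl := List.length_eq_zero_iff.1 hu
    have h2 : ∀ w : List α, (run [] w).2 = w := by
      intro w
      induction w with
      | nil => rfl
      | cons y w ih =>
        rw [run, pass, ih]
    rw [Function.iterate_zero, id, List.nil_append, List.take_length]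
    exact (h2 v).symm
  | succ k ih =>
    cases u with
    | nil => simp at hu
    | cons x u =>
      have hu' : u.length = k := by simpa using hu
      rw [Function.iterate_succ_apply, List.cons_append]
      show (swp^[k] (sweep x (u ++ v))).take v.length = _
      rw [sweep_eq, e1_append, take_swpk, st_cons, run_cons]
      have h3 : ((e1 x u ++ e1 (h1 x u) v) ++ [h1 x (u ++ v)]).take (v.length + k) =
          e1 x u ++ e1 (h1 x u) v := by
        rw [List.take_left']
        rw [List.length_append, e1_len, e1_len, hu']
        omega
      rw [h3]
      have h4 := ih (e1 x u) (e1 (h1 x u) v) (by rw [e1_len, hu'])
      rw [e1_len] at h4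
      exact h4

private theorem em_run (c v : List α) : em c (v.map some) = (run c v).2.map some := by
  induction v generalizing c with
  | nil => rfl
  | cons y v ih =>
    rw [List.map_cons, em, run, List.map_cons]
    unfold ev
    rw [ih]

theorem take_swp (k : ℕ) (w : List α) (hk : k ≤ w.length) :
    ((swp^[k] w).take (w.length - k)).map some = emk (w.length - k) (w.map some) := by
  unfold emk
  have h2 : (w.map some).length - (w.length - k) = k := by
    rw [List.length_map]
    omega
  rw [h2, ← List.map_take, ← List.map_drop, em_run,
    ← main_run k (w.take k) (w.drop k) (by rw [List.length_take]; omega),
    List.take_append_drop, List.length_drop]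

end Pool.Agent.Work.MP_5db8eb_co.SP
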