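import Pool.Agent.Work.MP_5db8eb_co.SP.SerE
import Pool.Agent.Work.MP_5db8eb_co.SP.Cols
import Pool.Agent.Work.MP_5db8eb_co.SP.MixL
import Pool.Agent.Work.MP_5db8eb_co.SP.FillB

set_option autoImplicit false

/-!
# SP/SerA (size M)

Counting for an ordinal sum.
PROOFS. `fill_sel`: induction on `τ` (generalising `χ`, `s1`, `s2`); the letters of `s1` satisfy `low`, those of `s2` do not.
`sel_count`: induction on `τ`. `sel_append`: induction on `τ`.
`ser_count`: `count_mix` with `F w = Bad (emk k (fill τ w))`; for `s1 ∈ words S1`, `s2 ∈ words S2`, `χ ∈ cols ..`: `emk_low` with `low x = decide (x ∈ S1)` and `fill_sel`: `emk k (fill τ (mix χ s1 s2)) = emk k (fill (sel τ χ) s1)`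
(the number of the letters is `|S1| ≥ k`: `fill_reduce`, `sel_count`). So the inner sum is at most `cnt k S1 (sel τ χ) * |S2|!` (`card_words`).
-/

namespace Pool.Agent.Work.MP_5db8eb_co.SP

open Classical

variable {α : Type*} [PartialOrder α]

theorem fill_sel (low : α → Bool) (τ χ : List Bool) (s1 s2 : List α) (h : χ.length = τ.count true)
    (h1 : χ.count true = s1.length) (h2 : χ.count false = s2.length) (hs1 : ∀ x ∈ s1, low x = true)
    (hs2 : ∀ x ∈ s2, low x = false) :
    (fill τ (mix χ s1 s2)).map (Option.filter low) = fill (sel τ χ) s1 := by
  induction τ generalizing χ s1 s2 with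
  | nil => simp [fill, sel]
  | cons b τ ih =>
    cases b with
    | false =>
      have h' : χ.length = τ.count true := by simpa using h
      simp only [fill, sel, List.map_cons, Option.filter_none]
      rw [ih χ s1 s2 h' h1 h2 hs1 hs2]
    | true =>
      cases χ with
      | nil => simp at h
      | cons c χ =>
        have h' : χ.length = τ.count true := by simpa using h
        cases c with
        | true =>
          cases s1 with
          | nil => simp at h1
          | cons x s1 =>
            have hx : low x = true := hs1 x (by simp)
            have h1' : χ.count true = s1.length := by simpa using h1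
            have h2' : χ.count false = s2.length := by simpa using h2
            simp only [fill, sel, mix, List.map_cons]
            rw [ih χ s1 s2 h' h1' h2' (fun y hy => hs1 y (by simp [hy])) hs2]
            simp [Option.filter, hx]
        | false =>
          cases s2 with
          | nil => simp at h2
          | cons y s2 =>
            have hy : low y = false := hs2 y (by simp)
            have h1' : χ.count true = s1.length := by simpa using h1
            have h2' : χ.count false = s2.length := by simpa using h2
            simp only [fill, sel, mix, List.map_cons]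
            rw [ih χ s1 s2 h' h1' h2' hs1 (fun z hz => hs2 z (by simp [hz]))]
            simp [Option.filter, hy]

theorem sel_count (τ χ : List Bool) (h : χ.length = τ.count true) : (sel τ χ).count true = χ.count true := by
  induction τ generalizing χ with
  | nil =>
    have h' : χ = [] := by simpa using h
    subst h'
    simp [sel]
  | cons b τ ih =>
    cases b with
    | false =>
      have h' : χ.length = τ.count true := by simpa using h
      simpa [sel] using ih χ h'
    | true =>
      cases χ with
      | nil => simp at h
      | cons c χ =>
        have h' : χ.length = τ.count true := by simpa using h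
        have h3 := ih χ h'
        cases c <;> simpa [sel] using h3

theorem sel_append (τ σ χ : List Bool) (h : τ.count true ≤ χ.length) :
    sel (τ ++ σ) χ = sel τ χ ++ sel σ (χ.drop (τ.count true)) := by
  induction τ generalizing χ with
  | nil => simp [sel]
  | cons b τ ih =>
    cases b with
    | false =>
      have h' : τ.count true ≤ χ.length := by simpa using h
      simpa [sel] using ih χ h'
    | true =>
      cases χ with
      | nil => simp at h
      | cons c χ =>
        have h' : τ.count true ≤ χ.length := by simpa using h
        simpa [sel] using ih χ h'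

theorem ser_count (S1 S2 : Finset α) (hd : Disjoint S1 S2) (hlt : ∀ x ∈ S1, ∀ y ∈ S2, x < y) (k : ℕ)
    (hk : k ≤ S1.card) (τ : List Bool) (h : τ.count true = S1.card + S2.card) :
    cnt k (S1 ∪ S2) τ ≤ ∑ χ ∈ cols S1.card S2.card, cnt k S1 (sel τ χ) * S2.card.factorial := by
  refine (count_mix S1 S2 hd (fun w => Bad (emk k (fill τ w)))).trans (Finset.sum_le_sum fun χ hχ => ?_)
  have hcol := mem_cols.1 hχ
  have hlen : χ.length = τ.count true := by
    have h1 : χ.length = χ.count true + χ.count false := by
      have := List.count_true_add_count_false χ
      omega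
    rw [h1, hcol.1, hcol.2, h]
  have key : ∀ s1 ∈ words S1, ∀ s2 ∈ words S2, emk k (fill τ (mix χ s1 s2)) = emk k (fill (sel τ χ) s1) := by
    intro s1 h1 s2 h2
    have hm1 := (mem_words.1 h1).2
    have hm2 := (mem_words.1 h2).2
    have c1 : χ.count true = s1.length := hcol.1.trans (length_words h1).symm
    have c2 : χ.count false = s2.length := hcol.2.trans (length_words h2).symm
    have l1 : ∀ x ∈ s1, (fun x => decide (x ∈ S1)) x = true := fun x hx => by simpa using (hm1 x).1 hx
    have l2 : ∀ x ∈ s2, (fun x => decide (x ∈ S1)) x = false := fun x hx => by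
      simpa using fun h3 => Finset.disjoint_left.mp hd h3 ((hm2 x).1 hx)
    have hmix := mix_spec χ s1 s2 (fun x => decide (x ∈ S1)) c1 c2 l1 l2
    have hfs := fill_sel (fun x => decide (x ∈ S1)) τ χ s1 s2 hlen c1 c2 l1 l2
    rw [← hfs]
    refine emk_low (S1 ∪ S2) (fun x => decide (x ∈ S1)) ?_ k _ ?_ ?_
    · intro x hx y hy hlx hly
      have hx1 : x ∈ S1 := by simpa using hlx
      have hy1 : y ∉ S1 := by simpa using hly
      have hy2 : y ∈ S2 := (Finset.mem_union.1 hy).resolve_left hy1
      exact hlt x hx1 y hy2
    · intro y hy
      have h3 := (hmix.2.2.2.1 y).1 (mem_fill hy)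
      rw [Finset.mem_union]
      exact h3.imp (hm1 y).1 (hm2 y).1
    · rw [hfs, fill_reduce _ _ (by rw [sel_count τ χ hlen, c1]), List.length_take, sel_count τ χ hlen, c1,
        min_self, length_words h1]
      exact hk
  calc ∑ s1 ∈ words S1, ((words S2).filter fun s2 => Bad (emk k (fill τ (mix χ s1 s2)))).card
      ≤ ∑ s1 ∈ words S1, (if Bad (emk k (fill (sel τ χ) s1)) then S2.card.factorial else 0) := by
        refine Finset.sum_le_sum fun s1 h1 => ?_
        by_cases hA : Bad (emk k (fill (sel τ χ) s1))
        · rw [if_pos hA, ← card_words S2]
          exact Finset.card_le_card (Finset.filter_subset _ _)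
        · rw [if_neg hA, Nat.le_zero, Finset.card_eq_zero, Finset.filter_eq_empty_iff]
          intro s2 h2
          rw [key s1 h1 s2 h2]
          exact hA
    _ = cnt k S1 (sel τ χ) * S2.card.factorial := by
        rw [← Finset.sum_filter, Finset.sum_const, smul_eq_mul]
        rfl

end Pool.Agent.Work.MP_5db8eb_co.SP
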