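import Pool.Agent.Work.MP_5db8eb_co.SP.EvB

set_option autoImplicit false

/-!
# SP/SerE (size M)

The lower part of an ordinal sum: the upper letters act as tops.
`low` marks the letters of the lower part; every low letter of `S` is smaller than every other letter of `S`. The contents `c` are `Sp`: first the high letters, then the low letters.
PROOFS. `ev_low`: write `c = c2 ++ c1`, `c2` high, `c1` low. A low letter `x` passes `c2` without change (`pass_id`: no high letter is smaller), then `c1`. A high letter `x` passes `c2` (`pass_append`), a high letter `e2` comes out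
(`ev_mem`/`pass_perm`); if `c1 = h :: c1'`, then `h < e2`: `e2` takes the cell of `h`, `h` passes `c1'`: this is the event `none` on `c1`; the cell of `e2` is high. If `c1 = []`, `e2` comes out and `ev [] none = ([], none)`. Event `none`:
if `c2 = h :: c2'` then `h` passes `c2' ++ c1`, the same as for a high letter; if `c2 = []` it is the event `none` on `c1`.
`app_low`: from `ev_low`. `st_low`: induction on `E`. `em_low`: induction on `E`: by `ev_low` if the letter which comes out on the low side exists it is the same.
`emk_low`: `emk_eq`-type splitting; `(E.map (Option.filter low)).reduceOption.length ≥ k` gives by `emk_some` that all letters of `emk k (E.map ..)` exist; use `em_low`.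
-/

namespace Pool.Agent.Work.MP_5db8eb_co.SP

open Classical

variable {α : Type*} [PartialOrder α]

/-- first the high letters, then the low letters -/
def Sp (low : α → Bool) (c : List α) : Prop := c = c.filter (fun x => !low x) ++ c.filter low

omit [PartialOrder α] in
private theorem sp_of (low : α → Bool) {c d2 d1 : List α} (hc : c = d2 ++ d1) (h2 : ∀ y ∈ d2, low y = false)
    (h1 : ∀ y ∈ d1, low y = true) : Sp low c ∧ c.filter low = d1 := by
  have e1 : d2.filter low = [] := List.filter_eq_nil_iff.mpr fun y hy => by simp [h2 y hy]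
  have e2 : d1.filter low = d1 := List.filter_eq_self.mpr fun y hy => h1 y hy
  have e3 : d2.filter (fun x => !low x) = d2 := List.filter_eq_self.mpr fun y hy => by simp [h2 y hy]
  have e4 : d1.filter (fun x => !low x) = [] := List.filter_eq_nil_iff.mpr fun y hy => by simp [h1 y hy]
  subst hc
  unfold Sp
  rw [List.filter_append, List.filter_append, e1, e2, e3, e4]
  simp

private theorem pass_mem' {x y : α} {c : List α} (h : y ∈ (pass x c).1 ∨ y = (pass x c).2) : y = x ∨ y ∈ c := by
  have h1 := (pass_perm x c).mem_iff (a := y)
  rw [List.mem_cons, List.mem_cons] at h1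
  exact h1.mp (h.symm)

private theorem ev_none_low (low : α → Bool) {c1 : List α} (h1 : ∀ y ∈ c1, low y = true) :
    ∀ y ∈ (ev c1 none).1, low y = true := by
  intro y hy
  rcases ev_mem (Or.inl hy) with h | h
  · exact h1 y h
  · exact absurd h (by simp)

private theorem high_pass (low : α → Bool) (x : α) (c2 c1 : List α) (hx : low x = false)
    (h2 : ∀ y ∈ c2, low y = false) (h1 : ∀ y ∈ c1, low y = true)
    (hlt : ∀ y ∈ c1, ∀ w, w = x ∨ w ∈ c2 → y < w) :
    (∃ d2, (pass x (c2 ++ c1)).1 = d2 ++ (ev c1 none).1 ∧ ∀ y ∈ d2, low y = false) ∧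
      (∀ z, (ev c1 none).2 = some z → (pass x (c2 ++ c1)).2 = z) ∧
      ((ev c1 none).2 = none → low (pass x (c2 ++ c1)).2 = false ∧ (ev c1 none).1 = []) := by
  have hhi : ∀ y, y = x ∨ y ∈ c2 → low y = false := by
    rintro y (rfl | h)
    · exact hx
    · exact h2 y h
  have hmem : ∀ y ∈ (pass x c2).1, low y = false := fun y hy => hhi y (pass_mem' (Or.inl hy))
  have he2 : (pass x c2).2 = x ∨ (pass x c2).2 ∈ c2 := pass_mem' (Or.inr rfl)
  rw [pass_append]
  cases c1 with
  | nil =>
    refine ⟨⟨(pass x c2).1, ?_, hmem⟩, ?_, ?_⟩
    · rw [pass_nil]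
      rfl
    · intro z hz
      exact absurd hz (by simp [ev])
    · intro _
      rw [pass_nil]
      exact ⟨hhi _ he2, rfl⟩
  | cons h c1 =>
    have hl : h < (pass x c2).2 := hlt h List.mem_cons_self _ he2
    refine ⟨⟨(pass x c2).1 ++ [(pass x c2).2], ?_, ?_⟩, ?_, ?_⟩
    · rw [pass_pos hl]
      simp [ev]
    · intro y hy
      rw [List.mem_append, List.mem_singleton] at hy
      rcases hy with hy | rfl
      · exact hmem y hy
      · exact hhi _ he2
    · intro z hz
      rw [pass_pos hl]
      simpa [ev] using hz
    · intro hn
      exact absurd hn (by simp [ev])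

theorem ev_low (S : Finset α) (low : α → Bool) (hS : ∀ x ∈ S, ∀ y ∈ S, low x = true → low y = false → x < y)
    (c : List α) (e : Option α) (hc : ∀ y ∈ c, y ∈ S) (he : ∀ y, e = some y → y ∈ S) (hsp : Sp low c) :
    Sp low (ev c e).1 ∧ (ev c e).1.filter low = (ev (c.filter low) (e.filter low)).1 ∧
      (∀ z, (ev (c.filter low) (e.filter low)).2 = some z → (ev c e).2 = some z) ∧
      ((ev (c.filter low) (e.filter low)).2 = none → ∀ z, (ev c e).2 = some z →
        low z = false ∧ (ev c e).1.filter low = []) := by
  have hsp' : c = c.filter (fun x => !low x) ++ c.filter low := hsp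
  have h2 : ∀ y ∈ c.filter (fun x => !low x), y ∈ S ∧ low y = false := by
    intro y hy
    rw [List.mem_filter] at hy
    exact ⟨hc y hy.1, by simpa using hy.2⟩
  have h1 : ∀ y ∈ c.filter low, y ∈ S ∧ low y = true := by
    intro y hy
    rw [List.mem_filter] at hy
    exact ⟨hc y hy.1, hy.2⟩
  generalize c.filter (fun x => !low x) = c2 at hsp' h2
  generalize c.filter low = c1 at hsp' h1 ⊢
  subst hsp'
  have hlow1 : ∀ y ∈ c1, low y = true := fun y hy => (h1 y hy).2
  have hhigh : ∀ y ∈ c2, low y = false := fun y hy => (h2 y hy).2
  have hn1 := ev_none_low low hlow1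
  cases e with
  | some x =>
    have hxS := he x rfl
    cases hx : low x
    · -- a high letter
      have ef : Option.filter low (some x) = none := by simp [Option.filter, hx]
      rw [ef]
      obtain ⟨⟨d2, hd, hd2⟩, hA, hB⟩ := high_pass low x c2 c1 hx hhigh hlow1
        (fun y hy w hw => by
          rcases hw with rfl | hw
          · exact hS y (h1 y hy).1 w hxS (h1 y hy).2 hx
          · exact hS y (h1 y hy).1 w (h2 w hw).1 (h1 y hy).2 (h2 w hw).2)
      have h3 := sp_of low (c := (ev (c2 ++ c1) (some x)).1) hd hd2 hn1
      refine ⟨h3.1, h3.2, ?_, ?_⟩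
      · intro z hz
        have := hA z hz
        simp only [ev]
        rw [this]
      · intro hn z hz
        have h4 := hB hn
        simp only [ev, Option.some.injEq] at hz
        rw [← hz, h3.2]
        exact h4
    · -- a low letter
      have ef : Option.filter low (some x) = some x := by simp [Option.filter, hx]
      rw [ef]
      have hid : pass x c2 = (c2, x) := pass_id fun y hy hlt =>
        lt_asymm hlt (hS x hxS y (h2 y hy).1 hx (h2 y hy).2)
      have hp : pass x (c2 ++ c1) = (c2 ++ (pass x c1).1, (pass x c1).2) := by
        rw [pass_append, hid]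
      have h3 := sp_of low (c := (ev (c2 ++ c1) (some x)).1) (d2 := c2) (d1 := (pass x c1).1)
        (by simp only [ev]; rw [hp]) hhigh (fun y hy => by
          rcases pass_mem' (Or.inl hy) with rfl | h
          · exact hx
          · exact hlow1 y h)
      refine ⟨h3.1, h3.2, ?_, ?_⟩
      · intro z hz
        simp only [ev] at hz ⊢
        rw [hp]
        exact hz
      · intro hn
        exact absurd hn (by simp [ev])
  | none =>
    have ef : Option.filter low (none : Option α) = none := rfl
    rw [ef]
    cases c2 with
    | nil =>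
      rw [List.nil_append]
      have h3 := sp_of low (c := (ev c1 none).1) (d2 := []) (d1 := (ev c1 none).1) (by simp) (by simp) hn1
      refine ⟨h3.1, h3.2, fun z hz => hz, ?_⟩
      intro hn z hz
      rw [hn] at hz
      exact absurd hz (by simp)
    | cons x c2 =>
      have hx : low x = false := hhigh x List.mem_cons_self
      obtain ⟨⟨d2, hd, hd2⟩, hA, hB⟩ := high_pass low x c2 c1 hx
        (fun y hy => hhigh y (List.mem_cons_of_mem _ hy)) hlow1
        (fun y hy w hw => by
          have hw' : w ∈ x :: c2 := List.mem_cons.mpr hw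
          exact hS y (h1 y hy).1 w (h2 w hw').1 (h1 y hy).2 (h2 w hw').2)
      have h3 := sp_of low (c := (ev ((x :: c2) ++ c1) none).1) hd hd2 hn1
      refine ⟨h3.1, h3.2, ?_, ?_⟩
      · intro z hz
        have := hA z hz
        rw [List.cons_append]
        simp only [ev]
        rw [this]
      · intro hn z hz
        have h4 := hB hn
        rw [List.cons_append] at hz
        simp only [ev, Option.some.injEq] at hz
        rw [h3.2, ← hz]
        exact h4

theorem app_low (S : Finset α) (low : α → Bool) (hS : ∀ x ∈ S, ∀ y ∈ S, low x = true → low y = false → x < y)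
    (c : List α) (e : Option α) (hc : ∀ y ∈ c, y ∈ S) (he : ∀ y, e = some y → y ∈ S) (hsp : Sp low c) :
    Sp low (app c e) ∧ (app c e).filter low = app (c.filter low) (e.filter low) := by
  obtain ⟨h1, h2, h3, h4⟩ := ev_low S low hS c e hc he hsp
  have hd2 : ∀ y ∈ (ev c e).1.filter (fun x => !low x), low y = false := by
    intro y hy
    rw [List.mem_filter] at hy
    simpa using hy.2
  have hd1 : ∀ y ∈ (ev c e).1.filter low, low y = true := by
    intro y hy
    rw [List.mem_filter] at hy
    exact hy.2
  have h1' : (ev c e).1 = (ev c e).1.filter (fun x => !low x) ++ (ev c e).1.filter low := h1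
  unfold app
  cases h5 : (ev (c.filter low) (e.filter low)).2 with
  | some z =>
    have h6 := h3 z h5
    have hz : low z = true := by
      rcases ev_mem (Or.inr h5) with h | h
      · exact (List.mem_filter.mp h).2
      · exact (Option.filter_eq_some_iff.mp h).2
    rw [h6]
    have h7 := sp_of low (c := (ev c e).1 ++ (some z).toList)
      (d2 := (ev c e).1.filter (fun x => !low x)) (d1 := (ev c e).1.filter low ++ [z])
      (by rw [← List.append_assoc, ← h1']; rfl) hd2
      (fun y hy => by
        rw [List.mem_append, List.mem_singleton] at hy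
        rcases hy with hy | rfl
        · exact hd1 y hy
        · exact hz)
    refine ⟨h7.1, ?_⟩
    rw [h7.2, h2]
    rfl
  | none =>
    cases h6 : (ev c e).2 with
    | none =>
      refine ⟨?_, ?_⟩
      · simpa using h1
      · simpa using h2
    | some z =>
      obtain ⟨h7, h8⟩ := h4 h5 z h6
      have h9 := sp_of low (c := (ev c e).1 ++ (some z).toList)
        (d2 := (ev c e).1.filter (fun x => !low x) ++ [z]) (d1 := [])
        (by rw [h8, List.append_nil] at h1'; rw [List.append_nil, ← h1']; rfl)
        (fun y hy => by
          rw [List.mem_append, List.mem_singleton] at hy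
          rcases hy with hy | rfl
          · exact hd2 y hy
          · exact h7) (by simp)
      refine ⟨h9.1, ?_⟩
      rw [h9.2, ← h2, h8]
      rfl

theorem st_low (S : Finset α) (low : α → Bool) (hS : ∀ x ∈ S, ∀ y ∈ S, low x = true → low y = false → x < y)
    (c : List α) (E : List (Option α)) (hc : ∀ y ∈ c, y ∈ S) (hE : ∀ y, some y ∈ E → y ∈ S) (hsp : Sp low c) :
    Sp low (st c E) ∧ (st c E).filter low = st (c.filter low) (E.map (Option.filter low)) := by
  induction E generalizing c with
  | nil => exact ⟨hsp, rfl⟩
  | cons e E ih =>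
    have he : ∀ y, e = some y → y ∈ S := fun y hy => hE y (by rw [← hy]; exact List.mem_cons_self)
    obtain ⟨h1, h2⟩ := app_low S low hS c e hc he hsp
    have h3 : ∀ y ∈ app c e, y ∈ S := by
      intro y hy
      rcases app_mem hy with h | h
      · exact hc y h
      · exact he y h
    obtain ⟨h4, h5⟩ := ih (app c e) h3 (fun y hy => hE y (List.mem_cons_of_mem _ hy)) h1
    refine ⟨h4, ?_⟩
    rw [h2] at h5
    exact h5

theorem em_low (S : Finset α) (low : α → Bool) (hS : ∀ x ∈ S, ∀ y ∈ S, low x = true → low y = false → x < y)
    (c : List α) (E : List (Option α)) (hc : ∀ y ∈ c, y ∈ S) (hE : ∀ y, some y ∈ E → y ∈ S) (hsp : Sp low c)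
    (hall : ∀ o ∈ em (c.filter low) (E.map (Option.filter low)), o.isSome = true) :
    em c E = em (c.filter low) (E.map (Option.filter low)) := by
  induction E generalizing c with
  | nil => rfl
  | cons e E ih =>
    have he : ∀ y, e = some y → y ∈ S := fun y hy => hE y (by rw [← hy]; exact List.mem_cons_self)
    obtain ⟨h1, h2, h3, h4⟩ := ev_low S low hS c e hc he hsp
    have h5 : ∀ y ∈ (ev c e).1, y ∈ S := by
      intro y hy
      rcases ev_mem (Or.inl hy) with h | h
      · exact hc y h
      · exact he y h
    rw [List.map_cons, em] at hall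
    have h6 := hall _ List.mem_cons_self
    obtain ⟨z, hz⟩ := Option.isSome_iff_exists.mp h6
    rw [List.map_cons, em, em, hz, h3 z hz, ← h2]
    congr 1
    refine ih _ h5 (fun y hy => hE y (List.mem_cons_of_mem _ hy)) h1 ?_
    intro o ho
    rw [h2] at ho
    exact hall o (List.mem_cons_of_mem _ ho)

theorem emk_low (S : Finset α) (low : α → Bool) (hS : ∀ x ∈ S, ∀ y ∈ S, low x = true → low y = false → x < y)
    (k : ℕ) (E : List (Option α)) (hE : ∀ y, some y ∈ E → y ∈ S)
    (hk : k ≤ (E.map (Option.filter low)).reduceOption.length) :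
    emk k E = emk k (E.map (Option.filter low)) := by
  have hall := emk_some k (E.map (Option.filter low)) hk
  unfold emk at hall ⊢
  rw [List.length_map, ← List.map_take, ← List.map_drop] at hall ⊢
  have h0 : Sp low ([] : List α) := by simp [Sp]
  obtain ⟨h1, h2⟩ := st_low S low hS [] (E.take (E.length - k)) (by simp)
    (fun y hy => hE y (List.mem_of_mem_take hy)) h0
  rw [List.filter_nil] at h2
  rw [← h2] at hall ⊢
  refine em_low S low hS _ _ ?_ (fun y hy => hE y (List.mem_of_mem_drop hy)) h1 hall
  intro y hy
  rcases st_mem hy with h | h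
  · exact absurd h (by simp)
  · exact hE y (List.mem_of_mem_take h)

end Pool.Agent.Work.MP_5db8eb_co.SP
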