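import Pool.Agent.Work.MP_5db8eb_co.SP.ParS
import Pool.Agent.Work.MP_5db8eb_co.SP.PatB
import Pool.Agent.Work.MP_5db8eb_co.SP.MixL

set_option autoImplicit false

/-!
# SP/SubE (size M)

The letters of one colour for a fixed list `χ` of colours (`true`: letters of `S1`).
Notation: `p x = decide (x ∈ S1)`, `S = S1 ∪ S2`, `E = fill (τ ++ σ) (mix χ s1 s2)`, `k = σ.length`, `χ' = χ.drop (τ.count true)`, `Q = cst [] (fill τ χ)`.
`E.map (Option.map p) = fill (τ ++ σ) χ = fill τ χ ++ fill σ χ'` (`fill_map`, `mix_spec`, `fill_append`), `E.reduceOption = mix χ s1 s2` (`fill_reduce`), its filtered list is `s_i` (`mix_spec`).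
`pt_count`: `patA_count`, `patE_count`, `fill_reduce`.
`sub_emk`: write `E = E0 ++ E1`, `E0 = fill τ (..)`, `E1 = fill σ (..)` (`fill_append`), `emk_eq`; `em_fil` for `c = st [] E0` and `E1`, `st_fil` for `[]` and `E0`, `st_col`; then again `emk_eq` for
`fill (P ++ R) s_i = fill P s_i ++ fill R (s_i.drop (P.count true))` with `P = patA i [] (fill τ χ)`, `R = patE i Q (fill σ χ')` (its length is `ne i`: `patE_length`); the letters of colour `i` of `E0` are the first `P.count true` letters of `s_i` (`patA_count`,
`fill_reduce`, `List.filter_append` for `s_i = filter (E0 letters) ++ filter (E1 letters)`), `fill_take`.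
-/

namespace Pool.Agent.Work.MP_5db8eb_co.SP

open Classical

variable {α : Type*} [PartialOrder α]

/-- the pattern seen by the colour `i` -/
def pt (i : Bool) (τ σ χ : List Bool) : List Bool :=
  patA i [] (fill τ χ) ++ patE i (cst [] (fill τ χ)) (fill σ (χ.drop (τ.count true)))

/-- number of letters of colour `i` which come out -/
def ne (i : Bool) (τ σ χ : List Bool) : ℕ :=
  (cem (cst [] (fill τ χ)) (fill σ (χ.drop (τ.count true)))).count (some i)

theorem pt_count (i : Bool) (τ σ χ : List Bool) (h : χ.length = (τ ++ σ).count true) :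
    (pt i τ σ χ).count true = χ.count i := by
  rw [List.count_append] at h
  unfold pt
  rw [List.count_append, patA_count, patE_count, fill_reduce _ _ (by omega),
    fill_reduce _ _ (by rw [List.length_drop]; omega), ← List.count_append,
    List.take_of_length_le (l := List.drop _ _) (by rw [List.length_drop]; omega), List.take_append_drop]

theorem sub_emk (S1 S2 : Finset α) (hd : Disjoint S1 S2) (hno : ∀ x ∈ S1, ∀ y ∈ S2, ¬ x < y ∧ ¬ y < x)
    (τ σ χ : List Bool) (s1 s2 : List α) (h1 : s1 ∈ words S1) (h2 : s2 ∈ words S2)
    (hχ : χ ∈ cols S1.card S2.card) (h : (τ ++ σ).count true = S1.card + S2.card) (i : Bool) :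
    (emk σ.length (fill (τ ++ σ) (mix χ s1 s2))).filter (fun o => o.map (fun x => decide (x ∈ S1)) == some i) =
      emk (ne i τ σ χ) (fill (pt i τ σ χ) (if i then s1 else s2)) := by
  set col : α → Bool := fun x => decide (x ∈ S1) with hcol
  have hl1 := length_words h1
  have hl2 := length_words h2
  rw [mem_cols] at hχ
  have hcs1 : ∀ x ∈ s1, col x = true := by
    intro x hx
    rw [hcol]
    exact decide_eq_true (((mem_words.mp h1).2 x).mp hx)
  have hcs2 : ∀ x ∈ s2, col x = false := by
    intro x hx
    rw [hcol]
    exact decide_eq_false (fun hx1 => Finset.disjoint_left.mp hd hx1 (((mem_words.mp h2).2 x).mp hx))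
  obtain ⟨m1, m2, m3, m4, m5⟩ := mix_spec χ s1 s2 col (by omega) (by omega) hcs1 hcs2
  set m := mix χ s1 s2 with hm
  set a := τ.count true with ha
  have hchi : χ.length = S1.card + S2.card := by
    rw [← m5, hm]
    have hx : ∀ l : List Bool, l.count true + l.count false = l.length := by
      intro l
      induction l with
      | nil => simp
      | cons c l ih =>
        cases c
        · simp
          omega
        · simp
          omega
    rw [m5, ← hx χ]
    omega
  have hmlen : m.length = S1.card + S2.card := by rw [m5, hchi]
  rw [List.count_append] at h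
  -- the relation between elements of different colours
  have hS : ∀ x ∈ S1 ∪ S2, ∀ y ∈ S1 ∪ S2, col x ≠ col y → ¬ x < y := by
    intro x hx y hy hxy
    rw [Finset.mem_union] at hx hy
    by_cases hx1 : x ∈ S1
    · have hy1 : y ∉ S1 := by
        intro hy1
        apply hxy
        rw [hcol]
        simp [hx1, hy1]
      exact (hno x hx1 y (hy.resolve_left hy1)).1
    · have hy1 : y ∈ S1 := by
        by_contra hy1
        apply hxy
        rw [hcol]
        simp [hx1, hy1]
      exact (hno y hy1 x (hx.resolve_left hx1)).2
  have hmS : ∀ x ∈ m, x ∈ S1 ∪ S2 := by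
    intro x hx
    rw [m4] at hx
    rw [Finset.mem_union]
    rcases hx with hx | hx
    · exact Or.inl (((mem_words.mp h1).2 x).mp hx)
    · exact Or.inr (((mem_words.mp h2).2 x).mp hx)
  have hE0S : ∀ y, some y ∈ fill τ m → y ∈ S1 ∪ S2 := fun y hy => hmS y (mem_fill hy)
  have hE1S : ∀ y, some y ∈ fill σ (m.drop a) → y ∈ S1 ∪ S2 :=
    fun y hy => hmS y (List.mem_of_mem_drop (mem_fill hy))
  have hcS : ∀ y ∈ st [] (fill τ m), y ∈ S1 ∪ S2 := by
    intro y hy
    rcases st_mem hy with hy | hy
    · simp at hy
    · exact hE0S y hy
  -- the colours of the events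
  have hE0col : (fill τ m).map (Option.map col) = fill τ χ := by
    rw [fill_map, m3]
  have hE1col : (fill σ (m.drop a)).map (Option.map col) = fill σ (χ.drop a) := by
    rw [fill_map, List.map_drop, m3]
  have hE0red : (fill τ m).reduceOption = m.take a := fill_reduce _ _ (by omega)
  have hE1red : (fill σ (m.drop a)).reduceOption = m.drop a := by
    rw [fill_reduce _ _ (by rw [List.length_drop]; omega)]
    exact List.take_of_length_le (by rw [List.length_drop]; omega)
  -- the word of colour i
  have hsi : (if i then s1 else s2) = m.filter fun y => col y == i := by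
    cases i
    · simp only [Bool.false_eq_true, if_false]
      rw [← m2]
      congr 1
      funext y
      simp
    · simp only [if_true]
      rw [← m1]
      congr 1
      funext y
      simp
  set P := patA i [] (fill τ χ) with hP
  set Q := cst [] (fill τ χ) with hQ
  have hPc : P.count true = ((m.take a).filter fun y => col y == i).length := by
    rw [hP, patA_count, fill_reduce _ _ (by omega), ← m3, ← List.map_take, List.count_eq_countP,
      List.countP_map, List.countP_eq_length_filter]
    rfl
  have hsplit : (m.filter fun y => col y == i) =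
      ((m.take a).filter fun y => col y == i) ++ ((m.drop a).filter fun y => col y == i) := by
    rw [← List.filter_append, List.take_append_drop]
  -- left side
  rw [fill_append, ← ha, emk_eq _ _ _ (length_fill _ _), em_fil (S1 ∪ S2) col hS _ _ hcS hE1S i,
    st_fil (S1 ∪ S2) col hS _ _ (by simp) hE0S i, st_col (S1 ∪ S2) col hS _ _ (by simp) hE0S,
    hE0col, hE1col, hE0red, hE1red, List.map_nil, List.filter_nil]
  -- right side
  have hR : (patE i Q (fill σ (χ.drop a))).length = ne i τ σ χ := by
    rw [patE_length]
    rfl
  have hpt : pt i τ σ χ = P ++ patE i Q (fill σ (χ.drop a)) := rfl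
  rw [hpt, fill_append, emk_eq _ _ _ ((length_fill _ _).trans hR), hsi]
  have e1 : fill P (m.filter fun y => col y == i) = fill P ((m.take a).filter fun y => col y == i) := by
    rw [← fill_take, hPc, hsplit, List.take_left]
  have e2 : (m.filter fun y => col y == i).drop (P.count true) = (m.drop a).filter fun y => col y == i := by
    rw [hPc, hsplit, List.drop_left]
  rw [e1, e2]

end Pool.Agent.Work.MP_5db8eb_co.SP
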